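import Mathlib

/-!
# Interface for the construction of a non-Markov quadratic harness (MP_b61be4_pr)

`GoodDensity n`: `n t v` is the density (in `(t, v)`) of the jump intensity of a multiplicative
process, with all the identities which the probabilistic part uses.
-/

set_option autoImplicit false

open MeasureTheory

namespace Pool.Agent.Lib_helper33.QH

/-- the sign, with `sg 0 = 1` -/
noncomputable def sg (v : ℝ) : ℝ := if v < 0 then -1 else 1

/-- the unitary character `|v|^{iy} sgn(v)^e` (note `Real.log v = log |v|`) -/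
noncomputable def chi (y : ℝ) (e : ℕ) (v : ℝ) : ℂ :=
  Complex.exp (((y * Real.log v : ℝ) : ℂ) * Complex.I) * ((sg v : ℝ) : ℂ) ^ e

structure GoodDensity (n : ℝ → ℝ → ℝ) : Prop where
  meas : Measurable (Function.uncurry n)
  nonneg : ∀ t v, 0 ≤ n t v
  sq_int : ∀ t, 0 < t → Integrable (fun v : ℝ => (v - 1) ^ 2 * n t v)
  sq_eq : ∀ t, 0 < t → ∫ v : ℝ, (v - 1) ^ 2 * n t v = 1 / (t * (t + 1))
  key : ∀ (y : ℝ) (e : ℕ), ∃ a b : ℂ, ∀ t : ℝ, 0 < t →
    a + b * t ≠ 0 ∧ (b - 2 * a) + (b - 3 * a) * t ≠ 0 ∧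
    ∫ v : ℝ, ((v - 1 : ℝ) : ℂ) * (chi y e v - 1) * ((n t v : ℝ) : ℂ) = a / (t * (a + b * t)) ∧
    ∫ v : ℝ, ((v - 1 : ℝ) : ℂ) * (chi y e v * (v : ℂ) - 1) * ((n t v : ℝ) : ℂ)
      = (b - 2 * a) / (t * ((b - 2 * a) + (b - 3 * a) * t))

/-- the angle `ψ(t)` with `tan ψ = √3 t / (3 t + 2)`, divided by `π`; it is in `(0, 1/6)` for
`t > 0` -/
noncomputable def al (t : ℝ) : ℝ := Real.arctan (√3 * t / (3 * t + 2)) / Real.pi

/-- jump density of type A (positive jumps only) -/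
noncomputable def nA (t v : ℝ) : ℝ :=
  if 0 < v then
    (√3 / 2) / (3 * t ^ 2 + 3 * t + 1) * (3 / (2 * Real.pi)) *
      (v ^ (3 / 2 * al t - 1) / ((v - 1) * (v ^ (3 / 2 : ℝ) - 1)))
  else 0

/-- jump density of type B (jumps of both signs) -/
noncomputable def nB (t v : ℝ) : ℝ :=
  (√3 / 2) / (3 * t ^ 2 + 3 * t + 1) * (3 / Real.pi) *
      (|v| ^ (6 * al t - 1) / ((v - 1) * (v ^ 3 - 1)))

end Pool.Agent.Lib_helper33.QH
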