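import Mathlib
import Pool.Agent.Lib_helper33.QH.Defs

/-!
# Elementary properties of the characters and of the test functionals
-/

set_option autoImplicit false

open MeasureTheory Filter Topology

namespace Pool.Agent.Lib_helper33.QH

theorem sg_ne_zero (v : ℝ) : sg v ≠ 0 := by
  unfold sg; split_ifs <;> norm_num

theorem abs_sg (v : ℝ) : |sg v| = 1 := by
  unfold sg; split_ifs <;> norm_num

theorem sg_mul {a b : ℝ} (ha : a ≠ 0) (hb : b ≠ 0) : sg (a * b) = sg a * sg b := by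
  unfold sg
  rcases lt_or_gt_of_ne ha with h1 | h1 <;> rcases lt_or_gt_of_ne hb with h2 | h2
  · rw [if_neg (not_lt.mpr (mul_pos_of_neg_of_neg h1 h2).le), if_pos h1, if_pos h2]; norm_num
  · rw [if_pos (mul_neg_of_neg_of_pos h1 h2), if_pos h1, if_neg (not_lt.mpr h2.le)]; norm_num
  · rw [if_pos (mul_neg_of_pos_of_neg h1 h2), if_neg (not_lt.mpr h1.le), if_pos h2]; norm_num
  · rw [if_neg (not_lt.mpr (mul_pos h1 h2).le), if_neg (not_lt.mpr h1.le),
      if_neg (not_lt.mpr h2.le)]; norm_num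

theorem measurable_sg : Measurable sg := by
  unfold sg
  exact Measurable.ite measurableSet_Iio measurable_const measurable_const

theorem sg_of_pos {v : ℝ} (h : 0 < v) : sg v = 1 := by
  unfold sg; rw [if_neg (not_lt.mpr h.le)]

theorem sg_of_neg {v : ℝ} (h : v < 0) : sg v = -1 := by
  unfold sg; rw [if_pos h]

theorem continuousAt_sg {v : ℝ} (hv : v ≠ 0) : ContinuousAt sg v := by
  rcases lt_or_gt_of_ne hv with h | h
  · have : sg =ᶠ[𝓝 v] fun _ => -1 := by
      filter_upwards [Iio_mem_nhds h] with x hx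
      exact sg_of_neg hx
    exact this.continuousAt
  · have : sg =ᶠ[𝓝 v] fun _ => 1 := by
      filter_upwards [Ioi_mem_nhds h] with x hx
      exact sg_of_pos hx
    exact this.continuousAt

theorem norm_chi (y : ℝ) (e : ℕ) (v : ℝ) : ‖chi y e v‖ = 1 := by
  unfold chi
  rw [norm_mul, norm_pow, Complex.norm_exp_ofReal_mul_I, Complex.norm_real, Real.norm_eq_abs,
    abs_sg, one_pow, one_mul]

theorem chi_mul (y : ℝ) (e : ℕ) {a b : ℝ} (ha : a ≠ 0) (hb : b ≠ 0) :
    chi y e (a * b) = chi y e a * chi y e b := by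
  unfold chi
  rw [Real.log_mul ha hb, sg_mul ha hb]
  push_cast
  rw [mul_add, add_mul, Complex.exp_add, mul_pow]
  ring

theorem chi_one (y : ℝ) (e : ℕ) : chi y e 1 = 1 := by
  unfold chi
  rw [sg_of_pos one_pos]
  simp

theorem chi_exp (y : ℝ) (e : ℕ) (c : ℝ) :
    chi y e (Real.exp c) = Complex.exp ((y * c : ℝ) * Complex.I) := by
  unfold chi
  rw [Real.log_exp, sg_of_pos (Real.exp_pos c)]
  simp

theorem chi_zero_zero (v : ℝ) : chi 0 0 v = 1 := by
  unfold chi; simp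

theorem chi_zero_one (v : ℝ) : chi 0 1 v = (sg v : ℂ) := by
  unfold chi; simp

theorem chi_add (y y' : ℝ) (e e' : ℕ) (v : ℝ) :
    chi (y + y') (e + e') v = chi y e v * chi y' e' v := by
  unfold chi
  rw [add_mul]
  push_cast
  rw [add_mul, Complex.exp_add, pow_add]
  ring

theorem chi_sum {ι : Type*} (s : Finset ι) (y : ι → ℝ) (e : ι → ℕ) (v : ℝ) :
    ∏ j ∈ s, chi (y j) (e j) v = chi (∑ j ∈ s, y j) (∑ j ∈ s, e j) v := by
  classical
  induction s using Finset.induction_on with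
  | empty => simp [chi_zero_zero]
  | insert a s ha ih =>
    rw [Finset.prod_insert ha, Finset.sum_insert ha, Finset.sum_insert ha, ih, chi_add]

theorem measurable_chi (y : ℝ) (e : ℕ) : Measurable (chi y e) := by
  unfold chi
  have h1 : Measurable (fun v : ℝ => ((y * Real.log v : ℝ) : ℂ) * Complex.I) :=
    (Complex.measurable_ofReal.comp (Real.measurable_log.const_mul y)).mul_const _
  exact (Complex.measurable_exp.comp h1).mul
    ((Complex.measurable_ofReal.comp measurable_sg).pow_const e)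

theorem continuousAt_chi (y : ℝ) (e : ℕ) {v : ℝ} (hv : v ≠ 0) : ContinuousAt (chi y e) v := by
  unfold chi
  have h1 : ContinuousAt (fun v : ℝ => ((y * Real.log v : ℝ) : ℂ) * Complex.I) v :=
    (Complex.continuous_ofReal.continuousAt.comp
      (continuousAt_const.mul (Real.continuousAt_log hv))).mul continuousAt_const
  exact (Complex.continuous_exp.continuousAt.comp h1).mul
    ((Complex.continuous_ofReal.continuousAt.comp (continuousAt_sg hv)).pow e)

variable {T : Type*} {ι : Type*} [Fintype ι]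

/-- the test functional `∏ χ_j(r(τ_j)) · r(x₁)^{e₁} r(x₂)^{e₂}` -/
noncomputable def tf (τ : ι → T) (y : ι → ℝ) (e : ι → ℕ) (x₁ : T) (e₁ : ℕ) (x₂ : T) (e₂ : ℕ)
    (r : T → ℝ) : ℂ :=
  (∏ j, chi (y j) (e j) (r (τ j))) * ((r x₁ : ℂ) ^ e₁ * (r x₂ : ℂ) ^ e₂)

/-- the linear compensator of the test functional -/
noncomputable def cp (τ : ι → T) (y : ι → ℝ) (x₁ : T) (e₁ : ℕ) (x₂ : T) (e₂ : ℕ)
    (r : T → ℝ) : ℂ :=
  (∑ j, (y j : ℂ) * Complex.I * ((r (τ j) - 1 : ℝ) : ℂ)) +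
    ((e₁ : ℂ) * ((r x₁ - 1 : ℝ) : ℂ) + (e₂ : ℂ) * ((r x₂ - 1 : ℝ) : ℂ))

variable (τ : ι → T) (y : ι → ℝ) (e : ι → ℕ) (x₁ : T) (e₁ : ℕ) (x₂ : T) (e₂ : ℕ)

theorem tf_mul {r r' : T → ℝ} (h : ∀ t, r t ≠ 0) (h' : ∀ t, r' t ≠ 0) :
    tf τ y e x₁ e₁ x₂ e₂ (fun t => r t * r' t) =
      tf τ y e x₁ e₁ x₂ e₂ r * tf τ y e x₁ e₁ x₂ e₂ r' := by
  unfold tf
  have : ∀ j, chi (y j) (e j) (r (τ j) * r' (τ j)) =
      chi (y j) (e j) (r (τ j)) * chi (y j) (e j) (r' (τ j)) := fun j => chi_mul _ _ (h _) (h' _)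
  simp_rw [this, Finset.prod_mul_distrib]
  push_cast
  rw [mul_pow, mul_pow]
  ring

theorem tf_one : tf τ y e x₁ e₁ x₂ e₂ (fun _ => 1) = 1 := by
  unfold tf
  simp [chi_one]

theorem tf_prod {κ : Type*} (s : Finset κ) (r : κ → T → ℝ) (h : ∀ k t, r k t ≠ 0) :
    tf τ y e x₁ e₁ x₂ e₂ (fun t => ∏ k ∈ s, r k t) =
      ∏ k ∈ s, tf τ y e x₁ e₁ x₂ e₂ (r k) := by
  classical
  induction s using Finset.induction_on with
  | empty => simp [tf_one]
  | insert a s ha ih =>
    simp_rw [Finset.prod_insert ha]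
    rw [tf_mul _ _ _ _ _ _ _ (h a) (fun t => Finset.prod_ne_zero_iff.mpr fun k _ => h k t), ih]

theorem tf_exp (c : T → ℝ) :
    tf τ y e x₁ e₁ x₂ e₂ (fun t => Real.exp (c t)) =
      Complex.exp ((∑ j, (y j : ℂ) * Complex.I * (c (τ j) : ℂ)) +
        ((e₁ : ℂ) * (c x₁ : ℂ) + (e₂ : ℂ) * (c x₂ : ℂ))) := by
  unfold tf
  simp_rw [chi_exp]
  rw [Complex.exp_add, Complex.exp_sum, Complex.exp_add, Complex.exp_nat_mul,
    Complex.exp_nat_mul]
  congr 1
  · refine Finset.prod_congr rfl fun j _ => ?_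
    congr 1
    push_cast
    ring
  · push_cast
    rfl

theorem norm_tf (r : T → ℝ) : ‖tf τ y e x₁ e₁ x₂ e₂ r‖ = |r x₁| ^ e₁ * |r x₂| ^ e₂ := by
  unfold tf
  rw [norm_mul, norm_mul, norm_prod, norm_pow, norm_pow]
  simp [norm_chi]

theorem measurable_tf {Ω : Type*} [MeasurableSpace Ω] {r : T → Ω → ℝ}
    (hr : ∀ t, Measurable (r t)) :
    Measurable (fun ω => tf τ y e x₁ e₁ x₂ e₂ (fun t => r t ω)) := by
  unfold tf
  refine Measurable.mul ?_ (Measurable.mul ?_ ?_)
  · exact Finset.measurable_prod _ fun j _ => (measurable_chi _ _).comp (hr _)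
  · exact (Complex.measurable_ofReal.comp (hr _)).pow_const _
  · exact (Complex.measurable_ofReal.comp (hr _)).pow_const _

theorem measurable_cp {Ω : Type*} [MeasurableSpace Ω] {r : T → Ω → ℝ}
    (hr : ∀ t, Measurable (r t)) :
    Measurable (fun ω => cp τ y x₁ e₁ x₂ e₂ (fun t => r t ω)) := by
  unfold cp
  refine Measurable.add ?_ (Measurable.add ?_ ?_)
  · exact Finset.measurable_sum _ fun j _ =>
      (Complex.measurable_ofReal.comp ((hr _).sub_const 1)).const_mul _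
  · exact (Complex.measurable_ofReal.comp ((hr _).sub_const 1)).const_mul _
  · exact (Complex.measurable_ofReal.comp ((hr _).sub_const 1)).const_mul _

end Pool.Agent.Lib_helper33.QH
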