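import Mathlib
import Pool.Agent.Lib_helper33.QH.Chi

/-!
# The second order bound for the compensated test functionals
-/

set_option autoImplicit false

open MeasureTheory Filter Topology

namespace Pool.Agent.Lib_helper33.QH

theorem norm_exp_I_sub_one_le (θ : ℝ) : ‖Complex.exp ((θ : ℂ) * Complex.I) - 1‖ ≤ |θ| := by
  have := @Real.norm_exp_I_mul_ofReal_sub_one_le θ
  rwa [mul_comm, Real.norm_eq_abs] at this

theorem norm_exp_I_sub_one_sub_le (θ : ℝ) :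
    ‖Complex.exp ((θ : ℂ) * Complex.I) - 1 - (θ : ℂ) * Complex.I‖ ≤ 2 * θ ^ 2 := by
  have hn : ‖(θ : ℂ) * Complex.I‖ = |θ| := by simp
  rcases le_or_gt |θ| 1 with h | h
  · have h1 := Complex.norm_exp_sub_one_sub_id_le (x := (θ : ℂ) * Complex.I) (by rw [hn]; exact h)
    rw [hn, sq_abs] at h1
    nlinarith [sq_nonneg θ]
  · have h1 := norm_exp_I_sub_one_le θ
    have h2 : ‖Complex.exp ((θ : ℂ) * Complex.I) - 1 - (θ : ℂ) * Complex.I‖ ≤
        ‖Complex.exp ((θ : ℂ) * Complex.I) - 1‖ + ‖(θ : ℂ) * Complex.I‖ := norm_sub_le _ _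
    rw [hn] at h2
    have h3 : |θ| ^ 2 = θ ^ 2 := sq_abs θ
    nlinarith

theorem abs_log_le {v : ℝ} (hv : 1 / 2 ≤ v) : |Real.log v| ≤ 2 * |v - 1| := by
  have hv0 : 0 < v := by linarith
  have h1 : Real.log v ≤ v - 1 := Real.log_le_sub_one_of_pos hv0
  have h2 : 1 - v⁻¹ ≤ Real.log v := Real.one_sub_inv_le_log_of_pos hv0
  have h3 : -(2 * |v - 1|) ≤ 1 - v⁻¹ := by
    have : 1 - v⁻¹ = (v - 1) * v⁻¹ := by field_simp
    rw [this]
    have h4 : v⁻¹ ≤ 2 := by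
      rw [inv_le_comm₀ hv0 two_pos]; linarith
    have h5 : 0 ≤ v⁻¹ := (inv_pos.mpr hv0).le
    have h6 : -|v - 1| ≤ v - 1 := neg_abs_le _
    nlinarith [abs_nonneg (v - 1)]
  rw [abs_le]
  refine ⟨by linarith, ?_⟩
  have := le_abs_self (v - 1)
  have := abs_nonneg (v - 1)
  linarith

theorem abs_log_sub_le {v : ℝ} (hv : 1 / 2 ≤ v) : |Real.log v - (v - 1)| ≤ 2 * (v - 1) ^ 2 := by
  have hv0 : 0 < v := by linarith
  have h1 : Real.log v ≤ v - 1 := Real.log_le_sub_one_of_pos hv0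
  have h2 : 1 - v⁻¹ ≤ Real.log v := Real.one_sub_inv_le_log_of_pos hv0
  have h3 : v - 1 - (1 - v⁻¹) = (v - 1) ^ 2 * v⁻¹ := by field_simp
  have h4 : v⁻¹ ≤ 2 := by
    rw [inv_le_comm₀ hv0 two_pos]; linarith
  rw [abs_le]
  refine ⟨?_, ?_⟩
  · nlinarith [sq_nonneg (v - 1)]
  · nlinarith [sq_nonneg (v - 1)]

theorem chi_sub_one_le (y : ℝ) (e : ℕ) (v : ℝ) :
    ‖chi y e v - 1‖ ≤ (2 * |y| + 4) * |v - 1| := by
  rcases lt_or_ge |v - 1| (1 / 2) with h | h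
  · have hv : 1 / 2 ≤ v := by
      have := neg_abs_le (v - 1); linarith
    have hv0 : 0 < v := by linarith
    have h1 : chi y e v = Complex.exp (((y * Real.log v : ℝ) : ℂ) * Complex.I) := by
      unfold chi; rw [sg_of_pos hv0]; simp
    rw [h1]
    refine (norm_exp_I_sub_one_le _).trans ?_
    rw [abs_mul]
    have := abs_log_le hv
    nlinarith [abs_nonneg y, abs_nonneg (v - 1)]
  · have h1 : ‖chi y e v - 1‖ ≤ 2 := by
      refine (norm_sub_le _ _).trans ?_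
      rw [norm_chi]; norm_num
    nlinarith [abs_nonneg y, abs_nonneg (v - 1)]

theorem chi_sub_one_sub_le (y : ℝ) (e : ℕ) (v : ℝ) :
    ‖chi y e v - 1 - (y : ℂ) * Complex.I * ((v - 1 : ℝ) : ℂ)‖ ≤
      (8 * y ^ 2 + 2 * |y| + 8) * (v - 1) ^ 2 := by
  have hyn : ‖(y : ℂ) * Complex.I * ((v - 1 : ℝ) : ℂ)‖ = |y| * |v - 1| := by
    rw [norm_mul, norm_mul, Complex.norm_I, Complex.norm_real, Complex.norm_real]
    simp
  rcases lt_or_ge |v - 1| (1 / 2) with h | h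
  · have hv : 1 / 2 ≤ v := by
      have := neg_abs_le (v - 1); linarith
    have hv0 : 0 < v := by linarith
    have h1 : chi y e v = Complex.exp (((y * Real.log v : ℝ) : ℂ) * Complex.I) := by
      unfold chi; rw [sg_of_pos hv0]; simp
    rw [h1]
    have h2 : Complex.exp (((y * Real.log v : ℝ) : ℂ) * Complex.I) - 1 -
        (y : ℂ) * Complex.I * ((v - 1 : ℝ) : ℂ) =
        (Complex.exp (((y * Real.log v : ℝ) : ℂ) * Complex.I) - 1 -
          ((y * Real.log v : ℝ) : ℂ) * Complex.I) +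
        (y : ℂ) * Complex.I * ((Real.log v - (v - 1) : ℝ) : ℂ) := by
      push_cast; ring
    rw [h2]
    refine (norm_add_le _ _).trans ?_
    have h3 := norm_exp_I_sub_one_sub_le (y * Real.log v)
    have h4 : ‖(y : ℂ) * Complex.I * ((Real.log v - (v - 1) : ℝ) : ℂ)‖ =
        |y| * |Real.log v - (v - 1)| := by
      rw [norm_mul, norm_mul, Complex.norm_I, Complex.norm_real, Complex.norm_real]
      simp
    rw [h4]
    have h5 := abs_log_sub_le hv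
    have h6 := abs_log_le hv
    have h7 : Real.log v ^ 2 ≤ 4 * (v - 1) ^ 2 := by
      have := mul_self_le_mul_self (abs_nonneg _) h6
      rw [abs_mul_abs_self] at this
      have h8 : 2 * |v - 1| * (2 * |v - 1|) = 4 * (v - 1) ^ 2 := by
        rw [← sq_abs (v - 1)]; ring
      nlinarith
    have h9 : 2 * (y * Real.log v) ^ 2 ≤ 8 * y ^ 2 * (v - 1) ^ 2 := by
      have := mul_le_mul_of_nonneg_left h7 (sq_nonneg y)
      nlinarith
    have h10 : |y| * |Real.log v - (v - 1)| ≤ 2 * |y| * (v - 1) ^ 2 := by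
      have := mul_le_mul_of_nonneg_left h5 (abs_nonneg y)
      nlinarith
    nlinarith [sq_nonneg (v - 1)]
  · have h1 : ‖chi y e v - 1‖ ≤ 2 := by
      refine (norm_sub_le _ _).trans ?_
      rw [norm_chi]; norm_num
    refine (norm_sub_le _ _).trans ?_
    rw [hyn]
    have h2 : |v - 1| ^ 2 = (v - 1) ^ 2 := sq_abs _
    have h3 : |v - 1| ≤ 2 * (v - 1) ^ 2 := by rw [← h2]; nlinarith [abs_nonneg (v - 1)]
    have h4 : 2 ≤ 8 * (v - 1) ^ 2 := by rw [← h2]; nlinarith [abs_nonneg (v - 1)]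
    have h5 := mul_le_mul_of_nonneg_left h3 (abs_nonneg y)
    nlinarith [sq_nonneg (v - 1), sq_nonneg y, mul_nonneg (sq_nonneg y) (sq_nonneg (v - 1))]

theorem prod_sub_one_le {ι : Type*} (s : Finset ι) (u : ι → ℂ) (hu : ∀ j, ‖u j‖ ≤ 1) :
    ‖∏ j ∈ s, u j - 1‖ ≤ ∑ j ∈ s, ‖u j - 1‖ := by
  classical
  induction s using Finset.induction_on with
  | empty => simp
  | insert a s ha ih =>
    rw [Finset.prod_insert ha, Finset.sum_insert ha]
    have h1 : u a * ∏ j ∈ s, u j - 1 = (u a - 1) + u a * (∏ j ∈ s, u j - 1) := by ring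
    rw [h1]
    refine (norm_add_le _ _).trans ?_
    rw [norm_mul]
    have := mul_le_mul_of_nonneg_right (hu a) (norm_nonneg (∏ j ∈ s, u j - 1))
    linarith

theorem prod_sub_one_sub_le {ι : Type*} (s : Finset ι) (u : ι → ℂ) (hu : ∀ j, ‖u j‖ ≤ 1) :
    ‖∏ j ∈ s, u j - 1 - ∑ j ∈ s, (u j - 1)‖ ≤ (∑ j ∈ s, ‖u j - 1‖) ^ 2 := by
  classical
  induction s using Finset.induction_on with
  | empty => simp
  | insert a s ha ih =>
    rw [Finset.prod_insert ha, Finset.sum_insert ha, Finset.sum_insert ha]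
    have h1 : u a * ∏ j ∈ s, u j - 1 - (u a - 1 + ∑ j ∈ s, (u j - 1)) =
        (u a - 1) * (∏ j ∈ s, u j - 1) + (∏ j ∈ s, u j - 1 - ∑ j ∈ s, (u j - 1)) := by ring
    rw [h1]
    refine (norm_add_le _ _).trans ?_
    rw [norm_mul]
    have h2 := prod_sub_one_le s u hu
    have h3 := mul_le_mul_of_nonneg_left h2 (norm_nonneg (u a - 1))
    have h4 : 0 ≤ ∑ j ∈ s, ‖u j - 1‖ := Finset.sum_nonneg fun _ _ => norm_nonneg _
    nlinarith [norm_nonneg (u a - 1), mul_nonneg (norm_nonneg (u a - 1)) h4]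

variable {T : Type*} {ι : Type*} [Fintype ι]

/-- the sum of squares controlling the compensated test functional -/
noncomputable def sqs (τ : ι → T) (x₁ x₂ : T) (r : T → ℝ) : ℝ :=
  (∑ j, (r (τ j) - 1) ^ 2) + ((r x₁ - 1) ^ 2 + (r x₂ - 1) ^ 2)

theorem sqs_nonneg (τ : ι → T) (x₁ x₂ : T) (r : T → ℝ) : 0 ≤ sqs τ x₁ x₂ r := by
  unfold sqs
  have : 0 ≤ ∑ j, (r (τ j) - 1) ^ 2 := Finset.sum_nonneg fun _ _ => sq_nonneg _
  positivity

theorem tf_bound (τ : ι → T) (y : ι → ℝ) (e : ι → ℕ) (x₁ : T) {e₁ : ℕ} (he₁ : e₁ ≤ 1)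
    (x₂ : T) {e₂ : ℕ} (he₂ : e₂ ≤ 1) :
    ∃ C : ℝ, 0 ≤ C ∧ ∀ r : T → ℝ,
      ‖tf τ y e x₁ e₁ x₂ e₂ r - 1 - cp τ y x₁ e₁ x₂ e₂ r‖ ≤ C * sqs τ x₁ x₂ r := by
  set Y : ℝ := ∑ j, (8 * y j ^ 2 + 2 * |y j| + 8) with hY
  set Z : ℝ := ∑ j : ι, (2 * |y j| + 4) with hZ
  have hY0 : ∀ j, 0 ≤ 8 * y j ^ 2 + 2 * |y j| + 8 := fun j => by positivity
  have hZ0 : ∀ j, 0 ≤ 2 * |y j| + 4 := fun j => by positivity
  have hYj : ∀ j, 8 * y j ^ 2 + 2 * |y j| + 8 ≤ Y := fun j =>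
    Finset.single_le_sum (f := fun j => 8 * y j ^ 2 + 2 * |y j| + 8) (fun i _ => hY0 i)
      (Finset.mem_univ j)
  have hZj : ∀ j, 2 * |y j| + 4 ≤ Z := fun j =>
    Finset.single_le_sum (f := fun j => 2 * |y j| + 4) (fun i _ => hZ0 i) (Finset.mem_univ j)
  have hYn : 0 ≤ Y := Finset.sum_nonneg fun i _ => hY0 i
  have hZn : 0 ≤ Z := Finset.sum_nonneg fun i _ => hZ0 i
  refine ⟨Y + 2 * Z ^ 2 * Fintype.card ι + 2, by positivity, fun r => ?_⟩
  set u : ι → ℂ := fun j => chi (y j) (e j) (r (τ j)) with hu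
  have hun : ∀ j, ‖u j‖ ≤ 1 := fun j => (norm_chi _ _ _).le
  set a : ℂ := (r x₁ : ℂ) ^ e₁ with ha
  set b : ℂ := (r x₂ : ℂ) ^ e₂ with hb
  have ha' : a - 1 = (e₁ : ℂ) * ((r x₁ - 1 : ℝ) : ℂ) := by
    interval_cases e₁ <;> simp [ha]
  have hb' : b - 1 = (e₂ : ℂ) * ((r x₂ - 1 : ℝ) : ℂ) := by
    interval_cases e₂ <;> simp [hb]
  have han : ‖a - 1‖ ≤ |r x₁ - 1| := by
    rw [ha', norm_mul, Complex.norm_real, Real.norm_eq_abs]
    interval_cases e₁ <;> simp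
  have hbn : ‖b - 1‖ ≤ |r x₂ - 1| := by
    rw [hb', norm_mul, Complex.norm_real, Real.norm_eq_abs]
    interval_cases e₂ <;> simp
  have hdecomp : tf τ y e x₁ e₁ x₂ e₂ r - 1 - cp τ y x₁ e₁ x₂ e₂ r =
      (∏ j, u j - 1 - ∑ j, (u j - 1)) +
      (∑ j, (u j - 1 - (y j : ℂ) * Complex.I * ((r (τ j) - 1 : ℝ) : ℂ))) +
      ((∏ j, u j - 1) * ((a - 1) * (b - 1) + (a - 1) + (b - 1)) + (a - 1) * (b - 1)) := by
    have hs : ∑ j, (u j - 1 - (y j : ℂ) * Complex.I * ((r (τ j) - 1 : ℝ) : ℂ)) =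
        ∑ j, (u j - 1) - ∑ j, (y j : ℂ) * Complex.I * ((r (τ j) - 1 : ℝ) : ℂ) :=
      Finset.sum_sub_distrib _ _
    rw [hs]
    unfold tf cp
    rw [← ha', ← hb']
    change (∏ j, u j) * (a * b) - 1 - _ = _
    ring
  set B : ℝ := ∑ j, ‖u j - 1‖ with hB
  set Q : ℝ := ∑ j, (r (τ j) - 1) ^ 2 with hQ
  have hQn : 0 ≤ Q := Finset.sum_nonneg fun _ _ => sq_nonneg _
  have hBn : 0 ≤ B := Finset.sum_nonneg fun _ _ => norm_nonneg _
  have hBle : B ≤ Z * ∑ j, |r (τ j) - 1| := by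
    rw [hB, Finset.mul_sum]
    refine Finset.sum_le_sum fun j _ => ?_
    refine (chi_sub_one_le _ _ _).trans ?_
    exact mul_le_mul_of_nonneg_right (hZj j) (abs_nonneg _)
  have hBsq : B ^ 2 ≤ Z ^ 2 * Fintype.card ι * Q := by
    have h1 : (∑ j, |r (τ j) - 1|) ^ 2 ≤ Fintype.card ι * Q := by
      have := sq_sum_le_card_mul_sum_sq (s := (Finset.univ : Finset ι))
        (f := fun j => |r (τ j) - 1|)
      simpa [sq_abs, hQ] using this
    have h2 : B ^ 2 ≤ (Z * ∑ j, |r (τ j) - 1|) ^ 2 := pow_le_pow_left₀ hBn hBle 2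
    rw [mul_pow] at h2
    have := mul_le_mul_of_nonneg_left h1 (sq_nonneg Z)
    linarith
  have hP1 : ‖∏ j, u j - 1‖ ≤ B := prod_sub_one_le _ u hun
  have hP2 : ‖∏ j, u j - 1 - ∑ j, (u j - 1)‖ ≤ B ^ 2 := prod_sub_one_sub_le _ u hun
  have hP3 : ‖∑ j, (u j - 1 - (y j : ℂ) * Complex.I * ((r (τ j) - 1 : ℝ) : ℂ))‖ ≤ Y * Q := by
    refine (norm_sum_le _ _).trans ?_
    rw [hQ, Finset.mul_sum]
    refine Finset.sum_le_sum fun j _ => ?_
    refine (chi_sub_one_sub_le _ _ _).trans ?_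
    exact mul_le_mul_of_nonneg_right (hYj j) (sq_nonneg _)
  have hP4 : ‖∏ j, u j - 1‖ ≤ 2 := by
    refine (norm_sub_le _ _).trans ?_
    rw [norm_prod, norm_one]
    have : ∏ j, ‖u j‖ ≤ 1 := Finset.prod_le_one (fun _ _ => norm_nonneg _) (fun j _ => hun j)
    linarith
  rw [hdecomp]
  set A1 : ℝ := |r x₁ - 1| with hA1
  set B1 : ℝ := |r x₂ - 1| with hB1
  have hA1n : 0 ≤ A1 := abs_nonneg _
  have hB1n : 0 ≤ B1 := abs_nonneg _
  have hab : ‖(a - 1) * (b - 1)‖ ≤ A1 * B1 := by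
    rw [norm_mul]; exact mul_le_mul han hbn (norm_nonneg _) hA1n
  have hlast : ‖(∏ j, u j - 1) * ((a - 1) * (b - 1) + (a - 1) + (b - 1)) + (a - 1) * (b - 1)‖ ≤
      3 * (A1 * B1) + B * A1 + B * B1 := by
    have e1 : (∏ j, u j - 1) * ((a - 1) * (b - 1) + (a - 1) + (b - 1)) + (a - 1) * (b - 1) =
        (∏ j, u j - 1) * ((a - 1) * (b - 1)) + (∏ j, u j - 1) * (a - 1) +
        (∏ j, u j - 1) * (b - 1) + (a - 1) * (b - 1) := by ring
    rw [e1]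
    refine (norm_add_le _ _).trans ?_
    have e2 : ‖(∏ j, u j - 1) * ((a - 1) * (b - 1)) + (∏ j, u j - 1) * (a - 1) +
        (∏ j, u j - 1) * (b - 1)‖ ≤ 2 * (A1 * B1) + B * A1 + B * B1 := by
      refine (norm_add₃_le).trans ?_
      have f1 : ‖(∏ j, u j - 1) * ((a - 1) * (b - 1))‖ ≤ 2 * (A1 * B1) := by
        rw [norm_mul]; exact mul_le_mul hP4 hab (norm_nonneg _) two_pos.le
      have f2 : ‖(∏ j, u j - 1) * (a - 1)‖ ≤ B * A1 := by
        rw [norm_mul]; exact mul_le_mul hP1 han (norm_nonneg _) hBn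
      have f3 : ‖(∏ j, u j - 1) * (b - 1)‖ ≤ B * B1 := by
        rw [norm_mul]; exact mul_le_mul hP1 hbn (norm_nonneg _) hBn
      linarith
    linarith
  refine (norm_add₃_le).trans ?_
  have hA1s : A1 ^ 2 = (r x₁ - 1) ^ 2 := sq_abs _
  have hB1s : B1 ^ 2 = (r x₂ - 1) ^ 2 := sq_abs _
  unfold sqs
  rw [← hQ, ← hA1s, ← hB1s]
  have hk : 0 ≤ Z ^ 2 * Fintype.card ι := by positivity
  have g1 : B ^ 2 + Y * Q + (3 * (A1 * B1) + B * A1 + B * B1) ≤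
      Y * Q + 2 * B ^ 2 + 2 * (A1 ^ 2 + B1 ^ 2) := by
    nlinarith [sq_nonneg (A1 - B1), sq_nonneg (B - A1), sq_nonneg (B - B1)]
  have g2 : Y * Q + 2 * B ^ 2 + 2 * (A1 ^ 2 + B1 ^ 2) ≤
      (Y + 2 * Z ^ 2 * Fintype.card ι + 2) * (Q + (A1 ^ 2 + B1 ^ 2)) := by
    have g3 : 0 ≤ Y * (A1 ^ 2 + B1 ^ 2) := by positivity
    have g4 : 0 ≤ 2 * Z ^ 2 * Fintype.card ι * (A1 ^ 2 + B1 ^ 2) := by positivity
    nlinarith
  linarith

end Pool.Agent.Lib_helper33.QH
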