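import Mathlib

/-!
# Compound Poisson configurations on a cell of finite intensity
-/

set_option autoImplicit false

open MeasureTheory
open scoped ENNReal

namespace Pool.Agent.Lib_helper33.QH

variable {E : Type*} [MeasurableSpace E]

/-- finite configurations -/
abbrev Conf (E : Type*) := Σ n : ℕ, (Fin n → E)

/-- the injection of configurations with `n` points -/
def mkC (n : ℕ) (x : Fin n → E) : Conf E := ⟨n, x⟩

theorem measurable_mkC (n : ℕ) : Measurable (mkC n : (Fin n → E) → Conf E) := by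
  intro s hs
  exact (MeasurableSpace.measurableSet_iInf.mp hs) n

theorem measurable_conf {F : Type*} [MeasurableSpace F] {f : Conf E → F}
    (hf : ∀ n, Measurable (fun x : Fin n → E => f (mkC n x))) : Measurable f := by
  intro s hs
  refine MeasurableSpace.measurableSet_iInf.mpr fun n => ?_
  exact hf n hs

theorem measurable_conf_prod {F : Type*} [CommMonoid F] [MeasurableSpace F] [MeasurableMul₂ F]
    {g : E → F} (hg : Measurable g) : Measurable (fun ω : Conf E => ∏ i, g (ω.2 i)) := by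
  refine measurable_conf fun n => ?_
  change Measurable (fun x : Fin n → E => ∏ i, g (x i))
  exact Finset.measurable_prod _ fun i _ => hg.comp (measurable_pi_apply i)

/-- the Poisson law with (finite) intensity `Λ` -/
noncomputable def cellMeasure (Λ : Measure E) : Measure (Conf E) :=
  ENNReal.ofReal (Real.exp (-(Λ.real Set.univ))) •
    Measure.sum (fun n : ℕ => ENNReal.ofReal (((n.factorial : ℝ))⁻¹) •
      (Measure.pi (fun _ : Fin n => Λ)).map (mkC n))

variable {𝕜 : Type*} [RCLike 𝕜]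

theorem cell_piece_integrable (Λ : Measure E) [IsFiniteMeasure Λ] {g : E → 𝕜}
    (hm : Measurable g) (hg : Integrable g Λ) (n : ℕ) :
    Integrable (fun ω : Conf E => ∏ i, g (ω.2 i)) (ENNReal.ofReal (((n.factorial : ℝ))⁻¹) •
      (Measure.pi (fun _ : Fin n => Λ)).map (mkC n)) := by
  refine Integrable.smul_measure ?_ ENNReal.ofReal_ne_top
  rw [integrable_map_measure (measurable_conf_prod hm).aestronglyMeasurable
    (measurable_mkC n).aemeasurable]
  exact Integrable.fintype_prod (f := fun _ => g) (fun _ => hg)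

theorem cell_piece_integral (Λ : Measure E) [IsFiniteMeasure Λ] {g : E → 𝕜}
    (hm : Measurable g) (n : ℕ) :
    ∫ ω : Conf E, ∏ i, g (ω.2 i) ∂(ENNReal.ofReal (((n.factorial : ℝ))⁻¹) •
      (Measure.pi (fun _ : Fin n => Λ)).map (mkC n)) =
      ((n.factorial : 𝕜))⁻¹ * (∫ x, g x ∂Λ) ^ n := by
  rw [integral_smul_measure, integral_map (measurable_mkC n).aemeasurable
    (measurable_conf_prod hm).aestronglyMeasurable]
  change (ENNReal.ofReal (((n.factorial : ℝ))⁻¹)).toReal •
    ∫ x : Fin n → E, ∏ i, g (x i) ∂(Measure.pi (fun _ : Fin n => Λ)) = _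
  rw [integral_fintype_prod_eq_pow, Fintype.card_fin, ENNReal.toReal_ofReal (by positivity),
    RCLike.real_smul_eq_coe_mul]
  congr 1
  simp

theorem cell_integrable_aux (Λ : Measure E) [IsFiniteMeasure Λ] {g : E → 𝕜}
    (hm : Measurable g) (hg : Integrable g Λ) :
    Integrable (fun ω : Conf E => ∏ i, g (ω.2 i))
    (Measure.sum (fun n : ℕ => ENNReal.ofReal (((n.factorial : ℝ))⁻¹) •
      (Measure.pi (fun _ : Fin n => Λ)).map (mkC n))) := by
  refine integrable_sum_measure (fun n => cell_piece_integrable Λ hm hg n) ?_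
  have h1 : ∀ n : ℕ, ∫ ω : Conf E, ‖∏ i, g (ω.2 i)‖ ∂(ENNReal.ofReal (((n.factorial : ℝ))⁻¹) •
      (Measure.pi (fun _ : Fin n => Λ)).map (mkC n)) =
      ((n.factorial : ℝ))⁻¹ * (∫ x, ‖g x‖ ∂Λ) ^ n := by
    intro n
    have := cell_piece_integral Λ (𝕜 := ℝ) (g := fun x => ‖g x‖) hm.norm n
    rw [← this]
    congr 1
    ext ω
    rw [norm_prod]
  simp_rw [h1]
  have := Real.summable_pow_div_factorial (∫ x, ‖g x‖ ∂Λ)
  refine this.congr fun n => ?_
  rw [div_eq_inv_mul]

theorem cell_integrable (Λ : Measure E) [IsFiniteMeasure Λ] {g : E → 𝕜}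
    (hm : Measurable g) (hg : Integrable g Λ) :
    Integrable (fun ω : Conf E => ∏ i, g (ω.2 i)) (cellMeasure Λ) :=
  (cell_integrable_aux Λ hm hg).smul_measure ENNReal.ofReal_ne_top

theorem cell_integral_real (Λ : Measure E) [IsFiniteMeasure Λ] {g : E → ℝ}
    (hm : Measurable g) (hg : Integrable g Λ) :
    ∫ ω : Conf E, ∏ i, g (ω.2 i) ∂(cellMeasure Λ) = Real.exp (∫ x, (g x - 1) ∂Λ) := by
  rw [cellMeasure, integral_smul_measure, integral_sum_measure (cell_integrable_aux Λ hm hg)]
  simp_rw [cell_piece_integral Λ hm]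
  rw [ENNReal.toReal_ofReal (Real.exp_pos _).le]
  have h2 : ∑' n : ℕ, ((n.factorial : ℝ))⁻¹ * (∫ x, g x ∂Λ) ^ n = Real.exp (∫ x, g x ∂Λ) := by
    rw [Real.exp_eq_exp_ℝ, NormedSpace.exp_eq_tsum_div]
    exact tsum_congr fun n => by rw [div_eq_inv_mul]
  have h3 : (∑' n : ℕ, ((n.factorial : ℝ))⁻¹ * (∫ x, g x ∂Λ) ^ n : ℝ) = Real.exp (∫ x, g x ∂Λ) := h2
  simp only [smul_eq_mul]
  erw [h3]
  rw [← Real.exp_add, integral_sub hg (integrable_const _)]
  simp [sub_eq_neg_add]

theorem cell_integral_complex (Λ : Measure E) [IsFiniteMeasure Λ] {g : E → ℂ}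
    (hm : Measurable g) (hg : Integrable g Λ) :
    ∫ ω : Conf E, ∏ i, g (ω.2 i) ∂(cellMeasure Λ) = Complex.exp (∫ x, (g x - 1) ∂Λ) := by
  rw [cellMeasure, integral_smul_measure, integral_sum_measure (cell_integrable_aux Λ hm hg)]
  simp_rw [cell_piece_integral Λ hm]
  rw [ENNReal.toReal_ofReal (Real.exp_pos _).le]
  have h2 : ∑' n : ℕ, ((n.factorial : ℂ))⁻¹ * (∫ x, g x ∂Λ) ^ n = Complex.exp (∫ x, g x ∂Λ) := by
    rw [Complex.exp_eq_exp_ℂ, NormedSpace.exp_eq_tsum_div]
    exact tsum_congr fun n => by rw [div_eq_inv_mul]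
  erw [h2]
  rw [integral_sub hg (integrable_const _), Complex.real_smul, Complex.ofReal_exp,
    ← Complex.exp_add]
  congr 1
  simp [sub_eq_neg_add]

instance cell_prob (Λ : Measure E) [IsFiniteMeasure Λ] : IsProbabilityMeasure (cellMeasure Λ) := by
  have h1 := cell_integral_real Λ (g := fun _ => (1 : ℝ)) measurable_const (integrable_const _)
  have h2 := cell_integrable Λ (g := fun _ => (1 : ℝ)) measurable_const (integrable_const _)
  simp only [Finset.prod_const_one, sub_self, integral_zero, Real.exp_zero] at h1 h2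
  have h3 : IsFiniteMeasure (cellMeasure Λ) := by
    rw [integrable_const_iff] at h2
    rcases h2 with h2 | h2
    · norm_num at h2
    · exact h2
  rw [integral_const] at h1
  simp only [smul_eq_mul, mul_one] at h1
  constructor
  rw [Measure.real] at h1
  rw [← ENNReal.toReal_eq_one_iff]
  exact h1

/-- almost surely all the points lie in any set of full measure -/
theorem cell_ae (Λ : Measure E) [IsFiniteMeasure Λ] {s : Set E} (hs : MeasurableSet s)
    (hΛ : ∀ᵐ x ∂Λ, x ∈ s) : ∀ᵐ ω ∂(cellMeasure Λ), ∀ i, ω.2 i ∈ s := by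
  classical
  have hm : Measurable (fun x : E => (s.indicator (fun _ => (1 : ℝ)) x)) :=
    measurable_const.indicator hs
  have hg : Integrable (fun x : E => (s.indicator (fun _ => (1 : ℝ)) x)) Λ :=
    (integrable_const _).indicator hs
  have h1 := cell_integral_real Λ hm hg
  have h2 := cell_integrable Λ hm hg
  have h3 : ∫ x, (s.indicator (fun _ => (1 : ℝ)) x - 1) ∂Λ = 0 := by
    rw [integral_eq_zero_of_ae]
    filter_upwards [hΛ] with x hx
    simp [hx]
  rw [h3, Real.exp_zero] at h1
  have h4 : ∀ ω : Conf E, 0 ≤ 1 - ∏ i, (s.indicator (fun _ => (1 : ℝ)) (ω.2 i)) := by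
    intro ω
    rw [sub_nonneg]
    refine Finset.prod_le_one (fun i _ => ?_) (fun i _ => ?_)
    · exact Set.indicator_nonneg (fun _ _ => zero_le_one) _
    · exact Set.indicator_le' (fun _ _ => le_refl _) (fun _ _ => zero_le_one) _
  have h5 : ∫ ω : Conf E, (1 - ∏ i, (s.indicator (fun _ => (1 : ℝ)) (ω.2 i))) ∂(cellMeasure Λ) =
      0 := by
    rw [integral_sub (integrable_const _) h2, h1]
    simp
  rw [integral_eq_zero_iff_of_nonneg h4 ((integrable_const _).sub h2)] at h5
  filter_upwards [h5] with ω hω i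
  by_contra hcon
  have h6 : ∏ i, (s.indicator (fun _ => (1 : ℝ)) (ω.2 i)) = 0 :=
    Finset.prod_eq_zero (Finset.mem_univ i) (by simp [hcon])
  simp only [Pi.zero_apply] at hω
  rw [h6] at hω
  norm_num at hω

end Pool.Agent.Lib_helper33.QH
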