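import Mathlib
import Pool.Agent.Lib_helper33.QH.Bound
import Pool.Agent.Lib_helper33.QH.Cell

/-!
# The master formula on one cell
-/

set_option autoImplicit false

open MeasureTheory Filter Topology

namespace Pool.Agent.Lib_helper33.QH

variable {E : Type*} [MeasurableSpace E] {T : Type*}

/-- hypotheses on the weights -/
structure Wts (Λ : Measure E) (w : T → E → ℝ) : Prop where
  meas : ∀ t, Measurable (w t)
  ne : ∀ t x, w t x ≠ 0
  sq : ∀ t, Integrable (fun x => (w t x - 1) ^ 2) Λ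

/-- the compensated product over the points of a configuration -/
noncomputable def rho (A : Measure E) (f : E → ℝ) (ω : Conf E) : ℝ :=
  Real.exp (-∫ x, (f x - 1) ∂A) * ∏ i, f (ω.2 i)

theorem rho_ne {A : Measure E} {f : E → ℝ} (hf : ∀ x, f x ≠ 0) (ω : Conf E) : rho A f ω ≠ 0 :=
  mul_ne_zero (Real.exp_ne_zero _) (Finset.prod_ne_zero_iff.mpr fun _ _ => hf _)

theorem measurable_rho {A : Measure E} {f : E → ℝ} (hf : Measurable f) : Measurable (rho A f) :=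
  (measurable_conf_prod hf).const_mul _

namespace Wts

variable {Λ : Measure E} {w : T → E → ℝ}

theorem mono (h : Wts Λ w) {Λ' : Measure E} (hle : Λ' ≤ Λ) : Wts Λ' w :=
  ⟨h.meas, h.ne, fun t => (h.sq t).mono_measure hle⟩

theorem memLp (h : Wts Λ w) (t : T) : MemLp (fun x => w t x - 1) 2 Λ :=
  (memLp_two_iff_integrable_sq ((h.meas t).sub_const 1).aestronglyMeasurable).mpr (h.sq t)

theorem integrable_sub (h : Wts Λ w) [IsFiniteMeasure Λ] (t : T) :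
    Integrable (fun x => w t x - 1) Λ := (h.memLp t).integrable one_le_two

theorem integrable (h : Wts Λ w) [IsFiniteMeasure Λ] (t : T) :
    Integrable (fun x => w t x) Λ := by
  have := (h.integrable_sub t).add (integrable_const (1 : ℝ))
  refine this.congr (ae_of_all _ fun x => ?_)
  simp

theorem integrable_sqs (h : Wts Λ w) {ι : Type*} [Fintype ι] (τ : ι → T) (x₁ x₂ : T) :
    Integrable (fun x => sqs τ x₁ x₂ (fun t => w t x)) Λ := by
  unfold sqs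
  exact (integrable_finsetSum _ fun j _ => h.sq (τ j)).add ((h.sq x₁).add (h.sq x₂))

theorem integrable_K (h : Wts Λ w) {ι : Type*} [Fintype ι] (τ : ι → T) (y : ι → ℝ) (e : ι → ℕ)
    (x₁ : T) {e₁ : ℕ} (he₁ : e₁ ≤ 1) (x₂ : T) {e₂ : ℕ} (he₂ : e₂ ≤ 1) :
    Integrable (fun x => tf τ y e x₁ e₁ x₂ e₂ (fun t => w t x) - 1 -
      cp τ y x₁ e₁ x₂ e₂ (fun t => w t x)) Λ := by
  obtain ⟨C, hC, hb⟩ := tf_bound τ y e x₁ he₁ x₂ he₂
  refine Integrable.mono' ((h.integrable_sqs τ x₁ x₂).const_mul C) ?_ ?_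
  · exact (((measurable_tf τ y e x₁ e₁ x₂ e₂ h.meas).sub_const 1).sub
      (measurable_cp τ y x₁ e₁ x₂ e₂ h.meas)).aestronglyMeasurable
  · exact ae_of_all _ fun x => hb _

theorem integrable_cp (h : Wts Λ w) [IsFiniteMeasure Λ] {ι : Type*} [Fintype ι] (τ : ι → T)
    (y : ι → ℝ) (x₁ : T) (e₁ : ℕ) (x₂ : T) (e₂ : ℕ) :
    Integrable (fun x => cp τ y x₁ e₁ x₂ e₂ (fun t => w t x)) Λ := by
  unfold cp
  refine (integrable_finsetSum _ fun j _ => ?_).add (Integrable.add ?_ ?_)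
  · exact (h.integrable_sub (τ j)).ofReal.const_mul _
  · exact (h.integrable_sub x₁).ofReal.const_mul _
  · exact (h.integrable_sub x₂).ofReal.const_mul _

theorem integral_cp (h : Wts Λ w) [IsFiniteMeasure Λ] {ι : Type*} [Fintype ι] (τ : ι → T)
    (y : ι → ℝ) (x₁ : T) (e₁ : ℕ) (x₂ : T) (e₂ : ℕ) :
    ∫ x, cp τ y x₁ e₁ x₂ e₂ (fun t => w t x) ∂Λ =
      (∑ j, (y j : ℂ) * Complex.I * ((∫ x, (w (τ j) x - 1) ∂Λ : ℝ) : ℂ)) +
        ((e₁ : ℂ) * ((∫ x, (w x₁ x - 1) ∂Λ : ℝ) : ℂ) +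
          (e₂ : ℂ) * ((∫ x, (w x₂ x - 1) ∂Λ : ℝ) : ℂ)) := by
  unfold cp
  have i1 : ∀ (t : T) (c : ℂ), Integrable (fun x => c * ((w t x - 1 : ℝ) : ℂ)) Λ := fun t c =>
    (h.integrable_sub t).ofReal.const_mul _
  have i2 : ∀ (t : T) (c : ℂ), ∫ x, c * ((w t x - 1 : ℝ) : ℂ) ∂Λ =
      c * ((∫ x, (w t x - 1) ∂Λ : ℝ) : ℂ) := fun t c => by
    rw [integral_const_mul]
    congr 1
    exact integral_ofReal
  have i3 : Integrable (fun x => ∑ j, (y j : ℂ) * Complex.I * ((w (τ j) x - 1 : ℝ) : ℂ)) Λ :=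
    integrable_finsetSum _ fun j _ => i1 _ _
  have i4 : Integrable (fun x => (e₁ : ℂ) * ((w x₁ x - 1 : ℝ) : ℂ) +
      (e₂ : ℂ) * ((w x₂ x - 1 : ℝ) : ℂ)) Λ := (i1 _ _).add (i1 _ _)
  rw [integral_add i3 i4, integral_add (i1 _ _) (i1 _ _),
    integral_finsetSum _ fun j _ => i1 _ _]
  simp_rw [i2]

theorem integrable_tf (h : Wts Λ w) [IsFiniteMeasure Λ] {ι : Type*} [Fintype ι] (τ : ι → T)
    (y : ι → ℝ) (e : ι → ℕ) (x₁ : T) {e₁ : ℕ} (he₁ : e₁ ≤ 1) (x₂ : T) {e₂ : ℕ} (he₂ : e₂ ≤ 1) :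
    Integrable (fun x => tf τ y e x₁ e₁ x₂ e₂ (fun t => w t x)) Λ := by
  have h1 := ((h.integrable_K τ y e x₁ he₁ x₂ he₂).add (h.integrable_cp τ y x₁ e₁ x₂ e₂)).add
    (integrable_const (1 : ℂ))
  refine h1.congr (ae_of_all _ fun x => ?_)
  simp only [Pi.add_apply]
  ring

end Wts

theorem tf_rho (A : Measure E) {w : T → E → ℝ} (hne : ∀ t x, w t x ≠ 0)
    {ι : Type*} [Fintype ι] (τ : ι → T)
    (y : ι → ℝ) (e : ι → ℕ) (x₁ : T) (e₁ : ℕ) (x₂ : T) (e₂ : ℕ) (ω : Conf E) :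
    tf τ y e x₁ e₁ x₂ e₂ (fun t => rho A (w t) ω) =
      tf τ y e x₁ e₁ x₂ e₂ (fun t => Real.exp (-∫ x, (w t x - 1) ∂A)) *
        ∏ i, tf τ y e x₁ e₁ x₂ e₂ (fun t => w t (ω.2 i)) := by
  unfold rho
  rw [tf_mul _ _ _ _ _ _ _ (fun t => Real.exp_ne_zero _)
    (fun t => Finset.prod_ne_zero_iff.mpr fun i _ => hne _ _)]
  rw [tf_prod _ _ _ _ _ _ _ _ _ (fun k t => hne _ _)]

theorem cell_mf {A : Measure E} [IsFiniteMeasure A] {w : T → E → ℝ} (h : Wts A w)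
    {ι : Type*} [Fintype ι] (τ : ι → T)
    (y : ι → ℝ) (e : ι → ℕ) (x₁ : T) {e₁ : ℕ} (he₁ : e₁ ≤ 1) (x₂ : T) {e₂ : ℕ} (he₂ : e₂ ≤ 1) :
    Integrable (fun ω => tf τ y e x₁ e₁ x₂ e₂ (fun t => rho A (w t) ω)) (cellMeasure A) ∧
    ∫ ω, tf τ y e x₁ e₁ x₂ e₂ (fun t => rho A (w t) ω) ∂(cellMeasure A) =
      Complex.exp (∫ x, (tf τ y e x₁ e₁ x₂ e₂ (fun t => w t x) - 1 -
        cp τ y x₁ e₁ x₂ e₂ (fun t => w t x)) ∂A) := by
  simp_rw [tf_rho A h.ne τ y e x₁ e₁ x₂ e₂]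
  have hm := measurable_tf τ y e x₁ e₁ x₂ e₂ h.meas
  have hi := h.integrable_tf τ y e x₁ he₁ x₂ he₂
  refine ⟨(cell_integrable A hm hi).const_mul _, ?_⟩
  rw [integral_const_mul, cell_integral_complex A hm hi, tf_exp, ← Complex.exp_add]
  congr 1
  have hi1 : Integrable (fun x => tf τ y e x₁ e₁ x₂ e₂ (fun t => w t x) - 1) A :=
    hi.sub (integrable_const _)
  rw [integral_sub hi1 (h.integrable_cp τ y x₁ e₁ x₂ e₂), h.integral_cp]
  push_cast
  simp only [mul_neg, Finset.sum_neg_distrib]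
  ring

/-- second moments on one cell -/
theorem cell_sq {A : Measure E} [IsFiniteMeasure A] {w : T → E → ℝ} (h : Wts A w) (t : T) :
    Integrable (fun ω => rho A (w t) ω ^ 2) (cellMeasure A) ∧
    Integrable (fun ω => rho A (w t) ω) (cellMeasure A) ∧
    ∫ ω, rho A (w t) ω ∂(cellMeasure A) = 1 ∧
    ∫ ω, rho A (w t) ω ^ 2 ∂(cellMeasure A) = Real.exp (∫ x, (w t x - 1) ^ 2 ∂A) := by
  have i0 : Integrable (fun x => w t x) A := h.integrable t
  have i1 : Integrable (fun x => w t x ^ 2) A := by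
    have := ((h.sq t).add ((h.integrable_sub t).const_mul 2)).add (integrable_const (1 : ℝ))
    refine this.congr (ae_of_all _ fun x => ?_)
    simp only [Pi.add_apply]
    ring
  have e1 : ∀ ω : Conf E, rho A (w t) ω ^ 2 =
      Real.exp (-∫ x, (w t x - 1) ∂A) ^ 2 * ∏ i, (w t (ω.2 i)) ^ 2 := by
    intro ω
    rw [rho, mul_pow, Finset.prod_pow]
  refine ⟨?_, ?_, ?_, ?_⟩
  · simp_rw [e1]
    exact (cell_integrable A ((h.meas t).pow_const 2) i1).const_mul _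
  · exact (cell_integrable A (h.meas t) i0).const_mul _
  · unfold rho
    rw [integral_const_mul, cell_integral_real A (h.meas t) i0, ← Real.exp_add]
    simp
  · simp_rw [e1]
    rw [integral_const_mul, cell_integral_real A ((h.meas t).pow_const 2) i1, ← Real.exp_nat_mul,
      ← Real.exp_add]
    congr 1
    have e2 : ∀ x, w t x ^ 2 - 1 = (w t x - 1) ^ 2 + 2 * (w t x - 1) := fun x => by ring
    simp_rw [e2]
    rw [integral_add (h.sq t) ((h.integrable_sub t).const_mul 2), integral_const_mul]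
    push_cast
    ring

end Pool.Agent.Lib_helper33.QH
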