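import Mathlib

/-!
# A dominated a.e. limit for sequences with geometrically small increments in `L²`
-/

set_option autoImplicit false

open MeasureTheory Filter Topology
open scoped ENNReal

namespace Pool.Agent.Lib_helper33.QH

variable {Ω : Type*} [MeasurableSpace Ω] {P : Measure Ω}

theorem exists_dominating (S : ℕ → Ω → ℝ) (hS : ∀ k, Measurable (S k))
    (h0 : Integrable (fun ω => S 0 ω ^ 2) P) (C : ℝ)
    (hd : ∀ k, ∫⁻ ω, ENNReal.ofReal ((S (k + 1) ω - S k ω) ^ 2) ∂P ≤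
      ENNReal.ofReal (C * (1 / 16) ^ k)) :
    ∃ M : Ω → ℝ, Measurable M ∧ (∀ ω, 0 ≤ M ω) ∧ Integrable (fun ω => M ω ^ 2) P ∧
      (∀ᵐ ω ∂P, ∀ k, |S k ω| ≤ M ω) ∧
      (∀ᵐ ω ∂P, ∃ l, Tendsto (fun k => S k ω) atTop (𝓝 l)) := by
  set T : Ω → ℝ≥0∞ := fun ω => ∑' k, ENNReal.ofReal (4 ^ k * (S (k + 1) ω - S k ω) ^ 2) with hT
  have hTm : Measurable T := by
    refine Measurable.tsum fun k => ?_
    exact (((hS (k + 1)).sub (hS k)).pow_const 2 |>.const_mul _).ennreal_ofReal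
  have hmk : ∀ k, AEMeasurable
      (fun ω => ENNReal.ofReal (4 ^ k * (S (k + 1) ω - S k ω) ^ 2)) P := fun k =>
    ((((hS (k + 1)).sub (hS k)).pow_const 2).const_mul _).ennreal_ofReal.aemeasurable
  have hTint : ∫⁻ ω, T ω ∂P ≠ ∞ := by
    change ∫⁻ ω, ∑' k, ENNReal.ofReal (4 ^ k * (S (k + 1) ω - S k ω) ^ 2) ∂P ≠ ∞
    rw [lintegral_tsum hmk]
    have h1 : ∀ k, ∫⁻ ω, ENNReal.ofReal (4 ^ k * (S (k + 1) ω - S k ω) ^ 2) ∂P ≤
        ENNReal.ofReal (|C| * (1 / 4) ^ k) := by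
      intro k
      have h2 : ∀ ω, ENNReal.ofReal (4 ^ k * (S (k + 1) ω - S k ω) ^ 2) =
          ENNReal.ofReal (4 ^ k) * ENNReal.ofReal ((S (k + 1) ω - S k ω) ^ 2) := fun ω =>
        ENNReal.ofReal_mul (by positivity)
      simp_rw [h2]
      have h2m : Measurable (fun ω => ENNReal.ofReal ((S (k + 1) ω - S k ω) ^ 2)) :=
        (((hS (k + 1)).sub (hS k)).pow_const 2).ennreal_ofReal
      rw [lintegral_const_mul _ h2m]
      calc _ ≤ ENNReal.ofReal (4 ^ k) * ENNReal.ofReal (C * (1 / 16) ^ k) := by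
            gcongr; exact hd k
        _ = ENNReal.ofReal (4 ^ k * (C * (1 / 16) ^ k)) := by
            rw [← ENNReal.ofReal_mul (by positivity)]
        _ ≤ ENNReal.ofReal (|C| * (1 / 4) ^ k) := by
            apply ENNReal.ofReal_le_ofReal
            have : (4 : ℝ) ^ k * (C * (1 / 16) ^ k) = C * (1 / 4) ^ k := by
              rw [show (1 / 16 : ℝ) = (1 / 4) * (1 / 4) by norm_num, mul_pow]
              have : (4 : ℝ) ^ k * (1 / 4) ^ k = 1 := by
                rw [← mul_pow]; norm_num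
              linear_combination C * (1 / 4) ^ k * this
            rw [this]
            gcongr
            exact le_abs_self C
    refine ne_top_of_le_ne_top ?_ (ENNReal.tsum_le_tsum h1)
    rw [← ENNReal.ofReal_tsum_of_nonneg (fun k => by positivity)
      ((summable_geometric_of_lt_one (by norm_num) (by norm_num)).mul_left _)]
    exact ENNReal.ofReal_ne_top
  have hTfin : ∀ᵐ ω ∂P, T ω < ∞ := ae_lt_top hTm hTint
  set τ : Ω → ℝ := fun ω => (T ω).toReal with hτ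
  have hτint : Integrable τ P := integrable_toReal_of_lintegral_ne_top hTm.aemeasurable hTint
  have hτm : Measurable τ := hTm.ennreal_toReal
  have hτ0 : ∀ ω, 0 ≤ τ ω := fun ω => ENNReal.toReal_nonneg
  have hstep : ∀ ω, T ω < ∞ → ∀ k, |S (k + 1) ω - S k ω| ≤ Real.sqrt (τ ω) * (1 / 2) ^ k := by
    intro ω hω k
    have h3 : ENNReal.ofReal (4 ^ k * (S (k + 1) ω - S k ω) ^ 2) ≤ T ω := ENNReal.le_tsum k
    have h4 : 4 ^ k * (S (k + 1) ω - S k ω) ^ 2 ≤ τ ω := by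
      rw [ENNReal.ofReal_le_iff_le_toReal hω.ne] at h3
      exact h3
    have h5 : (S (k + 1) ω - S k ω) ^ 2 ≤ (Real.sqrt (τ ω) * (1 / 2) ^ k) ^ 2 := by
      rw [mul_pow, Real.sq_sqrt (hτ0 ω), ← pow_mul, mul_comm k 2, pow_mul]
      have h6 : (4 : ℝ) ^ k * ((1 / 2) ^ 2) ^ k = 1 := by
        rw [← mul_pow]; norm_num
      have h7 : (0 : ℝ) ≤ ((1 / 2) ^ 2) ^ k := by positivity
      calc (S (k + 1) ω - S k ω) ^ 2 = (4 ^ k * ((1 / 2) ^ 2) ^ k) * (S (k + 1) ω - S k ω) ^ 2 := by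
            rw [h6, one_mul]
        _ = (4 ^ k * (S (k + 1) ω - S k ω) ^ 2) * ((1 / 2) ^ 2) ^ k := by ring
        _ ≤ τ ω * ((1 / 2) ^ 2) ^ k := by gcongr
    exact abs_le_of_sq_le_sq h5 (by positivity)
  have hbd : ∀ ω, T ω < ∞ → ∀ k, |S k ω| ≤ |S 0 ω| + Real.sqrt (τ ω) * (2 - 2 * (1 / 2) ^ k) := by
    intro ω hω k
    induction k with
    | zero => simp
    | succ k ih =>
      have h8 := hstep ω hω k
      have h9 : |S (k + 1) ω| ≤ |S (k + 1) ω - S k ω| + |S k ω| := by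
        have := abs_add_le (S (k + 1) ω - S k ω) (S k ω)
        simpa using this
      calc |S (k + 1) ω| ≤ |S (k + 1) ω - S k ω| + |S k ω| := h9
        _ ≤ Real.sqrt (τ ω) * (1 / 2) ^ k +
            (|S 0 ω| + Real.sqrt (τ ω) * (2 - 2 * (1 / 2) ^ k)) := by linarith
        _ = |S 0 ω| + Real.sqrt (τ ω) * (2 - 2 * (1 / 2) ^ (k + 1)) := by ring
  refine ⟨fun ω => |S 0 ω| + 2 * Real.sqrt (τ ω), ?_, ?_, ?_, ?_, ?_⟩
  · exact (hS 0).abs.add (hτm.sqrt.const_mul 2)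
  · intro ω; positivity
  · refine Integrable.mono' ((h0.const_mul 2).add (hτint.const_mul 8)) ?_ ?_
    · exact (((hS 0).abs.add (hτm.sqrt.const_mul 2)).pow_const 2).aestronglyMeasurable
    · refine ae_of_all _ fun ω => ?_
      rw [Real.norm_of_nonneg (by positivity)]
      have h10 : Real.sqrt (τ ω) ^ 2 = τ ω := Real.sq_sqrt (hτ0 ω)
      have h11 : |S 0 ω| ^ 2 = S 0 ω ^ 2 := sq_abs _
      simp only [Pi.add_apply]
      nlinarith [sq_nonneg (|S 0 ω| - 2 * Real.sqrt (τ ω))]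
  · filter_upwards [hTfin] with ω hω k
    refine (hbd ω hω k).trans ?_
    have : (0 : ℝ) ≤ (1 / 2) ^ k := by positivity
    have h12 := Real.sqrt_nonneg (τ ω)
    nlinarith [mul_nonneg h12 this]
  · filter_upwards [hTfin] with ω hω
    have hc : CauchySeq (fun k => S k ω) := by
      refine cauchySeq_of_le_geometric (1 / 2) (Real.sqrt (τ ω)) (by norm_num) fun k => ?_
      rw [Real.dist_eq, abs_sub_comm]
      exact hstep ω hω k
    exact cauchySeq_tendsto_of_complete hc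

end Pool.Agent.Lib_helper33.QH
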