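import Mathlib
import Pool.Agent.Lib_helper33.QH.CellMF
import Pool.Agent.Lib_helper33.QH.Limit

/-!
# The compensated multiplicative Poisson functional and its master formula
-/

set_option autoImplicit false

open MeasureTheory Filter Topology ProbabilityTheory
open scoped ENNReal

namespace Pool.Agent.Lib_helper33.QH

variable {E : Type*} [MeasurableSpace E] {T : Type*}

/-- a cell decomposition adapted to the weights -/
structure Cells (Λ : Measure E) (w : T → E → ℝ) (D : ℕ → Set E) : Prop where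
  wts : Wts Λ w
  meas : ∀ k, MeasurableSet (D k)
  fin : ∀ k, Λ (D k) ≠ ∞
  disj : Pairwise (Function.onFun Disjoint D)
  cover : ∀ᵐ x ∂Λ, x ∈ ⋃ k, D k
  geo : ∀ t, ∃ C : ℝ, 0 ≤ C ∧ ∀ k, ∫ x in D k, (w t x - 1) ^ 2 ∂Λ ≤ C * (1 / 16) ^ k
  small : ∀ t, ∃ k₀ : ℕ, ∀ k ≥ k₀, ∀ x ∈ D k, 1 / 2 ≤ w t x

variable {Λ : Measure E} {w : T → E → ℝ} {D : ℕ → Set E}

namespace Cells

theorem finite_restrict (h : Cells Λ w D) (k : ℕ) : IsFiniteMeasure (Λ.restrict (D k)) :=
  ⟨by rw [Measure.restrict_apply_univ]; exact lt_top_iff_ne_top.mpr (h.fin k)⟩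

theorem wts_restrict (h : Cells Λ w D) (k : ℕ) : Wts (Λ.restrict (D k)) w :=
  h.wts.mono Measure.restrict_le_self

end Cells

/-- the probability on the sequences of configurations -/
noncomputable def seqMeasure (Λ : Measure E) (D : ℕ → Set E) (h : ∀ k, Λ (D k) ≠ ∞) :
    Measure (ℕ → Conf E) :=
  haveI : ∀ k, IsFiniteMeasure (Λ.restrict (D k)) := fun k =>
    ⟨by rw [Measure.restrict_apply_univ]; exact lt_top_iff_ne_top.mpr (h k)⟩
  Measure.infinitePi (fun k => cellMeasure (Λ.restrict (D k)))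

instance (Λ : Measure E) (D : ℕ → Set E) (h : ∀ k, Λ (D k) ≠ ∞) :
    IsProbabilityMeasure (seqMeasure Λ D h) := by
  unfold seqMeasure
  have : ∀ k, IsFiniteMeasure (Λ.restrict (D k)) := fun k =>
    ⟨by rw [Measure.restrict_apply_univ]; exact lt_top_iff_ne_top.mpr (h k)⟩
  infer_instance

/-- partial products -/
noncomputable def Rn (Λ : Measure E) (w : T → E → ℝ) (D : ℕ → Set E) (k : ℕ) (t : T)
    (ω : ℕ → Conf E) : ℝ :=
  ∏ c ∈ Finset.range k, rho (Λ.restrict (D c)) (w t) (ω c)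

/-- the limit -/
noncomputable def RR (Λ : Measure E) (w : T → E → ℝ) (D : ℕ → Set E) (t : T)
    (ω : ℕ → Conf E) : ℝ :=
  limUnder atTop (fun k => Rn Λ w D k t ω)

theorem measurable_Rn (hw : ∀ t, Measurable (w t)) (k : ℕ) (t : T) :
    Measurable (Rn Λ w D k t) := by
  unfold Rn
  exact Finset.measurable_prod _ fun c _ => (measurable_rho (hw t)).comp (measurable_pi_apply c)

theorem measurable_RR (hw : ∀ t, Measurable (w t)) (t : T) :
    Measurable (RR Λ w D t) :=
  (StronglyMeasurable.limUnder fun k => (measurable_Rn hw k t).stronglyMeasurable).measurable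

theorem Rn_ne (hne : ∀ t x, w t x ≠ 0) (k : ℕ) (t : T) (ω : ℕ → Conf E) :
    Rn Λ w D k t ω ≠ 0 :=
  Finset.prod_ne_zero_iff.mpr fun _ _ => rho_ne (hne t) _

section indep

variable (h : ∀ k, Λ (D k) ≠ ∞)

theorem indep_seq {𝓧 : ℕ → Type*} [∀ k, MeasurableSpace (𝓧 k)] {f : (k : ℕ) → Conf E → 𝓧 k}
    (hf : ∀ k, Measurable (f k)) :
    iIndepFun (fun k ω => f k (ω k)) (seqMeasure Λ D h) := by
  unfold seqMeasure
  have : ∀ k, IsFiniteMeasure (Λ.restrict (D k)) := fun k =>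
    ⟨by rw [Measure.restrict_apply_univ]; exact lt_top_iff_ne_top.mpr (h k)⟩
  exact iIndepFun_infinitePi hf

theorem integral_eval {F : Type*} [NormedAddCommGroup F] [NormedSpace ℝ F] (k : ℕ)
    {f : Conf E → F} (hf : AEStronglyMeasurable f (cellMeasure (Λ.restrict (D k)))) :
    ∫ ω, f (ω k) ∂(seqMeasure Λ D h) = ∫ x, f x ∂(cellMeasure (Λ.restrict (D k))) := by
  unfold seqMeasure
  have : ∀ k, IsFiniteMeasure (Λ.restrict (D k)) := fun k =>
    ⟨by rw [Measure.restrict_apply_univ]; exact lt_top_iff_ne_top.mpr (h k)⟩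
  have h1 := measurePreserving_eval_infinitePi (fun k => cellMeasure (Λ.restrict (D k))) k
  rw [← h1.map_eq] at hf ⊢
  rw [integral_map h1.measurable.aemeasurable hf]

theorem lintegral_eval (k : ℕ) {f : Conf E → ℝ≥0∞} (hf : Measurable f) :
    ∫⁻ ω, f (ω k) ∂(seqMeasure Λ D h) = ∫⁻ x, f x ∂(cellMeasure (Λ.restrict (D k))) := by
  unfold seqMeasure
  have : ∀ k, IsFiniteMeasure (Λ.restrict (D k)) := fun k =>
    ⟨by rw [Measure.restrict_apply_univ]; exact lt_top_iff_ne_top.mpr (h k)⟩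
  have h1 := measurePreserving_eval_infinitePi (fun k => cellMeasure (Λ.restrict (D k))) k
  rw [← h1.map_eq, lintegral_map hf h1.measurable]

theorem integral_prod_range {𝕜 : Type*} [RCLike 𝕜] (n : ℕ) {f : ℕ → Conf E → 𝕜}
    (hf : ∀ k, Measurable (f k)) :
    ∫ ω, ∏ c ∈ Finset.range n, f c (ω c) ∂(seqMeasure Λ D h) =
      ∏ c ∈ Finset.range n, ∫ x, f c x ∂(cellMeasure (Λ.restrict (D c))) := by
  have h1 := indep_seq h (𝓧 := fun _ => 𝕜) hf
  have h2 : iIndepFun (fun (i : Fin n) ω => f i (ω i)) (seqMeasure Λ D h) :=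
    h1.precomp Fin.val_injective
  have hm : ∀ k, Measurable (fun ω : ℕ → Conf E => f k (ω k)) := fun k =>
    (hf k).comp (measurable_pi_apply k)
  have h3 := h2.integral_fun_prod_comp (f := fun _ x => x) (fun i => (hm i).aemeasurable)
    (fun i => aestronglyMeasurable_id)
  have h4 : ∀ ω : ℕ → Conf E, ∏ c ∈ Finset.range n, f c (ω c) = ∏ i : Fin n, f i (ω i) :=
    fun ω => Finset.prod_range fun c => f c (ω c)
  simp_rw [h4]
  rw [h3, Finset.prod_range]
  refine Finset.prod_congr rfl fun i _ => ?_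
  exact integral_eval h i (hf i).aestronglyMeasurable

theorem lintegral_prod_range (n : ℕ) {f : ℕ → Conf E → ℝ≥0∞}
    (hf : ∀ k, Measurable (f k)) :
    ∫⁻ ω, ∏ c ∈ Finset.range n, f c (ω c) ∂(seqMeasure Λ D h) =
      ∏ c ∈ Finset.range n, ∫⁻ x, f c x ∂(cellMeasure (Λ.restrict (D c))) := by
  have h1 := indep_seq h (𝓧 := fun _ => ℝ≥0∞) hf
  have hm : ∀ k, Measurable (fun ω : ℕ → Conf E => f k (ω k)) := fun k =>
    (hf k).comp (measurable_pi_apply k)
  rw [lintegral_prod_eq_prod_lintegral_of_indepFun _ _ h1 hm]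
  exact Finset.prod_congr rfl fun i _ => lintegral_eval h i (hf i)

end indep

namespace Cells

variable (h : Cells Λ w D)
include h

/-- the decrease of the `L²` norms of the increments -/
theorem increment (t : T) : ∃ C : ℝ, ∀ k, ∫⁻ ω, ENNReal.ofReal
    ((Rn Λ w D (k + 1) t ω - Rn Λ w D k t ω) ^ 2) ∂(seqMeasure Λ D h.fin) ≤
      ENNReal.ofReal (C * (1 / 16) ^ k) := by
  obtain ⟨C, hC, hg⟩ := h.geo t
  set δ : ℕ → ℝ := fun k => ∫ x in D k, (w t x - 1) ^ 2 ∂Λ with hδ
  have hδ0 : ∀ k, 0 ≤ δ k := fun k => integral_nonneg fun x => sq_nonneg _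
  have hδC : ∀ k, δ k ≤ C := fun k => (hg k).trans (by
    have : (1 / 16 : ℝ) ^ k ≤ 1 := pow_le_one₀ (by norm_num) (by norm_num)
    nlinarith)
  have hsum : ∀ k, ∑ c ∈ Finset.range k, δ c ≤ 2 * C := by
    intro k
    have h1 : ∑ c ∈ Finset.range k, δ c ≤ ∑ c ∈ Finset.range k, C * (1 / 16) ^ c :=
      Finset.sum_le_sum fun c _ => hg c
    have h2 : ∑ c ∈ Finset.range k, C * (1 / 16 : ℝ) ^ c ≤ 2 * C := by
      rw [← Finset.mul_sum]
      have h3 : ∑ c ∈ Finset.range k, (1 / 16 : ℝ) ^ c ≤ (1 - 1 / 16)⁻¹ := by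
        have := (summable_geometric_of_lt_one (r := (1 / 16 : ℝ)) (by norm_num)
          (by norm_num)).sum_le_tsum (Finset.range k) (fun i _ => by positivity)
        rwa [tsum_geometric_of_lt_one (by norm_num) (by norm_num)] at this
      have h4 : ((1 : ℝ) - 1 / 16)⁻¹ ≤ 2 := by norm_num
      nlinarith
    linarith
  have hcs := fun k => by
    have := h.finite_restrict k
    exact cell_sq (h.wts_restrict k) t
  have hm : ∀ k, Measurable (rho (Λ.restrict (D k)) (w t)) := fun k =>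
    measurable_rho (h.wts.meas t)
  have e1 : ∀ c, ∫⁻ x, ENNReal.ofReal (rho (Λ.restrict (D c)) (w t) x ^ 2)
      ∂(cellMeasure (Λ.restrict (D c))) = ENNReal.ofReal (Real.exp (δ c)) := by
    intro c
    rw [← ofReal_integral_eq_lintegral_ofReal (hcs c).1 (ae_of_all _ fun x => sq_nonneg _),
      (hcs c).2.2.2]
  have e2 : ∀ c, ∫⁻ x, ENNReal.ofReal ((rho (Λ.restrict (D c)) (w t) x - 1) ^ 2)
      ∂(cellMeasure (Λ.restrict (D c))) = ENNReal.ofReal (Real.exp (δ c) - 1) := by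
    intro c
    have := h.finite_restrict c
    have i1 : Integrable (fun x => (rho (Λ.restrict (D c)) (w t) x - 1) ^ 2)
        (cellMeasure (Λ.restrict (D c))) := by
      have := (((hcs c).1.sub ((hcs c).2.1.const_mul 2)).add (integrable_const (1 : ℝ)))
      refine this.congr (ae_of_all _ fun x => ?_)
      simp only [Pi.add_apply, Pi.sub_apply]
      ring
    rw [← ofReal_integral_eq_lintegral_ofReal i1 (ae_of_all _ fun x => sq_nonneg _)]
    congr 1
    have e3 : ∀ x, (rho (Λ.restrict (D c)) (w t) x - 1) ^ 2 =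
        rho (Λ.restrict (D c)) (w t) x ^ 2 - 2 * rho (Λ.restrict (D c)) (w t) x + 1 :=
      fun x => by ring
    simp_rw [e3]
    have i2 : Integrable (fun x => 2 * rho (Λ.restrict (D c)) (w t) x)
        (cellMeasure (Λ.restrict (D c))) := (hcs c).2.1.const_mul 2
    have i3 : Integrable (fun x => rho (Λ.restrict (D c)) (w t) x ^ 2 -
        2 * rho (Λ.restrict (D c)) (w t) x) (cellMeasure (Λ.restrict (D c))) :=
      (hcs c).1.sub i2
    rw [integral_add i3 (integrable_const _), integral_sub (hcs c).1 i2, integral_const_mul,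
      (hcs c).2.2.2, (hcs c).2.2.1]
    simp
    ring
  refine ⟨Real.exp (2 * C) * (C * Real.exp C), fun k => ?_⟩
  set g : ℕ → Conf E → ℝ≥0∞ := fun c x => if c = k then
    ENNReal.ofReal ((rho (Λ.restrict (D c)) (w t) x - 1) ^ 2) else
    ENNReal.ofReal (rho (Λ.restrict (D c)) (w t) x ^ 2) with hgdef
  have hgm : ∀ c, Measurable (g c) := by
    intro c
    simp only [hgdef]
    split_ifs
    · exact (((hm c).sub_const 1).pow_const 2).ennreal_ofReal
    · exact ((hm c).pow_const 2).ennreal_ofReal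
  have e4 : ∀ ω : ℕ → Conf E, ENNReal.ofReal ((Rn Λ w D (k + 1) t ω - Rn Λ w D k t ω) ^ 2) =
      ∏ c ∈ Finset.range (k + 1), g c (ω c) := by
    intro ω
    have e5 : (Rn Λ w D (k + 1) t ω - Rn Λ w D k t ω) ^ 2 =
        (∏ c ∈ Finset.range k, rho (Λ.restrict (D c)) (w t) (ω c) ^ 2) *
          (rho (Λ.restrict (D k)) (w t) (ω k) - 1) ^ 2 := by
      unfold Rn
      rw [Finset.prod_range_succ, Finset.prod_pow]
      ring
    rw [e5, ENNReal.ofReal_mul (Finset.prod_nonneg fun _ _ => sq_nonneg _),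
      ENNReal.ofReal_prod_of_nonneg (fun _ _ => sq_nonneg _), Finset.prod_range_succ]
    congr 1
    · refine Finset.prod_congr rfl fun c hc => ?_
      have : c ≠ k := (Finset.mem_range.mp hc).ne
      simp [hgdef, this]
    · simp [hgdef]
  simp_rw [e4]
  rw [lintegral_prod_range h.fin (k + 1) hgm, Finset.prod_range_succ]
  have e6 : ∏ c ∈ Finset.range k, ∫⁻ x, g c x ∂(cellMeasure (Λ.restrict (D c))) =
      ENNReal.ofReal (Real.exp (∑ c ∈ Finset.range k, δ c)) := by
    rw [Real.exp_sum, ENNReal.ofReal_prod_of_nonneg (fun _ _ => (Real.exp_pos _).le)]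
    refine Finset.prod_congr rfl fun c hc => ?_
    have : c ≠ k := (Finset.mem_range.mp hc).ne
    simp only [hgdef, this, if_false]
    exact e1 c
  have e7 : ∫⁻ x, g k x ∂(cellMeasure (Λ.restrict (D k))) =
      ENNReal.ofReal (Real.exp (δ k) - 1) := by
    simp only [hgdef, if_true]
    exact e2 k
  rw [e6, e7, ← ENNReal.ofReal_mul (Real.exp_pos _).le]
  apply ENNReal.ofReal_le_ofReal
  have f1 : Real.exp (∑ c ∈ Finset.range k, δ c) ≤ Real.exp (2 * C) :=
    Real.exp_le_exp.mpr (hsum k)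
  have f2 : Real.exp (δ k) - 1 ≤ δ k * Real.exp C := by
    have h5 : Real.exp (δ k) - 1 ≤ δ k * Real.exp (δ k) := by
      have := Real.add_one_le_exp (-(δ k))
      have h6 : Real.exp (-(δ k)) * Real.exp (δ k) = 1 := by rw [← Real.exp_add]; simp
      nlinarith [Real.exp_pos (δ k)]
    have h7 : Real.exp (δ k) ≤ Real.exp C := Real.exp_le_exp.mpr (hδC k)
    nlinarith [hδ0 k]
  have f3 : 0 ≤ Real.exp (δ k) - 1 := by
    have := Real.add_one_le_exp (δ k)
    linarith [hδ0 k]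
  calc Real.exp (∑ c ∈ Finset.range k, δ c) * (Real.exp (δ k) - 1)
      ≤ Real.exp (2 * C) * (δ k * Real.exp C) := mul_le_mul f1 f2 f3 (Real.exp_pos _).le
    _ ≤ Real.exp (2 * C) * (C * (1 / 16) ^ k * Real.exp C) := by
        have := hg k
        gcongr
    _ = Real.exp (2 * C) * (C * Real.exp C) * (1 / 16) ^ k := by ring

theorem limit (t : T) :
    ∃ M : (ℕ → Conf E) → ℝ, Measurable M ∧ (∀ ω, 0 ≤ M ω) ∧
      Integrable (fun ω => M ω ^ 2) (seqMeasure Λ D h.fin) ∧
      (∀ᵐ ω ∂(seqMeasure Λ D h.fin), ∀ k, |Rn Λ w D k t ω| ≤ M ω) ∧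
      (∀ᵐ ω ∂(seqMeasure Λ D h.fin),
        Tendsto (fun k => Rn Λ w D k t ω) atTop (𝓝 (RR Λ w D t ω))) := by
  obtain ⟨C, hC⟩ := h.increment t
  obtain ⟨M, h1, h2, h3, h4, h5⟩ := exists_dominating (P := seqMeasure Λ D h.fin)
    (fun k => Rn Λ w D k t) (fun k => measurable_Rn h.wts.meas k t)
    (by simp [Rn]) C hC
  refine ⟨M, h1, h2, h3, h4, ?_⟩
  filter_upwards [h5] with ω hω
  exact tendsto_nhds_limUnder hω

end Cells

end Pool.Agent.Lib_helper33.QH
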