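import Mathlib
import Pool.Agent.Lib_helper33.QH.Process

/-!
# Nonvanishing of the limit and the master formula
-/

set_option autoImplicit false

open MeasureTheory Filter Topology ProbabilityTheory
open scoped ENNReal

namespace Pool.Agent.Lib_helper33.QH

variable {E : Type*} [MeasurableSpace E] {T : Type*}
variable {Λ : Measure E} {w : T → E → ℝ} {D : ℕ → Set E}

/-- the mean of the inverse on one cell on which the weight is at least `1 / 2` -/
theorem cell_inv {A : Measure E} [IsFiniteMeasure A] (h : Wts A w) (t : T)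
    (hs : ∀ᵐ x ∂A, 1 / 2 ≤ w t x) :
    ∫⁻ ω, ENNReal.ofReal (|rho A (w t) ω|⁻¹) ∂(cellMeasure A) ≤
      ENNReal.ofReal (Real.exp (2 * ∫ x, (w t x - 1) ^ 2 ∂A)) := by
  have hgm : Measurable (fun x => |w t x|⁻¹) := (h.meas t).abs.inv
  have hg : Integrable (fun x => |w t x|⁻¹) A := by
    refine Integrable.mono' (integrable_const (2 : ℝ)) hgm.aestronglyMeasurable ?_
    filter_upwards [hs] with x hx
    rw [Real.norm_of_nonneg (by positivity), inv_le_comm₀ (abs_pos.mpr (h.ne t x)) two_pos]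
    have := le_abs_self (w t x)
    linarith
  have e1 : ∀ ω : Conf E, |rho A (w t) ω|⁻¹ =
      Real.exp (∫ x, (w t x - 1) ∂A) * ∏ i, |w t (ω.2 i)|⁻¹ := by
    intro ω
    rw [rho, abs_mul, Finset.abs_prod, mul_inv, abs_of_pos (Real.exp_pos _), ← Real.exp_neg,
      neg_neg, ← Finset.prod_inv_distrib]
  simp_rw [e1]
  have hi : Integrable (fun ω : Conf E => Real.exp (∫ x, (w t x - 1) ∂A) *
      ∏ i, |w t (ω.2 i)|⁻¹) (cellMeasure A) := (cell_integrable A hgm hg).const_mul _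
  rw [← ofReal_integral_eq_lintegral_ofReal hi (ae_of_all _ fun ω => by positivity),
    integral_const_mul, cell_integral_real A hgm hg, ← Real.exp_add]
  apply ENNReal.ofReal_le_ofReal
  have hg1 : Integrable (fun x => |w t x|⁻¹ - 1) A := hg.sub (integrable_const _)
  rw [Real.exp_le_exp, ← integral_add (h.integrable_sub t) hg1,
    ← integral_const_mul]
  refine integral_mono_ae ((h.integrable_sub t).add hg1)
    ((h.sq t).const_mul 2) ?_
  filter_upwards [hs] with x hx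
  have hpos : 0 < w t x := by linarith
  simp only [abs_of_pos hpos]
  have h3 : w t x - 1 + ((w t x)⁻¹ - 1) = (w t x - 1) ^ 2 * (w t x)⁻¹ := by
    field_simp; ring
  rw [h3]
  have h4 : (w t x)⁻¹ ≤ 2 := by
    rw [inv_le_comm₀ hpos two_pos]; linarith
  nlinarith [sq_nonneg (w t x - 1)]

namespace Cells

variable (h : Cells Λ w D)
include h

theorem sum_le (t : T) : ∃ B : ℝ, ∀ k, ∑ c ∈ Finset.range k, ∫ x in D c, (w t x - 1) ^ 2 ∂Λ ≤ B := by
  obtain ⟨C, hC, hg⟩ := h.geo t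
  refine ⟨2 * C, fun k => ?_⟩
  have h1 : ∑ c ∈ Finset.range k, ∫ x in D c, (w t x - 1) ^ 2 ∂Λ ≤
      ∑ c ∈ Finset.range k, C * (1 / 16) ^ c :=
    Finset.sum_le_sum fun c _ => hg c
  have h2 : ∑ c ∈ Finset.range k, C * (1 / 16 : ℝ) ^ c ≤ 2 * C := by
    rw [← Finset.mul_sum]
    have h3 : ∑ c ∈ Finset.range k, (1 / 16 : ℝ) ^ c ≤ (1 - 1 / 16)⁻¹ := by
      have := (summable_geometric_of_lt_one (r := (1 / 16 : ℝ)) (by norm_num)
        (by norm_num)).sum_le_tsum (Finset.range k) (fun i _ => by positivity)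
      rwa [tsum_geometric_of_lt_one (by norm_num) (by norm_num)] at this
    have h4 : ((1 : ℝ) - 1 / 16)⁻¹ ≤ 2 := by norm_num
    nlinarith
  linarith

theorem RR_ne (t : T) : ∀ᵐ ω ∂(seqMeasure Λ D h.fin), RR Λ w D t ω ≠ 0 := by
  obtain ⟨k₀, hk₀⟩ := h.small t
  obtain ⟨B, hB⟩ := h.sum_le t
  obtain ⟨M, -, -, -, -, hlim⟩ := h.limit t
  set f : ℕ → Conf E → ℝ≥0∞ := fun c x => if c < k₀ then 1 else
    ENNReal.ofReal (|rho (Λ.restrict (D c)) (w t) x|⁻¹) with hf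
  have hfm : ∀ c, Measurable (f c) := by
    intro c
    simp only [hf]
    split_ifs
    · exact measurable_const
    · exact ((measurable_rho (h.wts.meas t)).abs.inv).ennreal_ofReal
  set F : ℕ → (ℕ → Conf E) → ℝ≥0∞ := fun k ω => ∏ c ∈ Finset.range (k₀ + k), f c (ω c) with hF
  have hFm : ∀ k, Measurable (F k) := fun k =>
    Finset.measurable_prod _ fun c _ => (hfm c).comp (measurable_pi_apply c)
  have hFval : ∀ k ω, F k ω =
      ENNReal.ofReal (|Rn Λ w D k₀ t ω| * |Rn Λ w D (k₀ + k) t ω|⁻¹) := by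
    intro k ω
    have e1 : |Rn Λ w D k₀ t ω| * |Rn Λ w D (k₀ + k) t ω|⁻¹ =
        ∏ c ∈ Finset.range k, |rho (Λ.restrict (D (k₀ + c))) (w t) (ω (k₀ + c))|⁻¹ := by
      have hne := Rn_ne (Λ := Λ) (D := D) h.wts.ne k₀ t ω
      have e2 : Rn Λ w D (k₀ + k) t ω = Rn Λ w D k₀ t ω *
          ∏ c ∈ Finset.range k, rho (Λ.restrict (D (k₀ + c))) (w t) (ω (k₀ + c)) := by
        unfold Rn
        rw [Finset.prod_range_add]
      rw [e2, abs_mul, mul_inv, Finset.abs_prod, ← Finset.prod_inv_distrib, ← mul_assoc,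
        mul_inv_cancel₀ (abs_ne_zero.mpr hne), one_mul]
    rw [e1, ENNReal.ofReal_prod_of_nonneg (fun _ _ => by positivity)]
    simp only [hF]
    rw [Finset.prod_range_add]
    have e3 : ∏ x ∈ Finset.range k₀, f x (ω x) = 1 := by
      refine Finset.prod_eq_one fun c hc => ?_
      simp [hf, Finset.mem_range.mp hc]
    rw [e3, one_mul]
    refine Finset.prod_congr rfl fun c _ => ?_
    simp [hf]
  have hFint : ∀ k, ∫⁻ ω, F k ω ∂(seqMeasure Λ D h.fin) ≤ ENNReal.ofReal (Real.exp (2 * B)) := by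
    intro k
    simp only [hF]
    rw [lintegral_prod_range h.fin _ hfm]
    have h1 : ∀ c, ∫⁻ x, f c x ∂(cellMeasure (Λ.restrict (D c))) ≤
        ENNReal.ofReal (Real.exp (2 * ∫ x in D c, (w t x - 1) ^ 2 ∂Λ)) := by
      intro c
      have := h.finite_restrict c
      by_cases hc : c < k₀
      · simp only [hf, hc, if_true, lintegral_const, measure_univ, mul_one]
        rw [← ENNReal.ofReal_one]
        apply ENNReal.ofReal_le_ofReal
        rw [Real.one_le_exp_iff]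
        have : 0 ≤ ∫ x in D c, (w t x - 1) ^ 2 ∂Λ := integral_nonneg fun x => sq_nonneg _
        linarith
      · simp only [hf, hc, if_false]
        refine cell_inv (h.wts_restrict c) t ?_
        filter_upwards [ae_restrict_mem (h.meas c)] with x hx
        exact hk₀ c (not_lt.mp hc) x hx
    calc ∏ c ∈ Finset.range (k₀ + k), ∫⁻ x, f c x ∂(cellMeasure (Λ.restrict (D c)))
        ≤ ∏ c ∈ Finset.range (k₀ + k),
          ENNReal.ofReal (Real.exp (2 * ∫ x in D c, (w t x - 1) ^ 2 ∂Λ)) :=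
          Finset.prod_le_prod' fun c _ => h1 c
      _ = ENNReal.ofReal (Real.exp (2 * ∑ c ∈ Finset.range (k₀ + k),
          ∫ x in D c, (w t x - 1) ^ 2 ∂Λ)) := by
          rw [Finset.mul_sum, Real.exp_sum,
            ENNReal.ofReal_prod_of_nonneg (fun _ _ => (Real.exp_pos _).le)]
      _ ≤ ENNReal.ofReal (Real.exp (2 * B)) := by
          apply ENNReal.ofReal_le_ofReal
          rw [Real.exp_le_exp]
          have := hB (k₀ + k)
          linarith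
  have hfatou : ∫⁻ ω, liminf (fun k => F k ω) atTop ∂(seqMeasure Λ D h.fin) ≤
      ENNReal.ofReal (Real.exp (2 * B)) := by
    refine (lintegral_liminf_le hFm).trans ?_
    refine liminf_le_of_le (by isBoundedDefault) fun b hb => ?_
    obtain ⟨k, hk⟩ := (hb.and (eventually_ge_atTop 0)).exists
    exact hk.1.trans (hFint k)
  have hae : ∀ᵐ ω ∂(seqMeasure Λ D h.fin), liminf (fun k => F k ω) atTop < ∞ :=
    ae_lt_top (Measurable.liminf hFm) (ne_top_of_le_ne_top ENNReal.ofReal_ne_top hfatou)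
  filter_upwards [hae, hlim] with ω h1 h2 h3
  rw [h3] at h2
  have h4 : Tendsto (fun k => F k ω) atTop (𝓝 ∞) := by
    simp_rw [hFval]
    refine ENNReal.tendsto_ofReal_atTop.comp ?_
    refine Tendsto.const_mul_atTop (abs_pos.mpr (Rn_ne h.wts.ne k₀ t ω)) ?_
    refine Tendsto.comp tendsto_inv_nhdsGT_zero ?_
    rw [tendsto_nhdsWithin_iff]
    constructor
    · have h5 : Tendsto (fun k => Rn Λ w D (k₀ + k) t ω) atTop (𝓝 0) := by
        have h6 : Tendsto (fun k => k₀ + k) atTop atTop :=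
          tendsto_atTop_mono (fun k => Nat.le_add_left k k₀) tendsto_id
        exact h2.comp h6
      have := h5.abs
      rwa [abs_zero] at this
    · exact Eventually.of_forall fun k => abs_pos.mpr (Rn_ne h.wts.ne _ t ω)
  rw [h4.liminf_eq] at h1
  exact lt_irrefl _ h1

/-- the master formula for the partial products -/
theorem mf_partial {ι : Type*} [Fintype ι] (τ : ι → T) (y : ι → ℝ) (e : ι → ℕ)
    (x₁ : T) {e₁ : ℕ} (he₁ : e₁ ≤ 1) (x₂ : T) {e₂ : ℕ} (he₂ : e₂ ≤ 1) (k : ℕ) :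
    ∫ ω, tf τ y e x₁ e₁ x₂ e₂ (fun t => Rn Λ w D k t ω) ∂(seqMeasure Λ D h.fin) =
      Complex.exp (∑ c ∈ Finset.range k, ∫ x in D c, (tf τ y e x₁ e₁ x₂ e₂ (fun t => w t x) - 1 -
        cp τ y x₁ e₁ x₂ e₂ (fun t => w t x)) ∂Λ) := by
  have e1 : ∀ ω : ℕ → Conf E, tf τ y e x₁ e₁ x₂ e₂ (fun t => Rn Λ w D k t ω) =
      ∏ c ∈ Finset.range k, tf τ y e x₁ e₁ x₂ e₂
        (fun t => rho (Λ.restrict (D c)) (w t) (ω c)) := by
    intro ω
    unfold Rn
    exact tf_prod _ _ _ _ _ _ _ _ (fun c t => rho (Λ.restrict (D c)) (w t) (ω c))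
      (fun c t => rho_ne (h.wts.ne t) _)
  simp_rw [e1]
  rw [integral_prod_range h.fin k (f := fun c x => tf τ y e x₁ e₁ x₂ e₂
        (fun t => rho (Λ.restrict (D c)) (w t) x))
    (fun c => measurable_tf _ _ _ _ _ _ _ fun t => measurable_rho (h.wts.meas t)),
    Complex.exp_sum]
  refine Finset.prod_congr rfl fun c _ => ?_
  have := h.finite_restrict c
  exact (cell_mf (h.wts_restrict c) τ y e x₁ he₁ x₂ he₂).2

theorem tendsto_sum {ι : Type*} [Fintype ι] (τ : ι → T) (y : ι → ℝ) (e : ι → ℕ)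
    (x₁ : T) {e₁ : ℕ} (he₁ : e₁ ≤ 1) (x₂ : T) {e₂ : ℕ} (he₂ : e₂ ≤ 1) :
    Tendsto (fun k => Complex.exp (∑ c ∈ Finset.range k, ∫ x in D c,
      (tf τ y e x₁ e₁ x₂ e₂ (fun t => w t x) - 1 -
        cp τ y x₁ e₁ x₂ e₂ (fun t => w t x)) ∂Λ)) atTop
      (𝓝 (Complex.exp (∫ x, (tf τ y e x₁ e₁ x₂ e₂ (fun t => w t x) - 1 -
        cp τ y x₁ e₁ x₂ e₂ (fun t => w t x)) ∂Λ))) := by
  have h1 := hasSum_integral_iUnion (μ := Λ) h.meas h.disj
    (h.wts.integrable_K τ y e x₁ he₁ x₂ he₂).integrableOn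
  rw [Measure.restrict_eq_self_of_ae_mem h.cover] at h1
  exact (Complex.continuous_exp.tendsto _).comp h1.tendsto_sum_nat

theorem mf {ι : Type*} [Fintype ι] (τ : ι → T) (y : ι → ℝ) (e : ι → ℕ)
    (x₁ : T) {e₁ : ℕ} (he₁ : e₁ ≤ 1) (x₂ : T) {e₂ : ℕ} (he₂ : e₂ ≤ 1) :
    ∫ ω, tf τ y e x₁ e₁ x₂ e₂ (fun t => RR Λ w D t ω) ∂(seqMeasure Λ D h.fin) =
      Complex.exp (∫ x, (tf τ y e x₁ e₁ x₂ e₂ (fun t => w t x) - 1 -
        cp τ y x₁ e₁ x₂ e₂ (fun t => w t x)) ∂Λ) := by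
  obtain ⟨M₁, hM₁m, hM₁0, hM₁i, hM₁b, -⟩ := h.limit x₁
  obtain ⟨M₂, hM₂m, hM₂0, hM₂i, hM₂b, -⟩ := h.limit x₂
  have hlim : ∀ t, ∀ᵐ ω ∂(seqMeasure Λ D h.fin),
      Tendsto (fun k => Rn Λ w D k t ω) atTop (𝓝 (RR Λ w D t ω)) := fun t => by
    obtain ⟨M, -, -, -, -, h5⟩ := h.limit t
    exact h5
  have h1 : Tendsto (fun k => ∫ ω, tf τ y e x₁ e₁ x₂ e₂ (fun t => Rn Λ w D k t ω)
      ∂(seqMeasure Λ D h.fin)) atTop
      (𝓝 (∫ ω, tf τ y e x₁ e₁ x₂ e₂ (fun t => RR Λ w D t ω) ∂(seqMeasure Λ D h.fin))) := by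
    refine tendsto_integral_of_dominated_convergence
      (fun ω => (1 + M₁ ω ^ 2) + (1 + M₂ ω ^ 2)) ?_ ?_ ?_ ?_
    · exact fun k => (measurable_tf _ _ _ _ _ _ _
        fun t => measurable_Rn h.wts.meas k t).aestronglyMeasurable
    · exact ((integrable_const _).add hM₁i).add ((integrable_const _).add hM₂i)
    · intro k
      filter_upwards [hM₁b, hM₂b] with ω b1 b2
      rw [norm_tf]
      have c1 : |Rn Λ w D k x₁ ω| ^ e₁ ≤ 1 + M₁ ω := by
        have := b1 k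
        have := hM₁0 ω
        interval_cases e₁ <;> simp <;> linarith
      have c2 : |Rn Λ w D k x₂ ω| ^ e₂ ≤ 1 + M₂ ω := by
        have := b2 k
        have := hM₂0 ω
        interval_cases e₂ <;> simp <;> linarith
      have c3 : |Rn Λ w D k x₁ ω| ^ e₁ * |Rn Λ w D k x₂ ω| ^ e₂ ≤ (1 + M₁ ω) * (1 + M₂ ω) :=
        mul_le_mul c1 c2 (by positivity) (by linarith [hM₁0 ω])
      nlinarith [sq_nonneg (M₁ ω - M₂ ω), sq_nonneg (M₁ ω - 1), sq_nonneg (M₂ ω - 1)]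
    · have hall : ∀ᵐ ω ∂(seqMeasure Λ D h.fin), ∀ j,
          Tendsto (fun k => Rn Λ w D k (τ j) ω) atTop (𝓝 (RR Λ w D (τ j) ω)) :=
        ae_all_iff.mpr fun j => hlim (τ j)
      have hne : ∀ᵐ ω ∂(seqMeasure Λ D h.fin), ∀ j, RR Λ w D (τ j) ω ≠ 0 :=
        ae_all_iff.mpr fun j => h.RR_ne (τ j)
      filter_upwards [hall, hne, hlim x₁, hlim x₂] with ω a1 a2 a3 a4
      unfold tf
      refine Tendsto.mul ?_ (Tendsto.mul ?_ ?_)
      · refine tendsto_finset_prod _ fun j _ => ?_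
        exact (continuousAt_chi (y j) (e j) (a2 j)).tendsto.comp (a1 j)
      · exact ((Complex.continuous_ofReal.tendsto _).comp a3).pow e₁
      · exact ((Complex.continuous_ofReal.tendsto _).comp a4).pow e₂
  simp_rw [h.mf_partial τ y e x₁ he₁ x₂ he₂] at h1
  exact tendsto_nhds_unique h1 (h.tendsto_sum τ y e x₁ he₁ x₂ he₂)

theorem RR_sq (t : T) : Integrable (fun ω => RR Λ w D t ω ^ 2) (seqMeasure Λ D h.fin) := by
  obtain ⟨M, hMm, hM0, hMi, hMb, hMl⟩ := h.limit t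
  refine Integrable.mono' hMi ((measurable_RR h.wts.meas t).pow_const 2).aestronglyMeasurable ?_
  filter_upwards [hMb, hMl] with ω b l
  have h1 : |RR Λ w D t ω| ≤ M ω := le_of_tendsto l.abs (Eventually.of_forall b)
  rw [Real.norm_of_nonneg (sq_nonneg _), ← sq_abs]
  exact pow_le_pow_left₀ (abs_nonneg _) h1 2

end Cells

/-- `R` realises the multiplicative functional of the Poisson measure with intensity `Λ` -/
structure MultProc (Λ : Measure E) (w : T → E → ℝ) {Ω : Type*} [MeasurableSpace Ω]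
    (P : Measure Ω) (R : T → Ω → ℝ) : Prop where
  wts : Wts Λ w
  meas : ∀ t, Measurable (R t)
  ne : ∀ t, ∀ᵐ ω ∂P, R t ω ≠ 0
  sq : ∀ t, Integrable (fun ω => R t ω ^ 2) P
  mf : ∀ {ι : Type} [Fintype ι] (τ : ι → T) (y : ι → ℝ) (e : ι → ℕ)
    (x₁ : T) (e₁ : ℕ) (_ : e₁ ≤ 1) (x₂ : T) (e₂ : ℕ) (_ : e₂ ≤ 1),
    ∫ ω, tf τ y e x₁ e₁ x₂ e₂ (fun t => R t ω) ∂P =
      Complex.exp (∫ x, (tf τ y e x₁ e₁ x₂ e₂ (fun t => w t x) - 1 -
        cp τ y x₁ e₁ x₂ e₂ (fun t => w t x)) ∂Λ)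

theorem Cells.multProc (h : Cells Λ w D) : MultProc Λ w (seqMeasure Λ D h.fin) (RR Λ w D) :=
  ⟨h.wts, measurable_RR h.wts.meas, h.RR_ne, h.RR_sq,
    fun τ y e x₁ _ he₁ x₂ _ he₂ => h.mf τ y e x₁ he₁ x₂ he₂⟩

theorem cell_multProc {A : Measure E} [IsFiniteMeasure A] (h : Wts A w) :
    MultProc A w (cellMeasure A) (fun t => rho A (w t)) :=
  ⟨h, fun t => measurable_rho (h.meas t), fun t => ae_of_all _ fun ω => rho_ne (h.ne t) ω,
    fun t => (cell_sq h t).1, fun τ y e x₁ _ he₁ x₂ _ he₂ =>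
      (cell_mf h τ y e x₁ he₁ x₂ he₂).2⟩

/-- independent superposition -/
theorem MultProc.prod {Λ₁ Λ₂ : Measure E} {Ω₁ Ω₂ : Type*} [MeasurableSpace Ω₁]
    [MeasurableSpace Ω₂] {P₁ : Measure Ω₁} {P₂ : Measure Ω₂} [IsProbabilityMeasure P₁]
    [IsProbabilityMeasure P₂] {R₁ : T → Ω₁ → ℝ} {R₂ : T → Ω₂ → ℝ}
    (h₁ : MultProc Λ₁ w P₁ R₁) (h₂ : MultProc Λ₂ w P₂ R₂) :
    MultProc (Λ₁ + Λ₂) w (P₁.prod P₂) (fun t ω => R₁ t ω.1 * R₂ t ω.2) where
  wts := ⟨h₁.wts.meas, h₁.wts.ne, fun t => (h₁.wts.sq t).add_measure (h₂.wts.sq t)⟩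
  meas := fun t => ((h₁.meas t).comp measurable_fst).mul ((h₂.meas t).comp measurable_snd)
  ne := fun t => by
    have a1 : ∀ᵐ ω ∂(P₁.prod P₂), R₁ t ω.1 ≠ 0 :=
      (Measure.quasiMeasurePreserving_fst (μ := P₁) (ν := P₂)).ae (h₁.ne t)
    have a2 : ∀ᵐ ω ∂(P₁.prod P₂), R₂ t ω.2 ≠ 0 :=
      (Measure.quasiMeasurePreserving_snd (μ := P₁) (ν := P₂)).ae (h₂.ne t)
    filter_upwards [a1, a2] with ω b1 b2
    exact mul_ne_zero b1 b2
  sq := fun t => by
    simp_rw [mul_pow]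
    exact (h₁.sq t).mul_prod (h₂.sq t)
  mf := by
    intro ι _ τ y e x₁ e₁ he₁ x₂ e₂ he₂
    have a1 : ∀ᵐ ω ∂(P₁.prod P₂), ∀ j, R₁ (τ j) ω.1 ≠ 0 := ae_all_iff.mpr fun j =>
      (Measure.quasiMeasurePreserving_fst (μ := P₁) (ν := P₂)).ae (h₁.ne (τ j))
    have a2 : ∀ᵐ ω ∂(P₁.prod P₂), ∀ j, R₂ (τ j) ω.2 ≠ 0 := ae_all_iff.mpr fun j =>
      (Measure.quasiMeasurePreserving_snd (μ := P₁) (ν := P₂)).ae (h₂.ne (τ j))
    have e1 : ∀ᵐ ω ∂(P₁.prod P₂),
        tf τ y e x₁ e₁ x₂ e₂ (fun t => R₁ t ω.1 * R₂ t ω.2) =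
          tf τ y e x₁ e₁ x₂ e₂ (fun t => R₁ t ω.1) * tf τ y e x₁ e₁ x₂ e₂ (fun t => R₂ t ω.2) := by
      filter_upwards [a1, a2] with ω b1 b2
      unfold tf
      have : ∀ j, chi (y j) (e j) (R₁ (τ j) ω.1 * R₂ (τ j) ω.2) =
          chi (y j) (e j) (R₁ (τ j) ω.1) * chi (y j) (e j) (R₂ (τ j) ω.2) :=
        fun j => chi_mul _ _ (b1 j) (b2 j)
      simp_rw [this, Finset.prod_mul_distrib]
      push_cast
      rw [mul_pow, mul_pow]
      ring
    rw [integral_congr_ae e1, integral_prod_mul (fun ω => tf τ y e x₁ e₁ x₂ e₂ (fun t => R₁ t ω))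
      (fun ω => tf τ y e x₁ e₁ x₂ e₂ (fun t => R₂ t ω)), h₁.mf τ y e x₁ e₁ he₁ x₂ e₂ he₂,
      h₂.mf τ y e x₁ e₁ he₁ x₂ e₂ he₂, ← Complex.exp_add,
      integral_add_measure (h₁.wts.integrable_K τ y e x₁ he₁ x₂ he₂)
        (h₂.wts.integrable_K τ y e x₁ he₁ x₂ he₂)]

end Pool.Agent.Lib_helper33.QH
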