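import Mathlib
import Pool.Agent.Lib_helper33.QH.Master

/-!
# The intensity on `(0, ∞) × ℝ` and the cells
-/

set_option autoImplicit false

open MeasureTheory Filter Topology ProbabilityTheory
open scoped ENNReal

namespace Pool.Agent.Lib_helper33.QH

/-- times -/
abbrev Tm := {t : ℝ // 0 < t}

/-- the weights: the jump factor `v` of a point `(t', v)` counts for the times `t < t'` -/
noncomputable def wt (t : Tm) (p : ℝ × ℝ) : ℝ :=
  if (t : ℝ) < p.1 ∧ p.2 ≠ 0 then p.2 else 1

/-- the intensity measure -/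
noncomputable def Lam (n : ℝ → ℝ → ℝ) : Measure (ℝ × ℝ) :=
  (volume.restrict {p : ℝ × ℝ | 0 < p.1}).withDensity (fun p => ENNReal.ofReal (n p.1 p.2))

theorem wt_ne (t : Tm) (p : ℝ × ℝ) : wt t p ≠ 0 := by
  unfold wt
  split_ifs with h
  · exact h.2
  · exact one_ne_zero

theorem measurable_wt (t : Tm) : Measurable (wt t) := by
  unfold wt
  refine Measurable.ite ?_ measurable_snd measurable_const
  exact (measurableSet_lt measurable_const measurable_fst).inter
    (measurable_snd (measurableSet_singleton (0 : ℝ)).compl)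

theorem measurableSet_pos : MeasurableSet {p : ℝ × ℝ | 0 < p.1} :=
  measurableSet_lt measurable_const measurable_fst

/-- almost every point has nonzero second coordinate -/
theorem lam_ae (n : ℝ → ℝ → ℝ) : ∀ᵐ p ∂(Lam n), 0 < p.1 ∧ p.2 ≠ 0 := by
  have h1 : ∀ᵐ p ∂(volume.restrict {p : ℝ × ℝ | 0 < p.1}), 0 < p.1 ∧ p.2 ≠ 0 := by
    have h2 : ∀ᵐ p ∂(volume.restrict {p : ℝ × ℝ | 0 < p.1}), p ∈ {p : ℝ × ℝ | 0 < p.1} :=
      ae_restrict_mem measurableSet_pos
    have h3 : ∀ᵐ p : ℝ × ℝ, p.2 ≠ 0 := by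
      have : ∀ᵐ v : ℝ, v ≠ 0 := Measure.ae_ne volume 0
      exact (Measure.quasiMeasurePreserving_snd (μ := (volume : Measure ℝ))
        (ν := (volume : Measure ℝ))).ae this
    filter_upwards [h2, ae_restrict_of_ae h3] with p a b
    exact ⟨a, b⟩
  exact (withDensity_absolutelyContinuous _ _) h1

variable {n : ℝ → ℝ → ℝ}

theorem measurable_dens (hn : GoodDensity n) :
    Measurable (fun p : ℝ × ℝ => ENNReal.ofReal (n p.1 p.2)) :=
  ENNReal.measurable_ofReal.comp hn.meas

/-- the restriction to a strip of times is a density over a product measure -/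
theorem lam_restrict (hn : GoodDensity n) {s : Set ℝ} (hs : MeasurableSet s)
    (h0 : s ⊆ Set.Ioi 0) : (Lam n).restrict (Prod.fst ⁻¹' s) =
      ((volume.restrict s).prod volume).withDensity (fun p => ENNReal.ofReal (n p.1 p.2)) := by
  unfold Lam
  rw [restrict_withDensity (measurable_fst hs), Measure.restrict_restrict (measurable_fst hs)]
  congr 1
  have h1 : (Prod.fst ⁻¹' s ∩ {p : ℝ × ℝ | 0 < p.1}) = s ×ˢ (Set.univ : Set ℝ) := by
    ext p
    simp only [Set.mem_inter_iff, Set.mem_preimage, Set.mem_prod, Set.mem_univ, and_true]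
    exact ⟨fun h => h.1, fun h => ⟨h, h0 h⟩⟩
  rw [h1, Measure.volume_eq_prod, ← Measure.prod_restrict, Measure.restrict_univ]

theorem lintegral_sq (hn : GoodDensity n) {s : Set ℝ} (hs : MeasurableSet s)
    (h0 : s ⊆ Set.Ioi 0) :
    ∫⁻ p in Prod.fst ⁻¹' s, ENNReal.ofReal ((p.2 - 1) ^ 2) ∂(Lam n) =
      ∫⁻ t in s, ENNReal.ofReal (1 / (t * (t + 1))) := by
  have hm1 : Measurable (fun p : ℝ × ℝ => ENNReal.ofReal ((p.2 - 1) ^ 2)) := by fun_prop
  rw [lam_restrict hn hs h0, lintegral_withDensity_eq_lintegral_mul _ (measurable_dens hn) hm1,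
    lintegral_prod _ ((measurable_dens hn).mul hm1).aemeasurable]
  refine setLIntegral_congr_fun hs fun t ht => ?_
  have ht0 : 0 < t := h0 ht
  simp only [Pi.mul_apply]
  rw [← hn.sq_eq t ht0, ofReal_integral_eq_lintegral_ofReal (hn.sq_int t ht0)
    (ae_of_all _ fun v => mul_nonneg (sq_nonneg _) (hn.nonneg _ _))]
  refine lintegral_congr fun v => ?_
  rw [← ENNReal.ofReal_mul (hn.nonneg _ _), mul_comm]

theorem hasDerivAt_log {t : ℝ} (ht : 0 < t) :
    HasDerivAt (fun t : ℝ => Real.log t - Real.log (t + 1)) (1 / (t * (t + 1))) t := by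
  have h1 := Real.hasDerivAt_log ht.ne'
  have h2 : HasDerivAt (fun t : ℝ => Real.log (t + 1)) (1 / (t + 1)) t := by
    have := (hasDerivAt_id t).add_const 1
    exact this.log (by simp; linarith)
  refine (h1.sub h2).congr_deriv ?_
  field_simp
  ring

theorem tendsto_log : Tendsto (fun t : ℝ => Real.log t - Real.log (t + 1)) atTop (𝓝 0) := by
  have h1 : Tendsto (fun t : ℝ => Real.log (t / (t + 1))) atTop (𝓝 (Real.log 1)) := by
    refine (Real.continuousAt_log one_ne_zero).tendsto.comp ?_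
    have h2 : Tendsto (fun t : ℝ => 1 - 1 / (t + 1)) atTop (𝓝 (1 - 0)) := by
      refine tendsto_const_nhds.sub ?_
      simp_rw [one_div]
      exact tendsto_inv_atTop_zero.comp (tendsto_atTop_add_const_right _ _ tendsto_id)
    rw [sub_zero] at h2
    refine h2.congr' ?_
    filter_upwards [eventually_gt_atTop 0] with t ht
    field_simp
    ring
  rw [Real.log_one] at h1
  refine h1.congr' ?_
  filter_upwards [eventually_gt_atTop 0] with t ht
  rw [Real.log_div ht.ne' (by linarith)]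

theorem integral_tail {s : ℝ} (hs : 0 < s) :
    IntegrableOn (fun t : ℝ => 1 / (t * (t + 1))) (Set.Ioi s) ∧
      ∫ t in Set.Ioi s, 1 / (t * (t + 1)) = Real.log (1 + 1 / s) := by
  have h1 : ∀ x ∈ Set.Ioi s, HasDerivAt (fun t : ℝ => Real.log t - Real.log (t + 1))
      (1 / (x * (x + 1))) x := fun x hx => hasDerivAt_log (hs.trans hx)
  have h2 : ContinuousWithinAt (fun t : ℝ => Real.log t - Real.log (t + 1)) (Set.Ici s) s :=
    (hasDerivAt_log hs).continuousAt.continuousWithinAt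
  have h3 : ∀ x ∈ Set.Ioi s, 0 ≤ 1 / (x * (x + 1)) := fun x hx => by
    have : 0 < x := hs.trans hx
    positivity
  have h4 := integrableOn_Ioi_deriv_of_nonneg h2 h1 h3 tendsto_log
  have h5 := integral_Ioi_of_hasDerivAt_of_nonneg h2 h1 h3 tendsto_log
  refine ⟨h4, ?_⟩
  rw [h5]
  have h6 : 1 + 1 / s = (s + 1) / s := by field_simp
  rw [h6, Real.log_div (by linarith) hs.ne']
  ring

theorem lintegral_tail (hn : GoodDensity n) {s : ℝ} (hs : 0 < s) :
    ∫⁻ p in Prod.fst ⁻¹' (Set.Ioi s), ENNReal.ofReal ((p.2 - 1) ^ 2) ∂(Lam n) =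
      ENNReal.ofReal (Real.log (1 + 1 / s)) := by
  rw [lintegral_sq hn measurableSet_Ioi (Set.Ioi_subset_Ioi hs.le), ← (integral_tail hs).2,
    ofReal_integral_eq_lintegral_ofReal (integral_tail hs).1]
  rw [EventuallyLE, ae_restrict_iff' measurableSet_Ioi]
  refine ae_of_all _ fun t ht => ?_
  have : 0 < t := hs.trans ht
  simp only [Pi.zero_apply]
  positivity

theorem integrableOn_sq (hn : GoodDensity n) {s : ℝ} (hs : 0 < s) :
    IntegrableOn (fun p : ℝ × ℝ => (p.2 - 1) ^ 2) (Prod.fst ⁻¹' (Set.Ioi s)) (Lam n) := by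
  refine ⟨by fun_prop, ?_⟩
  rw [hasFiniteIntegral_iff_ofReal (ae_of_all _ fun p => sq_nonneg _), lintegral_tail hn hs]
  exact ENNReal.ofReal_lt_top

theorem wt_sub (t : Tm) : ∀ᵐ p ∂(Lam n), wt t p - 1 =
    (Prod.fst ⁻¹' (Set.Ioi (t : ℝ))).indicator (fun p : ℝ × ℝ => p.2 - 1) p := by
  filter_upwards [lam_ae n] with p hp
  unfold wt
  by_cases h : (t : ℝ) < p.1
  · rw [if_pos ⟨h, hp.2⟩, Set.indicator_of_mem (by exact h)]
  · rw [if_neg (fun hh => h hh.1), Set.indicator_of_notMem (by exact h), sub_self]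

theorem wts_lam (hn : GoodDensity n) : Wts (Lam n) wt := by
  refine ⟨measurable_wt, wt_ne, fun t => ?_⟩
  have h1 : Integrable ((Prod.fst ⁻¹' (Set.Ioi (t : ℝ))).indicator
      (fun p : ℝ × ℝ => (p.2 - 1) ^ 2)) (Lam n) :=
    (integrableOn_sq hn t.2).integrable_indicator (measurable_fst measurableSet_Ioi)
  refine h1.congr ?_
  filter_upwards [wt_sub (n := n) t] with p hp
  rw [hp]
  by_cases h : p ∈ Prod.fst ⁻¹' (Set.Ioi (t : ℝ))
  · rw [Set.indicator_of_mem h, Set.indicator_of_mem h]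
  · rw [Set.indicator_of_notMem h, Set.indicator_of_notMem h]; simp

end Pool.Agent.Lib_helper33.QH
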