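import Mathlib
import Pool.Agent.Lib_helper33.QH.Space

/-!
# Existence of adapted cells
-/

set_option autoImplicit false

open MeasureTheory Filter Topology ProbabilityTheory
open scoped ENNReal

namespace Pool.Agent.Lib_helper33.QH

/-- the exhausting sets -/
def Em (m : ℕ) : Set (ℝ × ℝ) := {p | 1 / ((m : ℝ) + 1) < p.1 ∧ 1 / ((m : ℝ) + 1) < |p.2 - 1|}

theorem measurableSet_Em (m : ℕ) : MeasurableSet (Em m) := by
  unfold Em
  exact (measurableSet_lt measurable_const measurable_fst).inter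
    (measurableSet_lt measurable_const (measurable_snd.sub_const 1).abs)

theorem Em_mono : Monotone Em := by
  intro a b hab p hp
  have h1 : 1 / ((b : ℝ) + 1) ≤ 1 / ((a : ℝ) + 1) := by
    have : (a : ℝ) ≤ b := by exact_mod_cast hab
    gcongr
  exact ⟨h1.trans_lt hp.1, h1.trans_lt hp.2⟩

variable {n : ℝ → ℝ → ℝ}

theorem fin_Em (hn : GoodDensity n) {Λ' : Measure (ℝ × ℝ)} (hle : Λ' ≤ Lam n) (m : ℕ) :
    Λ' (Em m) ≠ ∞ := by
  have hpos : (0 : ℝ) < 1 / ((m : ℝ) + 1) := by positivity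
  have h1 : (Lam n) (Em m) ≤ ENNReal.ofReal (((m : ℝ) + 1) ^ 2) *
      ∫⁻ p in Prod.fst ⁻¹' (Set.Ioi (1 / ((m : ℝ) + 1))), ENNReal.ofReal ((p.2 - 1) ^ 2) ∂(Lam n) := by
    rw [← setLIntegral_one, ← lintegral_const_mul _ (by fun_prop)]
    have h2 : Em m ⊆ Prod.fst ⁻¹' (Set.Ioi (1 / ((m : ℝ) + 1))) := fun p hp => hp.1
    calc ∫⁻ p in Em m, 1 ∂(Lam n)
        ≤ ∫⁻ p in Em m, ENNReal.ofReal (((m : ℝ) + 1) ^ 2) *
            ENNReal.ofReal ((p.2 - 1) ^ 2) ∂(Lam n) := by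
          refine setLIntegral_mono' (measurableSet_Em m) fun p hp => ?_
          rw [← ENNReal.ofReal_mul (by positivity), ← ENNReal.ofReal_one]
          apply ENNReal.ofReal_le_ofReal
          have h3 : 1 < ((m : ℝ) + 1) * |p.2 - 1| := by
            have := hp.2
            rw [div_lt_iff₀ (by positivity)] at this
            linarith
          rw [← sq_abs (p.2 - 1), ← mul_pow]
          nlinarith
      _ ≤ _ := lintegral_mono_set h2
  refine ne_top_of_le_ne_top ?_ ((hle _).trans h1)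
  rw [lintegral_tail hn hpos]
  exact ENNReal.mul_ne_top ENNReal.ofReal_ne_top ENNReal.ofReal_ne_top

theorem wt_sq_le (t : Tm) {Λ' : Measure (ℝ × ℝ)} (hle : Λ' ≤ Lam n) :
    ∀ᵐ p ∂Λ', (wt t p - 1) ^ 2 =
      (Prod.fst ⁻¹' (Set.Ioi (t : ℝ))).indicator (fun p : ℝ × ℝ => (p.2 - 1) ^ 2) p := by
  have h1 : Λ' ≪ Lam n := Measure.absolutelyContinuous_of_le hle
  filter_upwards [h1 (wt_sub (n := n) t)] with p hp
  rw [hp]
  by_cases h : p ∈ Prod.fst ⁻¹' (Set.Ioi (t : ℝ))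
  · rw [Set.indicator_of_mem h, Set.indicator_of_mem h]
  · rw [Set.indicator_of_notMem h, Set.indicator_of_notMem h]; simp

theorem exists_cells (hn : GoodDensity n) {Λ' : Measure (ℝ × ℝ)} (hle : Λ' ≤ Lam n) :
    ∃ D : ℕ → Set (ℝ × ℝ), Cells Λ' wt D := by
  have hac : Λ' ≪ Lam n := Measure.absolutelyContinuous_of_le hle
  set S : ℕ → ℕ → Set (ℝ × ℝ) := fun k m =>
    Prod.fst ⁻¹' (Set.Ioi (1 / ((k : ℝ) + 1))) ∩ (Em m)ᶜ with hS
  have hSm : ∀ k m, MeasurableSet (S k m) := fun k m =>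
    (measurable_fst measurableSet_Ioi).inter (measurableSet_Em m).compl
  have hSint : ∀ k m, IntegrableOn (fun p : ℝ × ℝ => (p.2 - 1) ^ 2) (S k m) Λ' := fun k m =>
    ((integrableOn_sq hn (by positivity)).mono_set Set.inter_subset_left).mono_measure hle
  have hP : ∀ k, ∀ᶠ m in atTop, ∫ p in S k m, (p.2 - 1) ^ 2 ∂Λ' ≤ (1 / 16 : ℝ) ^ (k + 1) := by
    intro k
    have hanti : Antitone (S k) := fun a b hab =>
      Set.inter_subset_inter_right _ (Set.compl_subset_compl.mpr (Em_mono hab))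
    have h1 := tendsto_setIntegral_of_antitone (hSm k) hanti ⟨0, hSint k 0⟩
    have h2 : ∫ p in ⋂ m, S k m, (p.2 - 1) ^ 2 ∂Λ' = 0 := by
      refine setIntegral_eq_zero_of_forall_eq_zero fun p hp => ?_
      rw [Set.mem_iInter] at hp
      by_contra hne
      have h3 : 0 < |p.2 - 1| := by
        rw [abs_pos]; intro h0; rw [h0] at hne; norm_num at hne
      have h4 : 0 < p.1 := lt_trans (by positivity) (hp 0).1
      obtain ⟨m, hm⟩ := exists_nat_one_div_lt (lt_min h3 h4)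
      exact (hp m).2 ⟨hm.trans_le (min_le_right _ _), hm.trans_le (min_le_left _ _)⟩
    rw [h2] at h1
    exact (h1.eventually_lt_const (by positivity)).mono fun m hm => hm.le
  obtain ⟨φ, hφ, hφP⟩ := extraction_forall_of_eventually hP
  set F : ℕ → Set (ℝ × ℝ) := fun k => Em (φ k) with hF
  have hFmono : Monotone F := Em_mono.comp hφ.monotone
  have hDsub : ∀ k, disjointed F (k + 1) ⊆ (Em (φ k))ᶜ := by
    intro k p hp
    rw [disjointed_eq_inter_compl] at hp
    have := hp.2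
    simp only [Set.mem_iInter] at this
    exact this k (Nat.lt_succ_self k)
  have hDm : ∀ k, MeasurableSet (disjointed F k) := fun k =>
    MeasurableSet.disjointed (fun i => measurableSet_Em _) k
  have hwts : Wts Λ' wt := (wts_lam hn).mono hle
  refine ⟨disjointed F, hwts, hDm, ?_, disjoint_disjointed F, ?_, ?_, ?_⟩
  · intro k
    exact ne_top_of_le_ne_top (fin_Em hn hle (φ k)) (measure_mono (disjointed_subset F k))
  · rw [iUnion_disjointed]
    have h1 : ∀ᵐ p ∂(Lam n), p.2 ≠ 1 := by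
      have h2 : ∀ᵐ p ∂(volume.restrict {p : ℝ × ℝ | 0 < p.1}), p.2 ≠ 1 := by
        refine ae_restrict_of_ae ?_
        have : ∀ᵐ v : ℝ, v ≠ 1 := Measure.ae_ne volume 1
        exact (Measure.quasiMeasurePreserving_snd (μ := (volume : Measure ℝ))
          (ν := (volume : Measure ℝ))).ae this
      exact (withDensity_absolutelyContinuous _ _) h2
    filter_upwards [hac h1, hac (lam_ae n)] with p hp1 hp2
    have h3 : 0 < |p.2 - 1| := abs_pos.mpr (sub_ne_zero.mpr hp1)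
    obtain ⟨m, hm⟩ := exists_nat_one_div_lt (lt_min h3 hp2.1)
    refine Set.mem_iUnion.mpr ⟨m, ?_⟩
    exact Em_mono (hφ.le_apply : m ≤ φ m) ⟨hm.trans_le (min_le_right _ _), hm.trans_le (min_le_left _ _)⟩
  · intro t
    obtain ⟨k₁, hk₁⟩ := exists_nat_one_div_lt t.2
    set I : ℝ := ∫ p, (wt t p - 1) ^ 2 ∂Λ' with hI
    have hI0 : 0 ≤ I := integral_nonneg fun p => sq_nonneg _
    refine ⟨1 + I * 16 ^ (k₁ + 1), by positivity, fun k => ?_⟩
    have hgen : ∫ p in disjointed F k, (wt t p - 1) ^ 2 ∂Λ' ≤ I :=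
      setIntegral_le_integral (hwts.sq t) (ae_of_all _ fun p => sq_nonneg _)
    by_cases hk : k ≤ k₁
    · refine hgen.trans ?_
      have h1 : (1 : ℝ) ≤ 16 ^ (k₁ + 1) * (1 / 16) ^ k := by
        have h2 : (16 : ℝ) ^ (k₁ + 1) = 16 ^ k * 16 ^ (k₁ + 1 - k) := by
          rw [← pow_add]; congr 1; omega
        rw [h2]
        have h3 : (16 : ℝ) ^ k * (1 / 16) ^ k = 1 := by rw [← mul_pow]; norm_num
        have h4 : (1 : ℝ) ≤ 16 ^ (k₁ + 1 - k) := one_le_pow₀ (by norm_num)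
        calc (1 : ℝ) ≤ 16 ^ (k₁ + 1 - k) := h4
          _ = (16 ^ k * (1 / 16) ^ k) * 16 ^ (k₁ + 1 - k) := by rw [h3, one_mul]
          _ = _ := by ring
      have h5 : (0 : ℝ) ≤ (1 / 16) ^ k := by positivity
      nlinarith
    · obtain ⟨j, rfl⟩ : ∃ j, k = j + 1 := ⟨k - 1, by omega⟩
      have hj : k₁ ≤ j := by omega
      have h1 : ∫ p in disjointed F (j + 1), (wt t p - 1) ^ 2 ∂Λ' ≤
          ∫ p in S j (φ j), (p.2 - 1) ^ 2 ∂Λ' := by
        have h2 : ∫ p in disjointed F (j + 1), (wt t p - 1) ^ 2 ∂Λ' =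
            ∫ p in disjointed F (j + 1) ∩ Prod.fst ⁻¹' (Set.Ioi (t : ℝ)), (p.2 - 1) ^ 2 ∂Λ' := by
          rw [setIntegral_congr_ae (hDm (j + 1)) ((wt_sq_le t hle).mono fun p hp _ => hp),
            setIntegral_indicator (measurable_fst measurableSet_Ioi)]
        rw [h2]
        refine setIntegral_mono_set (hSint j (φ j)) (ae_of_all _ fun p => sq_nonneg _) ?_
        refine HasSubset.Subset.eventuallyLE ?_
        intro p hp
        refine ⟨?_, hDsub j hp.1⟩
        have h3 : (t : ℝ) < p.1 := hp.2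
        have h4 : 1 / ((j : ℝ) + 1) ≤ 1 / ((k₁ : ℝ) + 1) := by
          have : (k₁ : ℝ) ≤ j := by exact_mod_cast hj
          gcongr
        exact (h4.trans_lt hk₁).trans h3
      refine (h1.trans (hφP j)).trans ?_
      have h5 : (0 : ℝ) ≤ (1 / 16) ^ (j + 1) := by positivity
      nlinarith [mul_nonneg (mul_nonneg hI0 (pow_nonneg (by norm_num : (0 : ℝ) ≤ 16) (k₁ + 1))) h5]
  · intro t
    obtain ⟨k₁, hk₁⟩ := exists_nat_one_div_lt t.2
    refine ⟨k₁ + 2, fun k hk p hp => ?_⟩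
    obtain ⟨j, rfl⟩ : ∃ j, k = j + 1 := ⟨k - 1, by omega⟩
    have hj : k₁ + 1 ≤ j := by omega
    unfold wt
    split_ifs with hc
    · have h1 := hDsub j hp
      have hφj : j ≤ φ j := hφ.le_apply
      have h2 : 1 / ((φ j : ℝ) + 1) < p.1 := by
        have h4 : 1 / ((φ j : ℝ) + 1) ≤ 1 / ((k₁ : ℝ) + 1) := by
          have : (k₁ : ℝ) ≤ φ j := by exact_mod_cast (by omega : k₁ ≤ φ j)
          gcongr
        exact (h4.trans_lt hk₁).trans hc.1
      have h3 : |p.2 - 1| ≤ 1 / ((φ j : ℝ) + 1) := by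
        by_contra hcon
        exact h1 ⟨h2, not_le.mp hcon⟩
      have h5 : 1 / ((φ j : ℝ) + 1) ≤ 1 / 2 := by
        have : (1 : ℝ) ≤ φ j := by exact_mod_cast (by omega : 1 ≤ φ j)
        apply one_div_le_one_div_of_le (by norm_num); linarith
      have h6 := neg_abs_le (p.2 - 1)
      linarith
    · norm_num

/-- existence of the multiplicative process -/
theorem exists_multProc (hn : GoodDensity n) {Λ' : Measure (ℝ × ℝ)} (hle : Λ' ≤ Lam n) :
    ∃ (P : Measure (ℕ → Conf (ℝ × ℝ))) (_ : IsProbabilityMeasure P)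
      (R : Tm → (ℕ → Conf (ℝ × ℝ)) → ℝ), MultProc Λ' wt P R := by
  obtain ⟨D, hD⟩ := exists_cells hn hle
  exact ⟨_, inferInstance, _, hD.multProc⟩

end Pool.Agent.Lib_helper33.QH
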