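import Mathlib

/-!
# The integral of `(y^{s₁-1} - y^{s₀-1})/(y-1)` over `(0, ∞)`
-/

set_option autoImplicit false

open MeasureTheory Filter Topology Set

namespace Pool.Agent.Lib_helper33.QH

/-- the difference quotient on `(0, 1)` -/
noncomputable def gq (p q : ℂ) (x : ℝ) : ℂ := ((x : ℂ) ^ p - (x : ℂ) ^ q) / (1 - (x : ℂ))

theorem norm_cpow_sub_one_le (p : ℂ) {x : ℝ} (h1 : 1 / 2 ≤ x) (h2 : x < 1) :
    ‖(x : ℂ) ^ p - 1‖ ≤ 2 * ‖p‖ * Real.exp ‖p‖ * (1 - x) := by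
  have hx : 0 < x := by linarith
  have hxc : (x : ℂ) ≠ 0 := by exact_mod_cast hx.ne'
  have hlog : |Real.log x| ≤ 2 * (1 - x) := by
    rw [abs_of_nonpos (Real.log_nonpos hx.le h2.le)]
    have h3 := Real.one_sub_inv_le_log_of_pos hx
    have h4 : x⁻¹ - 1 ≤ 2 * (1 - x) := by
      rw [sub_le_iff_le_add, inv_le_iff_one_le_mul₀ hx]
      nlinarith
    linarith
  have hlog1 : |Real.log x| ≤ 1 := by linarith
  have h5 := Complex.norm_exp_sub_sum_le_norm_mul_exp (Complex.log x * p) 1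
  simp only [Finset.range_one, Finset.sum_singleton, pow_zero, Nat.factorial_zero, Nat.cast_one,
    div_one, pow_one] at h5
  rw [Complex.cpow_def_of_ne_zero hxc]
  have h6 : ‖Complex.log x * p‖ = |Real.log x| * ‖p‖ := by
    rw [norm_mul, ← Complex.ofReal_log hx.le, Complex.norm_real, Real.norm_eq_abs]
  rw [h6] at h5
  refine h5.trans ?_
  have h7 : Real.exp (|Real.log x| * ‖p‖) ≤ Real.exp ‖p‖ := by
    apply Real.exp_le_exp.mpr
    nlinarith [norm_nonneg p]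
  calc |Real.log x| * ‖p‖ * Real.exp (|Real.log x| * ‖p‖)
      ≤ (2 * (1 - x)) * ‖p‖ * Real.exp ‖p‖ := by
        gcongr
    _ = _ := by ring

theorem measurable_cpow_real (p : ℂ) : Measurable (fun x : ℝ => (x : ℂ) ^ p) := by
  fun_prop

theorem integrableOn_gq {p q : ℂ} (hp : -1 < p.re) (hq : -1 < q.re) :
    IntegrableOn (gq p q) (Ioo 0 1) := by
  set C : ℝ := 2 * ‖p‖ * Real.exp ‖p‖ + 2 * ‖q‖ * Real.exp ‖q‖ with hC
  have hC0 : 0 ≤ C := by positivity
  have h1 : IntegrableOn (fun x : ℝ => 2 * (x ^ p.re + x ^ q.re) + C) (Ioo 0 1) := by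
    refine Integrable.add (Integrable.const_mul (Integrable.add ?_ ?_) 2) ?_
    · exact (intervalIntegral.integrableOn_Ioo_rpow_iff one_pos).mpr hp
    · exact (intervalIntegral.integrableOn_Ioo_rpow_iff one_pos).mpr hq
    · exact integrableOn_const (by simp)
  refine Integrable.mono' h1 ?_ ?_
  · refine Measurable.aestronglyMeasurable ?_
    unfold gq
    exact ((measurable_cpow_real p).sub (measurable_cpow_real q)).div
      (measurable_const.sub Complex.measurable_ofReal)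
  · refine (ae_restrict_iff' measurableSet_Ioo).mpr (ae_of_all _ fun x hx => ?_)
    obtain ⟨hx0, hx1⟩ := hx
    have hn : ‖1 - (x : ℂ)‖ = 1 - x := by
      rw [show (1 - (x : ℂ)) = ((1 - x : ℝ) : ℂ) by push_cast; ring, Complex.norm_real,
        Real.norm_eq_abs, abs_of_pos (by linarith)]
    have e1 := Real.rpow_nonneg hx0.le p.re
    have e2 := Real.rpow_nonneg hx0.le q.re
    unfold gq
    rw [norm_div, hn, div_le_iff₀ (by linarith)]
    rcases lt_or_ge x (1 / 2) with h | h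
    · calc ‖(x : ℂ) ^ p - (x : ℂ) ^ q‖ ≤ ‖(x : ℂ) ^ p‖ + ‖(x : ℂ) ^ q‖ := norm_sub_le _ _
        _ = x ^ p.re + x ^ q.re := by
          rw [Complex.norm_cpow_eq_rpow_re_of_pos hx0, Complex.norm_cpow_eq_rpow_re_of_pos hx0]
        _ ≤ (2 * (x ^ p.re + x ^ q.re) + C) * (1 - x) := by nlinarith
    · have h3 := norm_cpow_sub_one_le p h hx1
      have h4 := norm_cpow_sub_one_le q h hx1
      calc ‖(x : ℂ) ^ p - (x : ℂ) ^ q‖ = ‖((x : ℂ) ^ p - 1) - ((x : ℂ) ^ q - 1)‖ := by ring_nf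
        _ ≤ ‖(x : ℂ) ^ p - 1‖ + ‖(x : ℂ) ^ q - 1‖ := norm_sub_le _ _
        _ ≤ C * (1 - x) := by rw [hC]; linarith
        _ ≤ (2 * (x ^ p.re + x ^ q.re) + C) * (1 - x) := by nlinarith

theorem integral_cpow_Ioo {r : ℂ} (h : -1 < r.re) :
    ∫ x : ℝ in Ioo 0 1, (x : ℂ) ^ r = 1 / (r + 1) := by
  have hr : r + 1 ≠ 0 := by
    intro h0
    have : (r + 1).re = 0 := by rw [h0]; rfl
    simp at this
    linarith
  rw [← integral_Ioc_eq_integral_Ioo, ← intervalIntegral.integral_of_le zero_le_one,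
    integral_cpow (Or.inl h)]
  simp [Complex.zero_cpow hr]

/-- the truncated integrals -/
theorem tendsto_gq {p q : ℂ} (hp : -1 < p.re) (hq : -1 < q.re) :
    Tendsto (fun N : ℕ => ∑ n ∈ Finset.range N, (1 / ((n : ℂ) + 1 + p) - 1 / ((n : ℂ) + 1 + q)))
      atTop (𝓝 (∫ x in Ioo 0 1, gq p q x)) := by
  have h1 : Tendsto (fun N : ℕ => ∫ x : ℝ in Ioo 0 1, gq p q x * (1 - (x : ℂ) ^ N)) atTop
      (𝓝 (∫ x in Ioo 0 1, gq p q x)) := by
    refine tendsto_integral_of_dominated_convergence (fun x => ‖gq p q x‖) ?_ ?_ ?_ ?_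
    · intro N
      refine (integrableOn_gq hp hq).aestronglyMeasurable.mul ?_
      refine Measurable.aestronglyMeasurable ?_
      fun_prop
    · exact (integrableOn_gq hp hq).norm
    · intro N
      refine (ae_restrict_iff' measurableSet_Ioo).mpr (ae_of_all _ fun x hx => ?_)
      rw [norm_mul]
      have h2 : ‖1 - (x : ℂ) ^ N‖ ≤ 1 := by
        have h3 : (1 - (x : ℂ) ^ N) = ((1 - x ^ N : ℝ) : ℂ) := by push_cast; ring
        rw [h3, Complex.norm_real, Real.norm_eq_abs, abs_le]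
        have h4 : 0 ≤ x ^ N := pow_nonneg hx.1.le N
        have h5 : x ^ N ≤ 1 := pow_le_one₀ hx.1.le hx.2.le
        constructor <;> linarith
      calc ‖gq p q x‖ * ‖1 - (x : ℂ) ^ N‖ ≤ ‖gq p q x‖ * 1 := by gcongr
        _ = _ := mul_one _
    · refine (ae_restrict_iff' measurableSet_Ioo).mpr (ae_of_all _ fun x hx => ?_)
      have h2 : Tendsto (fun N : ℕ => (x : ℂ) ^ N) atTop (𝓝 0) := by
        refine tendsto_pow_atTop_nhds_zero_of_norm_lt_one ?_
        rw [Complex.norm_real, Real.norm_eq_abs, abs_of_pos hx.1]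
        exact hx.2
      have h3 := (tendsto_const_nhds (x := gq p q x)).mul
        ((tendsto_const_nhds (x := (1 : ℂ))).sub h2)
      simpa using h3
  refine h1.congr fun N => ?_
  have h2 : ∀ n : ℕ, ∀ r : ℂ, -1 < r.re → -1 < ((n : ℂ) + r).re := by
    intro n r hr
    simp only [Complex.add_re, Complex.natCast_re]
    have : (0 : ℝ) ≤ n := Nat.cast_nonneg n
    linarith
  have h3 : ∀ n : ℕ, 1 / ((n : ℂ) + 1 + p) - 1 / ((n : ℂ) + 1 + q) =
      ∫ x : ℝ in Ioo 0 1, ((x : ℂ) ^ ((n : ℂ) + p) - (x : ℂ) ^ ((n : ℂ) + q)) := by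
    intro n
    rw [integral_sub ((intervalIntegral.integrableOn_Ioo_cpow_iff one_pos).mpr (h2 n p hp))
      ((intervalIntegral.integrableOn_Ioo_cpow_iff one_pos).mpr (h2 n q hq)),
      integral_cpow_Ioo (h2 n p hp), integral_cpow_Ioo (h2 n q hq)]
    congr 2 <;> ring
  rw [Finset.sum_congr rfl fun n _ => h3 n, ← integral_finsetSum]
  · refine setIntegral_congr_fun measurableSet_Ioo fun x hx => ?_
    have hx0 : (x : ℂ) ≠ 0 := by exact_mod_cast hx.1.ne'
    have hx1 : (1 : ℂ) - x ≠ 0 := by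
      rw [sub_ne_zero]
      intro h
      have : (1 : ℝ) = x := by exact_mod_cast h
      exact hx.2.ne' this
    have h4 : ∀ n : ℕ, (x : ℂ) ^ ((n : ℂ) + p) - (x : ℂ) ^ ((n : ℂ) + q) =
        (x : ℂ) ^ n * ((x : ℂ) ^ p - (x : ℂ) ^ q) := by
      intro n
      rw [Complex.cpow_add _ _ hx0, Complex.cpow_add _ _ hx0, Complex.cpow_natCast]
      ring
    simp only [h4]
    rw [← Finset.sum_mul, geom_sum_eq (by
      intro h
      apply hx1
      rw [h]; ring)]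
    unfold gq
    have hx2 : (x : ℂ) - 1 ≠ 0 := by
      rw [← neg_sub]; exact neg_ne_zero.mpr hx1
    field_simp
    ring
  · intro n _
    exact ((intervalIntegral.integrableOn_Ioo_cpow_iff one_pos).mpr (h2 n p hp)).sub
      ((intervalIntegral.integrableOn_Ioo_cpow_iff one_pos).mpr (h2 n q hq))

theorem mem_integerComplement {x : ℂ} (h0 : 0 < x.re) (h1 : x.re < 1) :
    x ∈ Complex.integerComplement := by
  rw [Complex.mem_integerComplement_iff]
  rintro ⟨n, hn⟩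
  have : (n : ℝ) = x.re := by
    rw [← hn]; simp
  rw [← this] at h0 h1
  have h2 : (0 : ℤ) < n := by exact_mod_cast h0
  have h3 : n < (1 : ℤ) := by exact_mod_cast h1
  omega

/-- the cotangent series in truncated form -/
theorem tendsto_cot {x : ℂ} (h0 : 0 < x.re) (h1 : x.re < 1) :
    Tendsto (fun N : ℕ => ∑ n ∈ Finset.range N, (1 / ((n : ℂ) + x) - 1 / ((n : ℂ) + 1 - x)))
      atTop (𝓝 (Real.pi * Complex.cot (Real.pi * x))) := by
  have hx := mem_integerComplement h0 h1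
  have h2 := tendsto_logDeriv_euler_cot_sub hx
  have h3 : Tendsto (fun N : ℕ => 1 / x - 1 / (x + N)) atTop (𝓝 (1 / x - 0)) := by
    refine tendsto_const_nhds.sub ?_
    have h4 : Tendsto (fun N : ℕ => ‖x + (N : ℂ)‖) atTop atTop := by
      refine tendsto_atTop_mono (fun N => ?_) tendsto_natCast_atTop_atTop
      calc (N : ℝ) ≤ (x + N).re := by simp; linarith
        _ ≤ |(x + N).re| := le_abs_self _
        _ ≤ ‖x + (N : ℂ)‖ := Complex.abs_re_le_norm _
    rw [tendsto_zero_iff_norm_tendsto_zero]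
    simp only [one_div, norm_inv]
    exact tendsto_inv_atTop_zero.comp h4
  have h5 := h2.add h3
  have h6 : ↑Real.pi * Complex.cot (↑Real.pi * x) - 1 / x + (1 / x - 0) =
      ↑Real.pi * Complex.cot (↑Real.pi * x) := by ring
  rw [h6] at h5
  refine h5.congr fun N => ?_
  induction N with
  | zero => simp
  | succ N ih =>
    rw [Finset.sum_range_succ, Finset.sum_range_succ, ← ih]
    have e1 : (N : ℂ) + x = x + N := by ring
    have e2 : x - ((N : ℂ) + 1) = -((N : ℂ) + 1 - x) := by ring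
    simp only [cotTerm, e1, e2, Nat.cast_add, Nat.cast_one]
    rw [div_neg]
    ring

/-- the kernel -/
noncomputable def ker (s₁ s₀ : ℂ) (y : ℝ) : ℂ :=
  ((y : ℂ) ^ (s₁ - 1) - (y : ℂ) ^ (s₀ - 1)) / ((y : ℂ) - 1)

theorem ker_inv (s₁ s₀ : ℂ) {x : ℝ} (h0 : 0 < x) (h1 : x < 1) :
    |-(x ^ 2)⁻¹| • ker s₁ s₀ x⁻¹ = gq (-s₁) (-s₀) x := by
  have hx0 : (x : ℂ) ≠ 0 := by exact_mod_cast h0.ne'
  have hx1 : (1 : ℂ) - x ≠ 0 := by
    rw [sub_ne_zero]
    intro h
    have : (1 : ℝ) = x := by exact_mod_cast h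
    exact h1.ne' this
  rw [abs_neg, abs_of_pos (by positivity)]
  unfold ker gq
  have h2 : ∀ s : ℂ, ((x⁻¹ : ℝ) : ℂ) ^ (s - 1) = (x : ℂ) ^ (-s) * x := by
    intro s
    rw [Complex.ofReal_inv, Complex.inv_cpow _ _ (by
      rw [Complex.arg_ofReal_of_nonneg h0.le]; exact Real.pi_pos.ne), ← Complex.cpow_neg,
      show -(s - 1) = -s + 1 by ring, Complex.cpow_add _ _ hx0, Complex.cpow_one]
  rw [h2, h2, Complex.real_smul]
  push_cast
  have h3 : ((x : ℂ)⁻¹ - 1) ≠ 0 := by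
    intro h
    apply hx1
    have : (x : ℂ)⁻¹ = 1 := by linear_combination h
    rw [inv_eq_one] at this
    rw [this]; ring
  field_simp

theorem image_inv_Ioo : (fun x : ℝ => x⁻¹) '' Ioo 0 1 = Ioi 1 := by
  ext y
  constructor
  · rintro ⟨x, ⟨h0, h1⟩, rfl⟩
    exact (one_lt_inv₀ h0).mpr h1
  · intro hy
    have hy' : (1 : ℝ) < y := hy
    exact ⟨y⁻¹, ⟨by positivity, inv_lt_one_of_one_lt₀ hy'⟩, inv_inv y⟩

theorem ker_lt_one (s₁ s₀ : ℂ) (x : ℝ) : ker s₁ s₀ x = gq (s₀ - 1) (s₁ - 1) x := by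
  unfold ker gq
  rw [← neg_div_neg_eq]
  congr 1 <;> ring

theorem ker_integral {s₁ s₀ : ℂ} (h1 : 0 < s₁.re) (h1' : s₁.re < 1) (h0 : 0 < s₀.re)
    (h0' : s₀.re < 1) :
    IntegrableOn (ker s₁ s₀) (Ioi 0) ∧
      ∫ y in Ioi 0, ker s₁ s₀ y = Real.pi * Complex.cot (Real.pi * s₀) -
        Real.pi * Complex.cot (Real.pi * s₁) := by
  have hd : ∀ x ∈ Ioo (0 : ℝ) 1, HasDerivWithinAt (fun x : ℝ => x⁻¹) (-(x ^ 2)⁻¹) (Ioo 0 1) x :=
    fun x hx => (hasDerivAt_inv hx.1.ne').hasDerivWithinAt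
  have hinj : InjOn (fun x : ℝ => x⁻¹) (Ioo 0 1) := inv_injective.injOn
  have e1 : -1 < (-s₁).re := by simp; linarith
  have e2 : -1 < (-s₀).re := by simp; linarith
  have e3 : -1 < (s₀ - 1).re := by simp; linarith
  have e4 : -1 < (s₁ - 1).re := by simp; linarith
  have i1 : IntegrableOn (ker s₁ s₀) (Ioi 1) := by
    rw [← image_inv_Ioo, integrableOn_image_iff_integrableOn_abs_deriv_smul measurableSet_Ioo hd
      hinj]
    exact (integrableOn_gq e1 e2).congr_fun (fun x hx => (ker_inv s₁ s₀ hx.1 hx.2).symm)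
      measurableSet_Ioo
  have i2 : IntegrableOn (ker s₁ s₀) (Ioo 0 1) :=
    (integrableOn_gq e3 e4).congr_fun (fun x _ => (ker_lt_one s₁ s₀ x).symm) measurableSet_Ioo
  have i3 : IntegrableOn (ker s₁ s₀) (Ioc 0 1) := by
    rwa [integrableOn_Ioc_iff_integrableOn_Ioo]
  have hU : Ioi (0 : ℝ) = Ioc 0 1 ∪ Ioi 1 := (Ioc_union_Ioi_eq_Ioi zero_le_one).symm
  have hdisj : Disjoint (Ioc (0 : ℝ) 1) (Ioi 1) := by
    rw [Set.disjoint_left]
    intro x hx hx'
    exact absurd hx.2 (not_le.mpr hx')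
  refine ⟨by rw [hU]; exact i3.union i1, ?_⟩
  rw [hU, setIntegral_union hdisj measurableSet_Ioi i3 i1, integral_Ioc_eq_integral_Ioo,
    ← image_inv_Ioo, integral_image_eq_integral_abs_deriv_smul measurableSet_Ioo hd hinj,
    setIntegral_congr_fun measurableSet_Ioo (fun x hx => ker_inv s₁ s₀ hx.1 hx.2),
    setIntegral_congr_fun measurableSet_Ioo (fun x _ => ker_lt_one s₁ s₀ x)]
  have t1 := (tendsto_gq e3 e4).add (tendsto_gq e1 e2)
  have t2 := (tendsto_cot h0 h0').sub (tendsto_cot h1 h1')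
  refine tendsto_nhds_unique t1 (t2.congr fun N => ?_)
  rw [← Finset.sum_sub_distrib, ← Finset.sum_add_distrib]
  refine Finset.sum_congr rfl fun n _ => ?_
  rw [show (n : ℂ) + 1 + (s₀ - 1) = n + s₀ by ring, show (n : ℂ) + 1 + (s₁ - 1) = n + s₁ by ring,
    show (n : ℂ) + 1 + -s₁ = n + 1 - s₁ by ring, show (n : ℂ) + 1 + -s₀ = n + 1 - s₀ by ring]
  ring

/-- the kernel with `y = x^p` -/
theorem ker_pow {p : ℝ} (hp : 0 < p) {s₁ s₀ : ℂ} (h1 : 0 < s₁.re) (h1' : s₁.re < 1)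
    (h0 : 0 < s₀.re) (h0' : s₀.re < 1) :
    IntegrableOn (fun x : ℝ => ((x : ℂ) ^ (p * s₁ - 1) - (x : ℂ) ^ (p * s₀ - 1)) /
        ((x : ℂ) ^ (p : ℂ) - 1)) (Ioi 0) ∧
      ∫ x : ℝ in Ioi 0, ((x : ℂ) ^ (p * s₁ - 1) - (x : ℂ) ^ (p * s₀ - 1)) /
        ((x : ℂ) ^ (p : ℂ) - 1) = Real.pi / p * (Complex.cot (Real.pi * s₀) -
        Complex.cot (Real.pi * s₁)) := by
  obtain ⟨i, e⟩ := ker_integral h1 h1' h0 h0'
  have hpc : (p : ℂ) ≠ 0 := by exact_mod_cast hp.ne'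
  have h2 : ∀ x ∈ Ioi (0 : ℝ), (|p| * x ^ (p - 1)) • ker s₁ s₀ (x ^ p) =
      (p : ℂ) * (((x : ℂ) ^ (p * s₁ - 1) - (x : ℂ) ^ (p * s₀ - 1)) /
        ((x : ℂ) ^ (p : ℂ) - 1)) := by
    intro x hx
    have hx' : (0 : ℝ) < x := hx
    have hx0 : (x : ℂ) ≠ 0 := by exact_mod_cast hx'.ne'
    have h3 : ∀ s : ℂ, ((x ^ p : ℝ) : ℂ) ^ (s - 1) * ((x ^ (p - 1) : ℝ) : ℂ) =
        (x : ℂ) ^ (p * s - 1) := by
      intro s
      have e5 : ((x ^ p : ℝ) : ℂ) = Complex.exp ((p * Real.log x : ℝ) : ℂ) := by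
        rw [← Complex.ofReal_exp, Real.rpow_def_of_pos hx', mul_comm p]
      have e6 : ((x ^ (p - 1) : ℝ) : ℂ) = Complex.exp (((p - 1) * Real.log x : ℝ) : ℂ) := by
        rw [← Complex.ofReal_exp, Real.rpow_def_of_pos hx', mul_comm (p - 1)]
      have e7 : Complex.log ((x ^ p : ℝ) : ℂ) = ((p * Real.log x : ℝ) : ℂ) := by
        rw [← Complex.ofReal_log (Real.rpow_nonneg hx'.le p), Real.log_rpow hx']
      have e8 : ((x ^ p : ℝ) : ℂ) ≠ 0 := by
        exact_mod_cast (Real.rpow_pos_of_pos hx' p).ne'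
      rw [Complex.cpow_def_of_ne_zero e8, Complex.cpow_def_of_ne_zero hx0, e6, e7,
        ← Complex.exp_add, ← Complex.ofReal_log hx'.le]
      congr 1
      push_cast
      ring
    rw [abs_of_pos hp, Complex.real_smul]
    unfold ker
    have h4 : ((x ^ p : ℝ) : ℂ) = (x : ℂ) ^ (p : ℂ) := Complex.ofReal_cpow hx'.le p
    rw [← h3 s₁, ← h3 s₀, ← h4]
    push_cast
    ring
  constructor
  · have h3 := (integrableOn_Ioi_comp_rpow_iff (ker s₁ s₀) hp.ne').mpr i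
    have h4 := h3.congr_fun h2 measurableSet_Ioi
    exact ((integrable_const_mul_iff (IsUnit.mk0 _ hpc) _).mp h4)
  · have h3 := integral_comp_rpow_Ioi (ker s₁ s₀) hp.ne'
    rw [setIntegral_congr_fun measurableSet_Ioi h2, integral_const_mul, e] at h3
    rw [div_mul_eq_mul_div, eq_div_iff hpc]
    linear_combination h3

end Pool.Agent.Lib_helper33.QH
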