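import Mathlib
import Pool.Agent.Lib_helper33.QH.Chi

/-!
# The characters determine the signed measures `∫ H 1_{Z ∈ ·}`
-/

set_option autoImplicit false

open MeasureTheory Filter Topology
open scoped ENNReal

namespace Pool.Agent.Lib_helper33.QH

variable {Ω : Type*} [mΩ : MeasurableSpace Ω] {P : Measure Ω}

/-- the integral of `g` against the difference of the positive and negative parts -/
theorem integral_parts {H : Ω → ℝ} (hHm : Measurable H) (hHi : Integrable H P) {g : Ω → ℂ}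
    (hgm : Measurable g) (hg : ∀ ω, ‖g ω‖ ≤ 1) :
    ∫ ω, g ω ∂(P.withDensity fun ω => ENNReal.ofReal (H ω)) -
      ∫ ω, g ω ∂(P.withDensity fun ω => ENNReal.ofReal (-H ω)) = ∫ ω, g ω * (H ω : ℂ) ∂P := by
  have hneg : Measurable (fun ω => ENNReal.ofReal (-H ω)) := hHm.neg.ennreal_ofReal
  rw [integral_withDensity_eq_integral_toReal_smul hHm.ennreal_ofReal
      (ae_of_all _ fun _ => ENNReal.ofReal_lt_top),
    integral_withDensity_eq_integral_toReal_smul hneg
      (ae_of_all _ fun _ => ENNReal.ofReal_lt_top)]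
  have hb : ∀ (K : Ω → ℝ), Measurable K → Integrable K P →
      Integrable (fun ω => (ENNReal.ofReal (K ω)).toReal • g ω) P := by
    intro K hKm hKi
    refine Integrable.mono' hKi.norm
      ((hKm.ennreal_ofReal.ennreal_toReal).smul hgm).aestronglyMeasurable ?_
    refine ae_of_all _ fun ω => ?_
    rw [norm_smul, Real.norm_of_nonneg ENNReal.toReal_nonneg, Real.norm_eq_abs]
    have h1 : (ENNReal.ofReal (K ω)).toReal ≤ |K ω| := by
      rcases le_or_gt 0 (K ω) with h | h
      · rw [ENNReal.toReal_ofReal h]; exact le_abs_self _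
      · rw [ENNReal.ofReal_of_nonpos h.le]; simp
    calc (ENNReal.ofReal (K ω)).toReal * ‖g ω‖ ≤ |K ω| * 1 :=
          mul_le_mul h1 (hg ω) (norm_nonneg _) (abs_nonneg _)
      _ = |K ω| := mul_one _
  have h2 := integral_sub (hb H hHm hHi) (hb (fun ω => -H ω) hHm.neg hHi.neg)
  rw [← h2]
  refine integral_congr_ae (ae_of_all _ fun ω => ?_)
  simp only
  rcases le_or_gt 0 (H ω) with h | h
  · rw [ENNReal.toReal_ofReal h, ENNReal.ofReal_of_nonpos (by linarith : -H ω ≤ 0)]
    simp [mul_comm]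
  · rw [ENNReal.ofReal_of_nonpos h.le, ENNReal.toReal_ofReal (by linarith : 0 ≤ -H ω)]
    simp [mul_comm]

/-- the vector `(log |Z_j|, 1_{Z_j < 0})_j` -/
noncomputable def vec {J : Type} [Fintype J] (z : J → ℝ) : EuclideanSpace ℝ (J ⊕ J) :=
  WithLp.toLp 2 (Sum.elim (fun j => Real.log (z j)) (fun j => if z j < 0 then (1 : ℝ) else 0))

theorem measurable_vec {J : Type} [Fintype J] {Z : J → Ω → ℝ} (hZ : ∀ j, Measurable (Z j)) :
    Measurable (fun ω => vec (fun j => Z j ω)) := by
  unfold vec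
  refine (MeasurableEquiv.toLp 2 (J ⊕ J → ℝ)).measurable.comp (measurable_pi_iff.mpr fun a => ?_)
  rcases a with j | j
  · exact Real.measurable_log.comp (hZ j)
  · exact Measurable.ite ((hZ j) measurableSet_Iio) measurable_const measurable_const

/-- expansion of a unitary character of the vector in terms of the characters `chi` -/
theorem exp_vec {J : Type} [Fintype J] [DecidableEq J] (ξ : EuclideanSpace ℝ (J ⊕ J)) :
    ∃ c : (J → Fin 2) → ℂ, ∀ z : J → ℝ,
      Complex.exp (((inner ℝ (vec z) ξ : ℝ) : ℂ) * Complex.I) =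
        ∑ x : J → Fin 2, c x * ∏ j, chi (ξ (Sum.inl j)) (x j : ℕ) (z j) := by
  set a : J → Fin 2 → ℂ := fun j x => if x = 0 then
    (1 + Complex.exp ((ξ (Sum.inr j) : ℂ) * Complex.I)) / 2 else
    (1 - Complex.exp ((ξ (Sum.inr j) : ℂ) * Complex.I)) / 2 with ha
  refine ⟨fun x => ∏ j, a j (x j), fun z => ?_⟩
  have h1 : (inner ℝ (vec z) ξ : ℝ) = (∑ j, Real.log (z j) * ξ (Sum.inl j)) +
      ∑ j, (if z j < 0 then (1 : ℝ) else 0) * ξ (Sum.inr j) := by
    rw [PiLp.inner_apply, Fintype.sum_sum_type]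
    congr 1
    · refine Finset.sum_congr rfl fun j _ => ?_
      simp [vec, mul_comm]
    · refine Finset.sum_congr rfl fun j _ => ?_
      simp [vec, mul_comm]
  have h2 : ∀ j, Complex.exp (((Real.log (z j) * ξ (Sum.inl j) : ℝ) : ℂ) * Complex.I) *
      Complex.exp ((((if z j < 0 then (1 : ℝ) else 0) * ξ (Sum.inr j) : ℝ) : ℂ) * Complex.I) =
      ∑ x : Fin 2, a j x * chi (ξ (Sum.inl j)) (x : ℕ) (z j) := by
    intro j
    rw [Fin.sum_univ_two]
    have e0 : chi (ξ (Sum.inl j)) ((0 : Fin 2) : ℕ) (z j) =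
        Complex.exp (((Real.log (z j) * ξ (Sum.inl j) : ℝ) : ℂ) * Complex.I) := by
      unfold chi; simp [mul_comm]
    have e1 : chi (ξ (Sum.inl j)) ((1 : Fin 2) : ℕ) (z j) =
        Complex.exp (((Real.log (z j) * ξ (Sum.inl j) : ℝ) : ℂ) * Complex.I) * (sg (z j) : ℂ) := by
      unfold chi; simp [mul_comm]
    rw [e0, e1]
    simp only [ha, if_true]
    have : (1 : Fin 2) ≠ 0 := by decide
    simp only [this, if_false]
    by_cases hz : z j < 0
    · rw [sg_of_neg hz, if_pos hz]; push_cast; ring_nf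
    · have : sg (z j) = 1 := by unfold sg; rw [if_neg hz]
      rw [this, if_neg hz]; push_cast; ring_nf
      simp
  rw [h1]
  push_cast
  rw [add_mul, Complex.exp_add, Finset.sum_mul, Finset.sum_mul, Complex.exp_sum, Complex.exp_sum,
    ← Finset.prod_mul_distrib]
  have h3 : ∏ j, (Complex.exp ((Real.log (z j) : ℂ) * (ξ (Sum.inl j) : ℂ) * Complex.I) *
      Complex.exp ((((if z j < 0 then (1 : ℝ) else 0 : ℝ) : ℂ)) * (ξ (Sum.inr j) : ℂ) *
        Complex.I)) =
      ∏ j, ∑ x : Fin 2, a j x * chi (ξ (Sum.inl j)) (x : ℕ) (z j) := by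
    refine Finset.prod_congr rfl fun j _ => ?_
    rw [← h2 j]
    push_cast
    rfl
  have h4 := Finset.prod_univ_sum (fun _ : J => (Finset.univ : Finset (Fin 2)))
    (fun j x => a j x * chi (ξ (Sum.inl j)) (x : ℕ) (z j))
  rw [Fintype.piFinset_univ] at h4
  have h5 : ∑ x : J → Fin 2, (∏ j, a j (x j)) * ∏ j, chi (ξ (Sum.inl j)) (x j : ℕ) (z j) =
      ∑ x : J → Fin 2, ∏ j, a j (x j) * chi (ξ (Sum.inl j)) (x j : ℕ) (z j) := by
    refine Finset.sum_congr rfl fun x _ => ?_
    rw [Finset.prod_mul_distrib]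
  rw [h5, ← h4, ← h3]

/-- finite-dimensional version -/
theorem det_finite {J : Type} [Fintype J] {Z : J → Ω → ℝ} (hZ : ∀ j, Measurable (Z j))
    (hne : ∀ j, ∀ᵐ ω ∂P, Z j ω ≠ 0) {H : Ω → ℝ} (hHm : Measurable H) (hHi : Integrable H P)
    (h0 : ∀ (y : J → ℝ) (e : J → ℕ), ∫ ω, (∏ j, chi (y j) (e j) (Z j ω)) * (H ω : ℂ) ∂P = 0)
    (B : J → Set ℝ) (hB : ∀ j, MeasurableSet (B j)) :
    ∫ ω in (⋂ j, Z j ⁻¹' (B j)), H ω ∂P = 0 := by
  classical
  set V : Ω → EuclideanSpace ℝ (J ⊕ J) := fun ω => vec (fun j => Z j ω) with hV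
  have hVm : Measurable V := measurable_vec hZ
  set μ₁ := (P.withDensity fun ω => ENNReal.ofReal (H ω)) with hμ₁
  set μ₂ := (P.withDensity fun ω => ENNReal.ofReal (-H ω)) with hμ₂
  have hfin1 : IsFiniteMeasure μ₁ := by
    refine isFiniteMeasure_withDensity ?_
    exact hHi.lintegral_lt_top.ne
  have hfin2 : IsFiniteMeasure μ₂ := by
    refine isFiniteMeasure_withDensity ?_
    exact hHi.neg.lintegral_lt_top.ne
  have hmap : μ₁.map V = μ₂.map V := by
    have i1 : IsFiniteMeasure (μ₁.map V) := Measure.isFiniteMeasure_map _ _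
    have i2 : IsFiniteMeasure (μ₂.map V) := Measure.isFiniteMeasure_map _ _
    refine Measure.ext_of_charFun ?_
    ext ξ
    have hem : Measurable (fun x : EuclideanSpace ℝ (J ⊕ J) =>
        Complex.exp (((inner ℝ x ξ : ℝ) : ℂ) * Complex.I)) := by fun_prop
    have hcomp : Measurable (fun ω => Complex.exp (((inner ℝ (V ω) ξ : ℝ) : ℂ) * Complex.I)) :=
      hem.comp hVm
    rw [charFun_apply, charFun_apply, integral_map hVm.aemeasurable hem.aestronglyMeasurable,
      integral_map hVm.aemeasurable hem.aestronglyMeasurable, ← sub_eq_zero, hμ₁, hμ₂,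
      integral_parts hHm hHi hcomp (fun ω => by
        rw [Complex.norm_exp_ofReal_mul_I])]
    obtain ⟨c, hc⟩ := exp_vec ξ
    have e1 : ∀ ω, Complex.exp (((inner ℝ (V ω) ξ : ℝ) : ℂ) * Complex.I) * (H ω : ℂ) =
        ∑ x : J → Fin 2, c x * ((∏ j, chi (ξ (Sum.inl j)) (x j : ℕ) (Z j ω)) * (H ω : ℂ)) := by
      intro ω
      simp only [hV]
      rw [hc, Finset.sum_mul]
      exact Finset.sum_congr rfl fun x _ => by ring
    simp_rw [e1]
    rw [integral_finsetSum]
    · refine Finset.sum_eq_zero fun x _ => ?_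
      rw [integral_const_mul, h0, mul_zero]
    · intro x _
      refine Integrable.const_mul ?_ _
      refine Integrable.mono' hHi.norm ?_ ?_
      · exact ((Finset.measurable_prod _ fun j _ => (measurable_chi _ _).comp (hZ j)).mul
          (Complex.measurable_ofReal.comp hHm)).aestronglyMeasurable
      · refine ae_of_all _ fun ω => ?_
        rw [norm_mul, norm_prod, Complex.norm_real]
        simp [norm_chi]
  -- the set in the Euclidean space
  set G : Set (EuclideanSpace ℝ (J ⊕ J)) :=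
    ⋂ j, {x | (1 - 2 * x (Sum.inr j)) * Real.exp (x (Sum.inl j)) ∈ B j} with hG
  have hGm : MeasurableSet G := by
    refine MeasurableSet.iInter fun j => ?_
    have : Measurable (fun x : EuclideanSpace ℝ (J ⊕ J) =>
        (1 - 2 * x (Sum.inr j)) * Real.exp (x (Sum.inl j))) := by fun_prop
    exact this (hB j)
  have hset : (⋂ j, Z j ⁻¹' (B j) : Set Ω) =ᵐ[P] V ⁻¹' G := by
    filter_upwards [ae_all_iff.mpr hne] with ω hω
    have h1 : ∀ j, (1 - 2 * V ω (Sum.inr j)) * Real.exp (V ω (Sum.inl j)) = Z j ω := by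
      intro j
      simp only [hV, vec]
      change (1 - 2 * (if Z j ω < 0 then (1 : ℝ) else 0)) * Real.exp (Real.log (Z j ω)) = Z j ω
      rcases lt_or_gt_of_ne (hω j) with h | h
      · rw [if_pos h, Real.exp_log_of_neg h]; ring
      · rw [if_neg (not_lt.mpr h.le), Real.exp_log h]; ring
    have h2 : (ω ∈ (⋂ j, Z j ⁻¹' (B j) : Set Ω)) ↔ ω ∈ V ⁻¹' G := by
      simp only [hG, Set.mem_iInter, Set.mem_preimage, Set.mem_ofPred_eq, h1]
    exact propext h2
  rw [setIntegral_congr_set hset]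
  have hGV : MeasurableSet (V ⁻¹' G) := hVm hGm
  have h2 := integral_parts (P := P) hHm hHi (g := (V ⁻¹' G).indicator fun _ => (1 : ℂ))
    (measurable_const.indicator hGV) (fun ω => by
      by_cases h : ω ∈ V ⁻¹' G
      · rw [Set.indicator_of_mem h, norm_one]
      · rw [Set.indicator_of_notMem h, norm_zero]; exact zero_le_one)
  rw [← hμ₁, ← hμ₂, integral_indicator_const _ hGV, integral_indicator_const _ hGV] at h2
  have h3 : μ₁ (V ⁻¹' G) = μ₂ (V ⁻¹' G) := by
    rw [← Measure.map_apply hVm hGm, ← Measure.map_apply hVm hGm, hmap]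
  have h4 : μ₁.real (V ⁻¹' G) = μ₂.real (V ⁻¹' G) := by rw [Measure.real, Measure.real, h3]
  rw [h4, sub_self] at h2
  have h5 : ∫ ω, ((V ⁻¹' G).indicator (fun _ => (1 : ℂ)) ω) * (H ω : ℂ) ∂P =
      ((∫ ω in V ⁻¹' G, H ω ∂P : ℝ) : ℂ) := by
    rw [← integral_complex_ofReal, ← integral_indicator hGV]
    refine integral_congr_ae (ae_of_all _ fun ω => ?_)
    simp only
    by_cases h : ω ∈ V ⁻¹' G
    · rw [Set.indicator_of_mem h, Set.indicator_of_mem h, one_mul]
    · rw [Set.indicator_of_notMem h, Set.indicator_of_notMem h, zero_mul]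
  rw [h5] at h2
  exact_mod_cast h2.symm

/-- the characters of finitely many members of a family determine the signed measure on the
σ-algebra generated by the family -/
theorem det_family {κ : Type} {S : Set κ} {Z : κ → Ω → ℝ} (hZ : ∀ j, Measurable (Z j))
    (hne : ∀ j ∈ S, ∀ᵐ ω ∂P, Z j ω ≠ 0) {H : Ω → ℝ} (hHm : Measurable H) (hHi : Integrable H P)
    (h0 : ∀ (J : Finset κ), (↑J ⊆ S) → ∀ (y : J → ℝ) (e : J → ℕ),
      ∫ ω, (∏ j, chi (y j) (e j) (Z j ω)) * (H ω : ℂ) ∂P = 0)
    {A : Set Ω} (hA : MeasurableSet[⨆ j ∈ S, MeasurableSpace.comap (Z j) inferInstance] A) :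
    ∫ ω in A, H ω ∂P = 0 := by
  classical
  have hle : (⨆ j ∈ S, MeasurableSpace.comap (Z j) inferInstance) ≤ mΩ :=
    iSup₂_le fun j _ => (hZ j).comap_le
  have hbasic : ∀ t ∈ piiUnionInter
      (fun j => {s | MeasurableSet[MeasurableSpace.comap (Z j) inferInstance] s}) S,
      ∫ ω in t, H ω ∂P = 0 := by
    rintro t ⟨J, hJ, f, hf, rfl⟩
    have h1 : ∀ j : J, ∃ B : Set ℝ, MeasurableSet B ∧ Z j ⁻¹' B = f j := by
      intro j
      obtain ⟨B, hB, hB'⟩ := hf j j.2
      exact ⟨B, hB, hB'⟩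
    choose B hB hB' using h1
    have h2 : (⋂ x ∈ J, f x) = ⋂ j : J, Z j ⁻¹' (B j) := by
      rw [Set.iInter_subtype]
      refine Set.iInter_congr fun j => Set.iInter_congr fun hj => ?_
      exact (hB' ⟨j, hj⟩).symm
    rw [h2]
    exact det_finite (Z := fun j : J => Z j) (fun j => hZ j) (fun j => hne j (hJ j.2)) hHm hHi
      (fun y e => h0 J hJ y e) B hB
  have huniv : ∫ ω, H ω ∂P = 0 := by
    have := hbasic Set.univ ⟨∅, by simp, fun _ => Set.univ, by simp, by simp⟩
    rwa [setIntegral_univ] at this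
  refine MeasurableSpace.induction_on_inter
    (C := fun t _ => ∫ ω in t, H ω ∂P = 0)
    (generateFrom_piiUnionInter_measurableSet (fun j => MeasurableSpace.comap (Z j) inferInstance)
      S).symm
    (isPiSystem_piiUnionInter _ (fun j => @MeasurableSpace.isPiSystem_measurableSet Ω
      (MeasurableSpace.comap (Z j) inferInstance)) S) ?_ hbasic ?_ ?_ A hA
  · simp
  · intro t htm ht
    have h3 := integral_add_compl (hle t htm) hHi
    rw [ht, huniv, zero_add] at h3
    exact h3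
  · intro f hd hfm hf
    rw [integral_iUnion (fun i => hle _ (hfm i)) hd hHi.integrableOn]
    simp [hf]

end Pool.Agent.Lib_helper33.QH
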