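import Mathlib

/-!
# Quadratic harnesses and Markov processes

The definitions of the problem MP_b61be4_pr.  The time set is `[0, ∞)`, as the type `ℝ≥0`.
-/

set_option autoImplicit false

open MeasureTheory
open scoped NNReal

namespace Pool.Agent.Lib_helper33.QH

variable {Ω : Type*}

/-- the σ-algebra `σ(X_r : r ∈ S)` generated by the variables with index in `S` -/
@[reducible] def sigmaOf (X : ℝ≥0 → Ω → ℝ) (S : Set ℝ≥0) : MeasurableSpace Ω :=
  ⨆ r ∈ S, MeasurableSpace.comap (X r) (inferInstance : MeasurableSpace ℝ)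

/-- the σ-algebra `𝓕_{s,u} = σ(X_r : r ∈ [0, s] ∪ [u, ∞))` -/
@[reducible] def outer (X : ℝ≥0 → Ω → ℝ) (s u : ℝ≥0) : MeasurableSpace Ω :=
  sigmaOf X (Set.Iic s ∪ Set.Ici u)

/-- `N = u (1 + σ s) + τ - q s` -/
noncomputable def coefN (σ τ q s u : ℝ) : ℝ := u * (1 + σ * s) + τ - q * s

/-- the coefficient `A` -/
noncomputable def coefA (σ τ q s t u : ℝ) : ℝ :=
  (u - t) * (u * (1 + σ * t) + τ - q * t) / ((u - s) * coefN σ τ q s u)

/-- the coefficient `B` -/
noncomputable def coefB (σ τ q s t u : ℝ) : ℝ :=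
  (u - t) * (t - s) * (1 + q) / ((u - s) * coefN σ τ q s u)

/-- the coefficient `C` -/
noncomputable def coefC (σ τ q s t u : ℝ) : ℝ :=
  (t - s) * (t * (1 + σ * s) + τ - q * s) / ((u - s) * coefN σ τ q s u)

/-- the coefficient `D` -/
noncomputable def coefD (σ τ θ η q s t u : ℝ) : ℝ :=
  (u - t) * (t - s) * (u * η - θ) / ((u - s) * coefN σ τ q s u)

/-- the coefficient `E` -/
noncomputable def coefE (σ τ θ η q s t u : ℝ) : ℝ :=
  (u - t) * (t - s) * (θ - s * η) / ((u - s) * coefN σ τ q s u)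

/-- the coefficient `F` -/
noncomputable def coefF (σ τ q s t u : ℝ) : ℝ :=
  (u - t) * (t - s) / coefN σ τ q s u

/-- `X` is a quadratic harness with parameters `(σ, τ, θ, η, q)` under the probability `P` -/
structure IsQuadraticHarness [MeasurableSpace Ω] (P : Measure Ω) (X : ℝ≥0 → Ω → ℝ)
    (σ τ θ η q : ℝ) : Prop where
  /-- every `X_t` is a random variable -/
  measurable : ∀ t, Measurable (X t)
  /-- square integrability -/
  square_integrable : ∀ t, MemLp (X t) 2 P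
  /-- `X_0 = 0` -/
  zero : ∀ ω, X 0 ω = 0
  /-- `E X_t = 0` -/
  mean : ∀ t, ∫ ω, X t ω ∂P = 0
  /-- `E X_s X_t = min (s, t)` -/
  cov : ∀ s t : ℝ≥0, ∫ ω, X s ω * X t ω ∂P = min (s : ℝ) (t : ℝ)
  /-- the harness condition -/
  harness : ∀ s t u : ℝ≥0, s < t → t < u →
    P[X t | outer X s u] =ᵐ[P] fun ω =>
      ((u : ℝ) - t) / (u - s) * X s ω + ((t : ℝ) - s) / (u - s) * X u ω
  /-- the quadratic condition -/
  quadratic : ∀ s t u : ℝ≥0, s < t → t < u →
    P[fun ω => X t ω ^ 2 | outer X s u] =ᵐ[P] fun ω =>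
      coefA σ τ q s t u * X s ω ^ 2 + coefB σ τ q s t u * (X s ω * X u ω) +
        coefC σ τ q s t u * X u ω ^ 2 + coefD σ τ θ η q s t u * X s ω +
        coefE σ τ θ η q s t u * X u ω + coefF σ τ q s t u

/-- `X` is a Markov process with respect to its natural filtration: for `s ≤ t`, the conditional
law of `X_t` given `σ(X_r : r ≤ s)` is its conditional law given `σ(X_s)` -/
def IsMarkov [MeasurableSpace Ω] (P : Measure Ω) (X : ℝ≥0 → Ω → ℝ) : Prop :=
  ∀ s t : ℝ≥0, s ≤ t → ∀ B : Set ℝ, MeasurableSet B →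
    P[(X t ⁻¹' B).indicator (fun _ => (1 : ℝ)) | sigmaOf X (Set.Iic s)] =ᵐ[P]
      P[(X t ⁻¹' B).indicator (fun _ => (1 : ℝ)) | sigmaOf X {s}]

end Pool.Agent.Lib_helper33.QH
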