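import Mathlib
import Pool.Agent.Lib_helper33.QH.CellsEx

/-!
# Integrals over strips of times
-/

set_option autoImplicit false

open MeasureTheory Filter Topology ProbabilityTheory
open scoped ENNReal

namespace Pool.Agent.Lib_helper33.QH

variable {n : ℝ → ℝ → ℝ}

theorem strip_integral (hn : GoodDensity n) {g : ℝ → ℂ} (hg : Measurable g) {C : ℝ}
    (hC : ∀ v, ‖g v‖ ≤ C * (v - 1) ^ 2) {x u : ℝ} (hx : 0 < x) :
    IntegrableOn (fun p : ℝ × ℝ => g p.2) (Prod.fst ⁻¹' (Set.Ioc x u)) (Lam n) ∧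
    ∫ p in Prod.fst ⁻¹' (Set.Ioc x u), g p.2 ∂(Lam n) =
      ∫ t in Set.Ioc x u, ∫ v, g v * ((n t v : ℝ) : ℂ) := by
  have hsub : Set.Ioc x u ⊆ Set.Ioi 0 := fun t ht => hx.trans ht.1
  have hi : IntegrableOn (fun p : ℝ × ℝ => g p.2) (Prod.fst ⁻¹' (Set.Ioc x u)) (Lam n) := by
    have h1 : IntegrableOn (fun p : ℝ × ℝ => C * (p.2 - 1) ^ 2) (Prod.fst ⁻¹' (Set.Ioc x u))
        (Lam n) :=
      ((integrableOn_sq hn hx).mono_set (fun p hp => hp.1)).const_mul C
    refine Integrable.mono' h1 (hg.comp measurable_snd).aestronglyMeasurable ?_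
    exact ae_of_all _ fun p => hC _
  refine ⟨hi, ?_⟩
  have hi' := hi
  rw [IntegrableOn, lam_restrict hn measurableSet_Ioc hsub,
    integrable_withDensity_iff_integrable_smul' (measurable_dens hn)
      (ae_of_all _ fun _ => ENNReal.ofReal_lt_top)] at hi'
  rw [lam_restrict hn measurableSet_Ioc hsub,
    integral_withDensity_eq_integral_toReal_smul (measurable_dens hn)
      (ae_of_all _ fun _ => ENNReal.ofReal_lt_top), integral_prod _ hi']
  refine integral_congr_ae (ae_of_all _ fun t => ?_)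
  refine integral_congr_ae (ae_of_all _ fun v => ?_)
  simp only [ENNReal.toReal_ofReal (hn.nonneg t v), Complex.real_smul]
  ring

/-- the exponential of the integral of `a / (t (a + b t))` -/
theorem exp_integral {a b : ℂ} (hab : ∀ t : ℝ, 0 < t → a + b * t ≠ 0) {x u : ℝ} (hx : 0 < x)
    (hxu : x ≤ u) :
    Complex.exp (∫ t in Set.Ioc x u, a / ((t : ℂ) * (a + b * t))) =
      ((a + b * x) / x) * (u / (a + b * u)) := by
  rw [← intervalIntegral.integral_of_le hxu]
  have hcont : ContinuousOn (fun t : ℝ => a / ((t : ℂ) * (a + b * t))) (Set.Ioi 0) := by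
    refine ContinuousOn.div continuousOn_const (by fun_prop) fun t ht => ?_
    have ht' : (0 : ℝ) < t := ht
    exact mul_ne_zero (by exact_mod_cast ht'.ne') (hab t ht')
  set φ : ℝ → ℂ := fun s =>
    Complex.exp (∫ t in x..s, a / ((t : ℂ) * (a + b * t))) * ((a + b * s) / s) with hφ
  have hint : ∀ s, 0 < s → IntervalIntegrable (fun t : ℝ => a / ((t : ℂ) * (a + b * t)))
      volume x s := fun s hs => by
    refine (hcont.mono ?_).intervalIntegrable
    intro t ht
    exact lt_of_lt_of_le (lt_min hx hs) ht.1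
  have hderiv : ∀ s, 0 < s → HasDerivAt φ 0 s := by
    intro s hs
    have h1 : HasDerivAt (fun s => ∫ t in x..s, a / ((t : ℂ) * (a + b * t)))
        (a / ((s : ℂ) * (a + b * s))) s := by
      refine intervalIntegral.integral_hasDerivAt_right (hint s hs) ?_ ?_
      · exact hcont.stronglyMeasurableAtFilter isOpen_Ioi s hs
      · exact hcont.continuousAt (Ioi_mem_nhds hs)
    have hs0 : (s : ℂ) ≠ 0 := by exact_mod_cast hs.ne'
    have h2 : HasDerivAt (fun s : ℝ => (a + b * s) / (s : ℂ)) (-(a / (s : ℂ) ^ 2)) s := by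
      have h3 : HasDerivAt (fun s : ℝ => a + b * (s : ℂ)) b s := by
        have := ((Complex.ofRealCLM.hasDerivAt (x := s)).const_mul b).const_add a
        simpa using this
      have h4 : HasDerivAt (fun s : ℝ => (s : ℂ)) 1 s := HasDerivAt.ofReal_comp (hasDerivAt_id s)
      refine (h3.div h4 hs0).congr_deriv ?_
      field_simp
      ring
    refine (h1.cexp.mul h2).congr_deriv ?_
    have := hab s hs
    generalize Complex.exp (∫ t in x..s, a / ((t : ℂ) * (a + b * t))) = W
    generalize a + b * (s : ℂ) = c at this ⊢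
    field_simp
    ring
  have hconst : φ u = φ x := by
    have h5 := constant_of_has_deriv_right_zero (f := φ) (a := x) (b := u)
      (fun s hs => (hderiv s (hx.trans_le hs.1)).continuousAt.continuousWithinAt)
      (fun s hs => (hderiv s (hx.trans_le hs.1)).hasDerivWithinAt)
    exact h5 u ⟨hxu, le_refl _⟩
  have hu : 0 < u := hx.trans_le hxu
  simp only [hφ, intervalIntegral.integral_same, Complex.exp_zero, one_mul] at hconst
  have hu0 : (u : ℂ) ≠ 0 := by exact_mod_cast hu.ne'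
  have hx0 : (x : ℂ) ≠ 0 := by exact_mod_cast hx.ne'
  have h6 := hab u hu
  rw [← hconst]
  generalize Complex.exp (∫ t in x..u, a / ((t : ℂ) * (a + b * t))) = W
  field_simp

/-- first strip integral -/
theorem strip_one (hn : GoodDensity n) (y : ℝ) (e : ℕ) :
    ∃ a b : ℂ, (∀ t : ℝ, 0 < t → a + b * t ≠ 0) ∧
      (∀ t : ℝ, 0 < t → (b - 2 * a) + (b - 3 * a) * t ≠ 0) ∧
      ((∀ v, chi y e v = 1) → a = 0) ∧
      (∀ x u : ℝ, 0 < x → x ≤ u →
        IntegrableOn (fun p : ℝ × ℝ => ((p.2 - 1 : ℝ) : ℂ) * (chi y e p.2 - 1))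
          (Prod.fst ⁻¹' (Set.Ioc x u)) (Lam n) ∧
        Complex.exp (∫ p in Prod.fst ⁻¹' (Set.Ioc x u),
          ((p.2 - 1 : ℝ) : ℂ) * (chi y e p.2 - 1) ∂(Lam n)) =
          ((a + b * x) / x) * (u / (a + b * u)) ∧
        IntegrableOn (fun p : ℝ × ℝ => ((p.2 - 1 : ℝ) : ℂ) * (chi y e p.2 * (p.2 : ℂ) - 1))
          (Prod.fst ⁻¹' (Set.Ioc x u)) (Lam n) ∧
        Complex.exp (∫ p in Prod.fst ⁻¹' (Set.Ioc x u),
          ((p.2 - 1 : ℝ) : ℂ) * (chi y e p.2 * (p.2 : ℂ) - 1) ∂(Lam n)) =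
          (((b - 2 * a) + (b - 3 * a) * x) / x) * (u / ((b - 2 * a) + (b - 3 * a) * u))) := by
  obtain ⟨a, b, hab⟩ := hn.key y e
  have hm1 : Measurable (fun v : ℝ => ((v - 1 : ℝ) : ℂ) * (chi y e v - 1)) :=
    (Complex.measurable_ofReal.comp (measurable_id.sub_const 1)).mul
      ((measurable_chi y e).sub_const 1)
  have hm2 : Measurable (fun v : ℝ => ((v - 1 : ℝ) : ℂ) * (chi y e v * (v : ℂ) - 1)) :=
    (Complex.measurable_ofReal.comp (measurable_id.sub_const 1)).mul
      (((measurable_chi y e).mul Complex.measurable_ofReal).sub_const 1)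
  have hb1 : ∀ v : ℝ, ‖((v - 1 : ℝ) : ℂ) * (chi y e v - 1)‖ ≤ (2 * |y| + 4) * (v - 1) ^ 2 := by
    intro v
    rw [norm_mul, Complex.norm_real, Real.norm_eq_abs]
    have h1 := chi_sub_one_le y e v
    have h2 : |v - 1| ^ 2 = (v - 1) ^ 2 := sq_abs _
    rw [← h2]
    nlinarith [abs_nonneg (v - 1)]
  have hb2 : ∀ v : ℝ, ‖((v - 1 : ℝ) : ℂ) * (chi y e v * (v : ℂ) - 1)‖ ≤
      (2 * |y| + 5) * (v - 1) ^ 2 := by
    intro v
    rw [norm_mul, Complex.norm_real, Real.norm_eq_abs]
    have h1 := chi_sub_one_le y e v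
    have h2 : |v - 1| ^ 2 = (v - 1) ^ 2 := sq_abs _
    have h3 : chi y e v * (v : ℂ) - 1 = chi y e v * ((v - 1 : ℝ) : ℂ) + (chi y e v - 1) := by
      push_cast; ring
    have h4 : ‖chi y e v * (v : ℂ) - 1‖ ≤ |v - 1| + ‖chi y e v - 1‖ := by
      rw [h3]
      refine (norm_add_le _ _).trans ?_
      rw [norm_mul, norm_chi, one_mul, Complex.norm_real, Real.norm_eq_abs]
    rw [← h2]
    nlinarith [abs_nonneg (v - 1)]
  refine ⟨a, b, fun t ht => (hab t ht).1, fun t ht => (hab t ht).2.1, ?_, fun x u hx hxu => ?_⟩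
  · intro h1
    have h2 := (hab 1 one_pos).2.2.1
    simp only [h1, sub_self, mul_zero, zero_mul, integral_zero] at h2
    have h3 := (hab 1 one_pos).1
    have h4 : (1 : ℂ) * (a + b * 1) ≠ 0 := by simpa using h3
    rcases div_eq_zero_iff.mp h2.symm with h5 | h5
    · exact h5
    · exact absurd (by simpa using h5) (by simpa using h3)
  · have hs1 := strip_integral hn hm1 hb1 (u := u) hx
    have hs2 := strip_integral hn hm2 hb2 (u := u) hx
    refine ⟨hs1.1, ?_, hs2.1, ?_⟩
    · rw [hs1.2, ← exp_integral (fun t ht => (hab t ht).1) hx hxu]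
      congr 1
      refine setIntegral_congr_fun measurableSet_Ioc fun t ht => ?_
      exact (hab t (hx.trans ht.1)).2.2.1
    · rw [hs2.2, ← exp_integral (fun t ht => (hab t ht).2.1) hx hxu]
      congr 1
      refine setIntegral_congr_fun measurableSet_Ioc fun t ht => ?_
      exact (hab t (hx.trans ht.1)).2.2.2

end Pool.Agent.Lib_helper33.QH
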