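import Mathlib
import Pool.Agent.Lib_helper33.QH.Strip

/-!
# The first two mixed moments as functions of time
-/

set_option autoImplicit false

open MeasureTheory Filter Topology ProbabilityTheory
open scoped ENNReal

namespace Pool.Agent.Lib_helper33.QH

variable {n : ℝ → ℝ → ℝ}

section pointwise

variable {ι : Type} [Fintype ι] (τ : ι → Tm) (y : ι → ℝ) (e : ι → ℕ)

theorem wt_of_lt {t : Tm} {p : ℝ × ℝ} (h : (t : ℝ) < p.1) (hp : p.2 ≠ 0) : wt t p = p.2 := by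
  unfold wt; rw [if_pos ⟨h, hp⟩]

theorem wt_of_le {t : Tm} {p : ℝ × ℝ} (h : p.1 ≤ (t : ℝ)) : wt t p = 1 := by
  unfold wt; rw [if_neg (fun hh => absurd hh.1 (not_lt.mpr h))]

/-- the total character on the strip -/
theorem prod_chi_strip {x u : Tm} (hτ : ∀ j, τ j ≤ x ∨ u ≤ τ j) {p : ℝ × ℝ} (hp : p.2 ≠ 0)
    (h1 : (x : ℝ) < p.1) (h2 : p.1 ≤ (u : ℝ)) :
    ∏ j, chi (y j) (e j) (wt (τ j) p) =
      chi (∑ j ∈ Finset.univ.filter (fun j => τ j < u), y j)
        (∑ j ∈ Finset.univ.filter (fun j => τ j < u), e j) p.2 := by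
  classical
  rw [← chi_sum, Finset.prod_filter]
  refine Finset.prod_congr rfl fun j _ => ?_
  by_cases hj : τ j < u
  · rw [if_pos hj]
    have h3 : τ j ≤ x := by
      rcases hτ j with h | h
      · exact h
      · exact absurd hj (not_lt.mpr h)
    have h4 : (τ j : ℝ) ≤ x := h3
    rw [wt_of_lt (h4.trans_lt h1) hp]
  · rw [if_neg hj]
    have h4 : (u : ℝ) ≤ τ j := not_lt.mp hj
    rw [wt_of_le (h2.trans h4), chi_one]

theorem K_one {x u : Tm} (hxu : x ≤ u) (hτ : ∀ j, τ j ≤ x ∨ u ≤ τ j) {p : ℝ × ℝ}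
    (hp : p.2 ≠ 0) :
    (tf τ y e x 1 u 0 (fun t => wt t p) - 1 - cp τ y x 1 u 0 (fun t => wt t p)) =
    (tf τ y e u 1 u 0 (fun t => wt t p) - 1 - cp τ y u 1 u 0 (fun t => wt t p)) +
      (Prod.fst ⁻¹' (Set.Ioc (x : ℝ) u)).indicator (fun p : ℝ × ℝ => ((p.2 - 1 : ℝ) : ℂ) *
        (chi (∑ j ∈ Finset.univ.filter (fun j => τ j < u), y j)
        (∑ j ∈ Finset.univ.filter (fun j => τ j < u), e j) p.2 - 1)) p := by
  have hxu' : (x : ℝ) ≤ u := hxu
  unfold tf cp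
  beta_reduce
  rcases le_or_gt p.1 (x : ℝ) with h1 | h1
  · rw [Set.indicator_of_notMem (fun hh => absurd hh.1 (not_lt.mpr h1)),
      wt_of_le h1, wt_of_le (h1.trans hxu')]
    ring
  · rcases le_or_gt p.1 (u : ℝ) with h2 | h2
    · have hmem : p ∈ Prod.fst ⁻¹' (Set.Ioc (x : ℝ) u) := ⟨h1, h2⟩
      rw [Set.indicator_of_mem hmem, wt_of_lt h1 hp, wt_of_le h2,
        prod_chi_strip τ y e hτ hp h1 h2]
      push_cast
      ring
    · rw [Set.indicator_of_notMem (fun hh => absurd hh.2 (not_le.mpr h2)),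
        wt_of_lt h1 hp, wt_of_lt h2 hp]
      ring

theorem K_two {x z u : Tm} (hxz : x ≤ z) (hzu : z ≤ u) (hτ : ∀ j, τ j ≤ x ∨ u ≤ τ j)
    {p : ℝ × ℝ} (hp : p.2 ≠ 0) :
    (tf τ y e x 1 z 1 (fun t => wt t p) - 1 - cp τ y x 1 z 1 (fun t => wt t p)) =
    (tf τ y e u 1 u 1 (fun t => wt t p) - 1 - cp τ y u 1 u 1 (fun t => wt t p)) +
      ((Prod.fst ⁻¹' (Set.Ioc (x : ℝ) u)).indicator (fun p : ℝ × ℝ => ((p.2 - 1 : ℝ) : ℂ) *
        (chi (∑ j ∈ Finset.univ.filter (fun j => τ j < u), y j)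
        (∑ j ∈ Finset.univ.filter (fun j => τ j < u), e j) p.2 - 1)) p +
      (Prod.fst ⁻¹' (Set.Ioc (z : ℝ) u)).indicator (fun p : ℝ × ℝ => ((p.2 - 1 : ℝ) : ℂ) *
        (chi (∑ j ∈ Finset.univ.filter (fun j => τ j < u), y j)
        (∑ j ∈ Finset.univ.filter (fun j => τ j < u), e j) p.2 * (p.2 : ℂ) - 1)) p) := by
  have hxz' : (x : ℝ) ≤ z := hxz
  have hzu' : (z : ℝ) ≤ u := hzu
  unfold tf cp
  beta_reduce
  rcases le_or_gt p.1 (x : ℝ) with h1 | h1
  · rw [Set.indicator_of_notMem (fun hh => absurd hh.1 (not_lt.mpr h1)),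
      Set.indicator_of_notMem (fun hh => absurd hh.1 (not_lt.mpr (h1.trans hxz'))),
      wt_of_le h1, wt_of_le (h1.trans hxz'), wt_of_le ((h1.trans hxz').trans hzu')]
    ring
  · rcases le_or_gt p.1 (z : ℝ) with h2 | h2
    · have h3 : p.1 ≤ (u : ℝ) := h2.trans hzu'
      have hmem : p ∈ Prod.fst ⁻¹' (Set.Ioc (x : ℝ) u) := ⟨h1, h3⟩
      rw [Set.indicator_of_mem hmem, Set.indicator_of_notMem
        (fun hh => absurd hh.1 (not_lt.mpr h2)), wt_of_lt h1 hp, wt_of_le h2, wt_of_le h3,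
        prod_chi_strip τ y e hτ hp h1 h3]
      push_cast
      ring
    · rcases le_or_gt p.1 (u : ℝ) with h3 | h3
      · have hmem : p ∈ Prod.fst ⁻¹' (Set.Ioc (x : ℝ) u) := ⟨h1, h3⟩
        have hmem' : p ∈ Prod.fst ⁻¹' (Set.Ioc (z : ℝ) u) := ⟨h2, h3⟩
        rw [Set.indicator_of_mem hmem, Set.indicator_of_mem hmem', wt_of_lt h1 hp,
          wt_of_lt h2 hp, wt_of_le h3, prod_chi_strip τ y e hτ hp h1 h3]
        push_cast
        ring
      · rw [Set.indicator_of_notMem (fun hh => absurd hh.2 (not_le.mpr h3)),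
          Set.indicator_of_notMem (fun hh => absurd hh.2 (not_le.mpr h3)),
          wt_of_lt h1 hp, wt_of_lt h2 hp, wt_of_lt h3 hp]
        ring

end pointwise

variable {Ω : Type*} [MeasurableSpace Ω] {P : Measure Ω} {R : Tm → Ω → ℝ}

/-- the structure of the first two mixed moments -/
theorem moments (hn : GoodDensity n) (hR : MultProc (Lam n) wt P R)
    {ι : Type} [Fintype ι] (τ : ι → Tm) (y : ι → ℝ) (e : ι → ℕ) (u : Tm) :
    ∃ a b K₁ K₂ : ℂ, ((∀ j, u ≤ τ j) → a = 0) ∧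
      ∀ x : Tm, x ≤ u → (∀ j, τ j ≤ x ∨ u ≤ τ j) →
        ((x : ℝ) : ℂ) * ∫ ω, tf τ y e x 1 u 0 (fun t => R t ω) ∂P = K₁ * (a + b * x) ∧
        ∀ z : Tm, x ≤ z → z ≤ u →
          ((x : ℝ) : ℂ) * ((z : ℝ) : ℂ) * ∫ ω, tf τ y e x 1 z 1 (fun t => R t ω) ∂P =
            K₂ * (a + b * x) * ((b - 2 * a) + (b - 3 * a) * z) := by
  classical
  set Y := ∑ j ∈ Finset.univ.filter (fun j => τ j < u), y j with hY
  set N := ∑ j ∈ Finset.univ.filter (fun j => τ j < u), e j with hN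
  obtain ⟨a, b, hab, hab', ha0, hs⟩ := strip_one hn Y N
  refine ⟨a, b, (∫ ω, tf τ y e u 1 u 0 (fun t => R t ω) ∂P) * (u / (a + b * u)),
    (∫ ω, tf τ y e u 1 u 1 (fun t => R t ω) ∂P) * (u / (a + b * u)) *
      (u / ((b - 2 * a) + (b - 3 * a) * u)), ?_, ?_⟩
  · intro hall
    have h1 : Finset.univ.filter (fun j => τ j < u) = ∅ := by
      refine Finset.filter_eq_empty_iff.mpr fun j _ => not_lt.mpr (hall j)
    have hY0 : Y = 0 := by rw [hY, h1, Finset.sum_empty]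
    have hN0 : N = 0 := by rw [hN, h1, Finset.sum_empty]
    apply ha0
    intro v
    rw [hY0, hN0, chi_zero_zero]
  · intro x hxu hτ
    have hxu' : (x : ℝ) ≤ u := hxu
    have hx0 : ((x : ℝ) : ℂ) ≠ 0 := by exact_mod_cast x.2.ne'
    obtain ⟨i1, e1, -, -⟩ := hs x u x.2 hxu'
    have hstripm : ∀ c : ℝ, MeasurableSet (Prod.fst ⁻¹' (Set.Ioc c (u : ℝ)) : Set (ℝ × ℝ)) :=
      fun c => measurable_fst measurableSet_Ioc
    refine ⟨?_, fun z hxz hzu => ?_⟩
    · have h1 := hR.mf τ y e x 1 le_rfl u 0 zero_le_one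
      have h2 := hR.mf τ y e u 1 le_rfl u 0 zero_le_one
      have h3 : ∫ p, (tf τ y e x 1 u 0 (fun t => wt t p) - 1 -
          cp τ y x 1 u 0 (fun t => wt t p)) ∂(Lam n) =
          ∫ p, (tf τ y e u 1 u 0 (fun t => wt t p) - 1 -
          cp τ y u 1 u 0 (fun t => wt t p)) ∂(Lam n) +
          ∫ p in Prod.fst ⁻¹' (Set.Ioc (x : ℝ) u), ((p.2 - 1 : ℝ) : ℂ) *
            (chi Y N p.2 - 1) ∂(Lam n) := by
        rw [← integral_indicator (hstripm x),
          ← integral_add (hR.wts.integrable_K τ y e u le_rfl u zero_le_one)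
            (i1.integrable_indicator (hstripm x))]
        refine integral_congr_ae ?_
        filter_upwards [lam_ae n] with p hp
        exact K_one τ y e hxu hτ hp.2
      rw [h1, h3, Complex.exp_add, e1, h2]
      field_simp
    · have hz0 : ((z : ℝ) : ℂ) ≠ 0 := by exact_mod_cast z.2.ne'
      have hzu' : (z : ℝ) ≤ u := hzu
      obtain ⟨-, -, i2, e2⟩ := hs z u z.2 hzu'
      have h1 := hR.mf τ y e x 1 le_rfl z 1 le_rfl
      have h2 := hR.mf τ y e u 1 le_rfl u 1 le_rfl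
      have h3 : ∫ p, (tf τ y e x 1 z 1 (fun t => wt t p) - 1 -
          cp τ y x 1 z 1 (fun t => wt t p)) ∂(Lam n) =
          ∫ p, (tf τ y e u 1 u 1 (fun t => wt t p) - 1 -
          cp τ y u 1 u 1 (fun t => wt t p)) ∂(Lam n) +
          (∫ p in Prod.fst ⁻¹' (Set.Ioc (x : ℝ) u), ((p.2 - 1 : ℝ) : ℂ) *
            (chi Y N p.2 - 1) ∂(Lam n) +
          ∫ p in Prod.fst ⁻¹' (Set.Ioc (z : ℝ) u), ((p.2 - 1 : ℝ) : ℂ) *
            (chi Y N p.2 * (p.2 : ℂ) - 1) ∂(Lam n)) := by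
        have i3 : Integrable (fun p => (Prod.fst ⁻¹' (Set.Ioc (x : ℝ) u)).indicator
            (fun p : ℝ × ℝ => ((p.2 - 1 : ℝ) : ℂ) * (chi Y N p.2 - 1)) p +
            (Prod.fst ⁻¹' (Set.Ioc (z : ℝ) u)).indicator (fun p : ℝ × ℝ => ((p.2 - 1 : ℝ) : ℂ) *
            (chi Y N p.2 * (p.2 : ℂ) - 1)) p) (Lam n) :=
          (i1.integrable_indicator (hstripm x)).add (i2.integrable_indicator (hstripm z))
        rw [← integral_indicator (hstripm x), ← integral_indicator (hstripm z),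
          ← integral_add (i1.integrable_indicator (hstripm x))
            (i2.integrable_indicator (hstripm z)),
          ← integral_add (hR.wts.integrable_K τ y e u le_rfl u le_rfl) i3]
        refine integral_congr_ae ?_
        filter_upwards [lam_ae n] with p hp
        exact K_two τ y e hxz hzu hτ hp.2
      rw [h1, h3, Complex.exp_add, Complex.exp_add, e1, e2, h2]
      field_simp

end Pool.Agent.Lib_helper33.QH
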