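import Mathlib
import Pool.Agent.Lib_helper33.QH.Ratio
import Pool.Agent.Lib_helper33.QH.Det

/-!
# The harness identities at the level of transforms
-/

set_option autoImplicit false

open MeasureTheory Filter Topology ProbabilityTheory
open scoped ENNReal

namespace Pool.Agent.Lib_helper33.QH

variable {Ω : Type*} [MeasurableSpace Ω]

/-- `X'_t = t R_t` (and `X'_0 = 0`) -/
noncomputable def Xp (R : Tm → Ω → ℝ) (t : ℝ) (ω : Ω) : ℝ :=
  if h : 0 < t then t * R ⟨t, h⟩ ω else 0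

/-- the denominator for `σ = 3`, `τ = 1`, `q = -2` -/
noncomputable def dN (s u : ℝ) : ℝ := u * (1 + 3 * s) + 1 + 2 * s

structure TQ (P : Measure Ω) (R : Tm → Ω → ℝ) : Prop where
  meas : ∀ t, Measurable (R t)
  ne : ∀ t, ∀ᵐ ω ∂P, R t ω ≠ 0
  sq : ∀ t, Integrable (fun ω => R t ω ^ 2) P
  mean : ∀ t, ∫ ω, R t ω ∂P = 1
  cov : ∀ s t : Tm, s ≤ t → ∫ ω, R s ω * R t ω ∂P = 1 + 1 / (t : ℝ)
  lin : ∀ {ι : Type} [Fintype ι] (τ : ι → Tm) (y : ι → ℝ) (e : ι → ℕ) (s t u : ℝ),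
    0 ≤ s → s < t → t < u → (∀ j, (τ j : ℝ) ≤ s ∨ u ≤ τ j) →
    ∫ ω, (∏ j, chi (y j) (e j) (R (τ j) ω)) *
      ((Xp R t ω - ((u - t) / (u - s) * Xp R s ω + (t - s) / (u - s) * Xp R u ω) : ℝ) : ℂ) ∂P = 0
  quad : ∀ {ι : Type} [Fintype ι] (τ : ι → Tm) (y : ι → ℝ) (e : ι → ℕ) (s t u : ℝ),
    0 ≤ s → s < t → t < u → (∀ j, (τ j : ℝ) ≤ s ∨ u ≤ τ j) →
    ∫ ω, (∏ j, chi (y j) (e j) (R (τ j) ω)) *
      ((Xp R t ω ^ 2 - ((u - t) * (u * (1 + 3 * t) + 1 + 2 * t) / ((u - s) * dN s u) *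
          Xp R s ω ^ 2 + -((u - t) * (t - s)) / ((u - s) * dN s u) * (Xp R s ω * Xp R u ω) +
          (t - s) * (t * (1 + 3 * s) + 1 + 2 * s) / ((u - s) * dN s u) * Xp R u ω ^ 2) : ℝ) : ℂ)
      ∂P = 0

variable {P : Measure Ω} {R : Tm → Ω → ℝ}

theorem measurable_Xp (hR : ∀ t, Measurable (R t)) (t : ℝ) : Measurable (Xp R t) := by
  unfold Xp
  by_cases h : 0 < t
  · simp only [h, dif_pos]
    exact (hR _).const_mul t
  · simp only [h, dif_neg, not_false_eq_true]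
    exact measurable_const

theorem integrable_of_sq [IsProbabilityMeasure P] {f : Ω → ℝ} (hf : Measurable f)
    (h : Integrable (fun ω => f ω ^ 2) P) : Integrable f P :=
  ((memLp_two_iff_integrable_sq hf.aestronglyMeasurable).mpr h).integrable one_le_two

theorem integrable_mul_of_sq {f g : Ω → ℝ} (hf : Measurable f) (hg : Measurable g)
    (h : Integrable (fun ω => f ω ^ 2) P) (h' : Integrable (fun ω => g ω ^ 2) P) :
    Integrable (fun ω => f ω * g ω) P :=
  ((memLp_two_iff_integrable_sq hf.aestronglyMeasurable).mpr h).integrable_mul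
    ((memLp_two_iff_integrable_sq hg.aestronglyMeasurable).mpr h')

theorem Xp_sq (h : ∀ t, Integrable (fun ω => R t ω ^ 2) P) (t : ℝ) :
    Integrable (fun ω => Xp R t ω ^ 2) P := by
  unfold Xp
  by_cases ht : 0 < t
  · simp only [ht, dif_pos, mul_pow]
    exact (h _).const_mul _
  · simp only [ht, dif_neg, not_false_eq_true]
    simp

theorem integrable_chi_mul {ι : Type} [Fintype ι] (hR : ∀ t, Measurable (R t))
    (τ : ι → Tm) (y : ι → ℝ) (e : ι → ℕ) {f : Ω → ℝ} (hf : Integrable f P) :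
    Integrable (fun ω => (∏ j, chi (y j) (e j) (R (τ j) ω)) * ((f ω : ℝ) : ℂ)) P := by
  refine Integrable.mono' hf.norm ?_ ?_
  · have h1 : Measurable (fun ω => ∏ j, chi (y j) (e j) (R (τ j) ω)) :=
      Finset.measurable_prod _ fun j _ => (measurable_chi _ _).comp (hR _)
    exact h1.aestronglyMeasurable.mul hf.ofReal.aestronglyMeasurable
  · refine ae_of_all _ fun ω => ?_
    rw [norm_mul, norm_prod, Complex.norm_real]
    simp [norm_chi]

theorem tq_of_multProc [IsProbabilityMeasure P] {n : ℝ → ℝ → ℝ} (hn : GoodDensity n)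
    (hR : MultProc (Lam n) wt P R) : TQ P R := by
  have key : ∀ {ι : Type} [Fintype ι] (τ : ι → Tm) (y : ι → ℝ) (e : ι → ℕ) (s u : ℝ),
      0 ≤ s → s < u → (∀ j, (τ j : ℝ) ≤ s ∨ u ≤ τ j) →
      ∃ a b K₁ K₂ : ℂ,
        (∀ x : ℝ, s ≤ x → x ≤ u →
          ∫ ω, (∏ j, chi (y j) (e j) (R (τ j) ω)) * ((Xp R x ω : ℝ) : ℂ) ∂P =
            K₁ * (a + b * x)) ∧
        (∀ x z : ℝ, s ≤ x → x ≤ z → z ≤ u →
          ∫ ω, (∏ j, chi (y j) (e j) (R (τ j) ω)) * ((Xp R x ω * Xp R z ω : ℝ) : ℂ) ∂P =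
            K₂ * (a + b * x) * ((b - 2 * a) + (b - 3 * a) * z)) := by
    intro ι _ τ y e s u hs hsu hτ
    have hu : 0 < u := hs.trans_lt hsu
    obtain ⟨a, b, K₁, K₂, ha, hm⟩ := moments hn hR τ y e ⟨u, hu⟩
    have h0 : s = 0 → a = 0 := by
      intro hs0
      apply ha
      intro j
      rcases hτ j with h | h
      · exact absurd (τ j).2 (not_lt.mpr (by rw [hs0] at h; exact h))
      · exact h
    have hτ' : ∀ (x : ℝ) (hx : 0 < x), s ≤ x → ∀ j, τ j ≤ ⟨x, hx⟩ ∨ (⟨u, hu⟩ : Tm) ≤ τ j := by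
      intro x hx hsx j
      rcases hτ j with h | h
      · exact Or.inl (h.trans hsx)
      · exact Or.inr h
    refine ⟨a, b, K₁, K₂, fun x hsx hxu => ?_, fun x z hsx hxz hzu => ?_⟩
    · by_cases hx : 0 < x
      · rw [← (hm ⟨x, hx⟩ hxu (hτ' x hx hsx)).1, ← integral_const_mul]
        refine integral_congr_ae (ae_of_all _ fun ω => ?_)
        simp only [Xp, hx, dif_pos, tf]
        push_cast
        ring
      · have hx0 : x = 0 := le_antisymm (not_lt.mp hx) (hs.trans hsx)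
        have hs0 : s = 0 := le_antisymm (hx0 ▸ hsx) hs
        simp [Xp, hx0, h0 hs0]
    · by_cases hx : 0 < x
      · have hz : 0 < z := hx.trans_le hxz
        have h1 := (hm ⟨x, hx⟩ (hxz.trans hzu) (hτ' x hx hsx)).2 ⟨z, hz⟩ hxz hzu
        simp only at h1
        rw [← h1, ← integral_const_mul]
        refine integral_congr_ae (ae_of_all _ fun ω => ?_)
        simp only [Xp, hx, hz, dif_pos, tf]
        push_cast
        ring
      · have hx0 : x = 0 := le_antisymm (not_lt.mp hx) (hs.trans hsx)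
        have hs0 : s = 0 := le_antisymm (hx0 ▸ hsx) hs
        simp [Xp, hx0, h0 hs0]
  have hXi : ∀ t, Integrable (Xp R t) P := fun t =>
    integrable_of_sq (measurable_Xp hR.meas t) (Xp_sq hR.sq t)
  have hXX : ∀ s t, Integrable (fun ω => Xp R s ω * Xp R t ω) P := fun s t =>
    integrable_mul_of_sq (measurable_Xp hR.meas s) (measurable_Xp hR.meas t)
      (Xp_sq hR.sq s) (Xp_sq hR.sq t)
  refine ⟨hR.meas, hR.ne, hR.sq, fun t => ?_, fun s t hst => ?_, ?_, ?_⟩
  · -- the mean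
    have h1 := hR.mf (ι := Empty) (fun j => j.elim) (fun j => j.elim) (fun j => j.elim) t 1 le_rfl
      t 0 zero_le_one
    simp only [tf, cp] at h1
    have h2 : ∀ x : ℝ × ℝ, (∏ j : Empty, chi (j.elim) (j.elim) (wt (j.elim) x)) *
        (((wt t x : ℝ) : ℂ) ^ 1 * ((wt t x : ℝ) : ℂ) ^ 0) - 1 -
        (∑ j : Empty, ((j.elim : ℝ) : ℂ) * Complex.I * ((wt (j.elim) x - 1 : ℝ) : ℂ) +
          (((1 : ℕ) : ℂ) * ((wt t x - 1 : ℝ) : ℂ) + ((0 : ℕ) : ℂ) * ((wt t x - 1 : ℝ) : ℂ))) = 0 := by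
      intro x
      simp
    simp_rw [h2] at h1
    simp only [Finset.univ_eq_empty, Finset.prod_empty, pow_one, pow_zero, mul_one, one_mul,
      integral_zero, Complex.exp_zero] at h1
    rw [integral_complex_ofReal] at h1
    exact_mod_cast h1
  · -- the covariance
    have h1 := hR.mf (ι := Empty) (fun j => j.elim) (fun j => j.elim) (fun j => j.elim) s 1 le_rfl
      t 1 le_rfl
    simp only [tf, cp] at h1
    have h2 : ∀ x : ℝ × ℝ, (∏ j : Empty, chi (j.elim) (j.elim) (wt (j.elim) x)) *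
        (((wt s x : ℝ) : ℂ) ^ 1 * ((wt t x : ℝ) : ℂ) ^ 1) - 1 -
        (∑ j : Empty, ((j.elim : ℝ) : ℂ) * Complex.I * ((wt (j.elim) x - 1 : ℝ) : ℂ) +
          (((1 : ℕ) : ℂ) * ((wt s x - 1 : ℝ) : ℂ) + ((1 : ℕ) : ℂ) * ((wt t x - 1 : ℝ) : ℂ))) =
        (((wt s x - 1) * (wt t x - 1) : ℝ) : ℂ) := by
      intro x
      simp
      ring
    simp_rw [h2] at h1
    simp only [Finset.univ_eq_empty, Finset.prod_empty, pow_one, one_mul] at h1
    have h3 : ∫ x, (wt s x - 1) * (wt t x - 1) ∂(Lam n) = Real.log (1 + 1 / (t : ℝ)) := by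
      have h4 : ∫ x, (wt s x - 1) * (wt t x - 1) ∂(Lam n) =
          ∫ x in Prod.fst ⁻¹' (Set.Ioi (t : ℝ)), (x.2 - 1) ^ 2 ∂(Lam n) := by
        rw [← integral_indicator (measurable_fst measurableSet_Ioi)]
        refine integral_congr_ae ?_
        filter_upwards [wt_sub (n := n) s, wt_sub (n := n) t] with p hp1 hp2
        rw [hp1, hp2]
        have hst' : (s : ℝ) ≤ t := hst
        by_cases h : p ∈ Prod.fst ⁻¹' (Set.Ioi (t : ℝ))
        · have h' : p ∈ Prod.fst ⁻¹' (Set.Ioi (s : ℝ)) := lt_of_le_of_lt hst' h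
          rw [Set.indicator_of_mem h, Set.indicator_of_mem h, Set.indicator_of_mem h']
          ring
        · rw [Set.indicator_of_notMem h, Set.indicator_of_notMem h, mul_zero]
      rw [h4, integral_eq_lintegral_of_nonneg_ae (ae_of_all _ fun p => sq_nonneg _) (by fun_prop),
        lintegral_tail hn t.2, ENNReal.toReal_ofReal]
      apply Real.log_nonneg
      have := t.2
      have : 0 < 1 / (t : ℝ) := by positivity
      linarith
    rw [integral_complex_ofReal, h3, ← Complex.ofReal_exp, Real.exp_log] at h1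
    · have h5 : ∫ ω, ((R s ω : ℝ) : ℂ) * ((R t ω : ℝ) : ℂ) ∂P = ((∫ ω, R s ω * R t ω ∂P : ℝ) : ℂ) := by
        rw [← integral_complex_ofReal]
        simp
      rw [h5] at h1
      exact_mod_cast h1
    · have := t.2
      positivity
  · intro ι _ τ y e s t u hs hst htu hτ
    obtain ⟨a, b, K₁, K₂, h1, h2⟩ := key τ y e s u hs (hst.trans htu) hτ
    have hus : u - s ≠ 0 := by
      have : 0 < u - s := by linarith
      exact this.ne'
    have e1 : ∀ ω, (∏ j, chi (y j) (e j) (R (τ j) ω)) *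
        ((Xp R t ω - ((u - t) / (u - s) * Xp R s ω + (t - s) / (u - s) * Xp R u ω) : ℝ) : ℂ) =
        (∏ j, chi (y j) (e j) (R (τ j) ω)) * ((Xp R t ω : ℝ) : ℂ) -
        ((((u - t) / (u - s) : ℝ) : ℂ) * ((∏ j, chi (y j) (e j) (R (τ j) ω)) *
          ((Xp R s ω : ℝ) : ℂ)) +
        (((t - s) / (u - s) : ℝ) : ℂ) * ((∏ j, chi (y j) (e j) (R (τ j) ω)) *
          ((Xp R u ω : ℝ) : ℂ))) := by
      intro ω
      push_cast
      ring
    simp_rw [e1]
    have i1 := fun x => integrable_chi_mul (P := P) hR.meas τ y e (hXi x)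
    have i2 : Integrable (fun ω => (((u - t) / (u - s) : ℝ) : ℂ) *
        ((∏ j, chi (y j) (e j) (R (τ j) ω)) * ((Xp R s ω : ℝ) : ℂ)) +
        (((t - s) / (u - s) : ℝ) : ℂ) * ((∏ j, chi (y j) (e j) (R (τ j) ω)) *
          ((Xp R u ω : ℝ) : ℂ))) P := ((i1 s).const_mul _).add ((i1 u).const_mul _)
    rw [integral_sub (i1 t) i2, integral_add ((i1 s).const_mul _) ((i1 u).const_mul _),
      integral_const_mul, integral_const_mul, h1 t hst.le htu.le, h1 s le_rfl (hst.trans htu).le,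
      h1 u (hst.trans htu).le le_rfl]
    have hus' : (u : ℂ) - s ≠ 0 := by exact_mod_cast hus
    push_cast
    field_simp
    ring
  · intro ι _ τ y e s t u hs hst htu hτ
    obtain ⟨a, b, K₁, K₂, h1, h2⟩ := key τ y e s u hs (hst.trans htu) hτ
    have hus : u - s ≠ 0 := by
      have : 0 < u - s := by linarith
      exact this.ne'
    have hN : dN s u ≠ 0 := by
      have : 0 < dN s u := by
        unfold dN
        have : 0 < u := by linarith
        positivity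
      exact this.ne'
    have e1 : ∀ ω, (∏ j, chi (y j) (e j) (R (τ j) ω)) *
        ((Xp R t ω ^ 2 - ((u - t) * (u * (1 + 3 * t) + 1 + 2 * t) / ((u - s) * dN s u) *
          Xp R s ω ^ 2 + -((u - t) * (t - s)) / ((u - s) * dN s u) * (Xp R s ω * Xp R u ω) +
          (t - s) * (t * (1 + 3 * s) + 1 + 2 * s) / ((u - s) * dN s u) * Xp R u ω ^ 2) : ℝ) : ℂ) =
        (∏ j, chi (y j) (e j) (R (τ j) ω)) * ((Xp R t ω * Xp R t ω : ℝ) : ℂ) -
        ((((u - t) * (u * (1 + 3 * t) + 1 + 2 * t) / ((u - s) * dN s u) : ℝ) : ℂ) *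
          ((∏ j, chi (y j) (e j) (R (τ j) ω)) * ((Xp R s ω * Xp R s ω : ℝ) : ℂ)) +
        ((-((u - t) * (t - s)) / ((u - s) * dN s u) : ℝ) : ℂ) *
          ((∏ j, chi (y j) (e j) (R (τ j) ω)) * ((Xp R s ω * Xp R u ω : ℝ) : ℂ)) +
        (((t - s) * (t * (1 + 3 * s) + 1 + 2 * s) / ((u - s) * dN s u) : ℝ) : ℂ) *
          ((∏ j, chi (y j) (e j) (R (τ j) ω)) * ((Xp R u ω * Xp R u ω : ℝ) : ℂ))) := by
      intro ω
      push_cast
      ring
    simp_rw [e1]
    have i1 := fun x z => integrable_chi_mul (P := P) hR.meas τ y e (hXX x z)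
    have i2 : ∀ (c : ℂ) (x z : ℝ), Integrable (fun ω => c *
        ((∏ j, chi (y j) (e j) (R (τ j) ω)) * ((Xp R x ω * Xp R z ω : ℝ) : ℂ))) P :=
      fun c x z => (i1 x z).const_mul _
    have i3 : ∀ (c c' c'' : ℂ), Integrable (fun ω => c *
        ((∏ j, chi (y j) (e j) (R (τ j) ω)) * ((Xp R s ω * Xp R s ω : ℝ) : ℂ)) + c' *
        ((∏ j, chi (y j) (e j) (R (τ j) ω)) * ((Xp R s ω * Xp R u ω : ℝ) : ℂ)) + c'' *
        ((∏ j, chi (y j) (e j) (R (τ j) ω)) * ((Xp R u ω * Xp R u ω : ℝ) : ℂ))) P :=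
      fun c c' c'' => ((i2 c s s).add (i2 c' s u)).add (i2 c'' u u)
    have i4 : ∀ (c c' : ℂ), Integrable (fun ω => c *
        ((∏ j, chi (y j) (e j) (R (τ j) ω)) * ((Xp R s ω * Xp R s ω : ℝ) : ℂ)) + c' *
        ((∏ j, chi (y j) (e j) (R (τ j) ω)) * ((Xp R s ω * Xp R u ω : ℝ) : ℂ))) P :=
      fun c c' => (i2 c s s).add (i2 c' s u)
    have hsu := (hst.trans htu).le
    rw [integral_sub (i1 t t) (i3 _ _ _), integral_add (i4 _ _) (i2 _ _ _),
      integral_add (i2 _ _ _) (i2 _ _ _),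
      integral_const_mul, integral_const_mul, integral_const_mul, h2 t t hst.le le_rfl htu.le,
      h2 s s le_rfl le_rfl hsu, h2 s u le_rfl hsu le_rfl, h2 u u hsu le_rfl le_rfl]
    have hus' : (u : ℂ) - s ≠ 0 := by exact_mod_cast hus
    have hN' : (u : ℂ) * (1 + 3 * s) + 1 + 2 * s ≠ 0 := by
      have := hN
      unfold dN at this
      exact_mod_cast this
    unfold dN
    push_cast
    field_simp
    ring

end Pool.Agent.Lib_helper33.QH
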