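import Mathlib
import Pool.Agent.Lib_helper33.QH.Trans
import Pool.Agent.Lib_helper33.QH.HarnessDefs

/-!
# From the transforms to the quadratic harness property
-/

set_option autoImplicit false

open MeasureTheory Filter Topology ProbabilityTheory
open scoped ENNReal NNReal

namespace Pool.Agent.Lib_helper33.QH

variable {Ω : Type*} [mΩ : MeasurableSpace Ω] {P : Measure Ω} {R : Tm → Ω → ℝ}

/-- the centred process `X_t = t R_t - t` -/
noncomputable def XX (R : Tm → Ω → ℝ) (t : ℝ≥0) (ω : Ω) : ℝ := Xp R (t : ℝ) ω - t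

theorem measurable_XX (hR : ∀ t, Measurable (R t)) (t : ℝ≥0) : Measurable (XX R t) :=
  (measurable_Xp hR t).sub_const _

omit mΩ in
theorem XX_zero (ω : Ω) : XX R 0 ω = 0 := by
  unfold XX Xp
  simp

omit mΩ in
theorem XX_pos {t : ℝ≥0} (ht : 0 < t) (ω : Ω) :
    XX R t ω = t * R ⟨t, NNReal.coe_pos.mpr ht⟩ ω - t := by
  unfold XX Xp
  rw [dif_pos (NNReal.coe_pos.mpr ht)]

theorem sigmaOf_le (hR : ∀ t, Measurable (R t)) (S : Set ℝ≥0) : sigmaOf (XX R) S ≤ mΩ :=
  iSup₂_le fun r _ => (measurable_XX hR r).comap_le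

omit mΩ in
/-- the σ-algebra of the centred process is generated by `R` -/
theorem sigmaOf_le_R (S : Set ℝ≥0) :
    sigmaOf (XX R) S ≤ ⨆ j ∈ {j : Tm | (⟨(j : ℝ), j.2.le⟩ : ℝ≥0) ∈ S},
      MeasurableSpace.comap (R j) inferInstance := by
  refine iSup₂_le fun r hr => ?_
  rcases eq_or_lt_of_le (zero_le (a := r)) with h0 | h0
  · have h1 : XX R r = fun _ => 0 := by
      funext ω
      rw [← h0]
      exact XX_zero ω
    rw [h1, MeasurableSpace.comap_const]
    exact bot_le
  · have h1 : XX R r = (fun x : ℝ => (r : ℝ) * x - r) ∘ R ⟨r, NNReal.coe_pos.mpr h0⟩ := by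
      funext ω
      exact XX_pos h0 ω
    have h2 : MeasurableSpace.comap (XX R r) (inferInstance : MeasurableSpace ℝ) ≤
        MeasurableSpace.comap (R ⟨r, NNReal.coe_pos.mpr h0⟩) inferInstance := by
      rw [h1, ← MeasurableSpace.comap_comp]
      refine MeasurableSpace.comap_mono ?_
      exact Measurable.comap_le (by fun_prop)
    refine h2.trans ?_
    exact le_iSup₂_of_le (⟨r, NNReal.coe_pos.mpr h0⟩ : Tm) hr le_rfl

omit mΩ in
theorem measurable_sigmaOf {S : Set ℝ≥0} {r : ℝ≥0} (hr : r ∈ S) :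
    Measurable[sigmaOf (XX R) S] (XX R r) := by
  refine Measurable.mono (comap_measurable (XX R r)) ?_ le_rfl
  exact le_iSup₂_of_le r hr le_rfl

/-- the integrals of `H` over the sets of the outer σ-algebra vanish as soon as the transforms
vanish -/
theorem outer_integral [IsProbabilityMeasure P] (hR : TQ P R) {s u : ℝ≥0} {H : Ω → ℝ}
    (hHm : Measurable H) (hHi : Integrable H P)
    (h0 : ∀ {ι : Type} [Fintype ι] (τ : ι → Tm) (y : ι → ℝ) (e : ι → ℕ),
      (∀ j, (τ j : ℝ) ≤ s ∨ (u : ℝ) ≤ τ j) →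
      ∫ ω, (∏ j, chi (y j) (e j) (R (τ j) ω)) * ((H ω : ℝ) : ℂ) ∂P = 0)
    {A : Set Ω} (hA : MeasurableSet[outer (XX R) s u] A) : ∫ ω in A, H ω ∂P = 0 := by
  refine det_family (S := {j : Tm | (⟨(j : ℝ), j.2.le⟩ : ℝ≥0) ∈ Set.Iic s ∪ Set.Ici u})
    hR.meas (fun j _ => hR.ne j) hHm hHi ?_ (sigmaOf_le_R _ A hA)
  intro J hJ y e
  refine h0 (fun j : J => (j : Tm)) y e fun j => ?_
  rcases hJ j.2 with h | h
  · exact Or.inl h
  · exact Or.inr h

theorem qh_of_tq [IsProbabilityMeasure P] (hR : TQ P R) :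
    IsQuadraticHarness P (XX R) 3 1 2 (-3) (-2) := by
  have hm := measurable_XX hR.meas
  have hXpm := measurable_Xp hR.meas
  have hXsq : ∀ t, Integrable (fun ω => Xp R t ω ^ 2) P := Xp_sq hR.sq
  have hXi : ∀ t, Integrable (Xp R t) P := fun t => integrable_of_sq (hXpm t) (hXsq t)
  have hXX : ∀ s t, Integrable (fun ω => Xp R s ω * Xp R t ω) P := fun s t =>
    integrable_mul_of_sq (hXpm s) (hXpm t) (hXsq s) (hXsq t)
  have hsqi : ∀ t, Integrable (fun ω => XX R t ω ^ 2) P := by
    intro t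
    have h1 : Integrable (fun ω => Xp R t ω ^ 2 - 2 * t * Xp R t ω + (t : ℝ) ^ 2) P :=
      ((hXsq t).sub ((hXi t).const_mul _)).add (integrable_const _)
    refine h1.congr (ae_of_all _ fun ω => ?_)
    unfold XX
    ring
  have hmem : ∀ t, MemLp (XX R t) 2 P := fun t =>
    (memLp_two_iff_integrable_sq (hm t).aestronglyMeasurable).mpr (hsqi t)
  have hi : ∀ t, Integrable (XX R t) P := fun t => (hmem t).integrable one_le_two
  have hmeanp : ∀ t : ℝ≥0, ∫ ω, Xp R t ω ∂P = t := by
    intro t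
    rcases eq_or_lt_of_le (zero_le (a := t)) with h0 | h0
    · simp [← h0, Xp]
    · have h1 : ∀ ω, Xp R (t : ℝ) ω = t * R ⟨t, NNReal.coe_pos.mpr h0⟩ ω := by
        intro ω; unfold Xp; rw [dif_pos (NNReal.coe_pos.mpr h0)]
      simp_rw [h1]
      rw [integral_const_mul, hR.mean, mul_one]
  refine ⟨hm, hmem, XX_zero, fun t => ?_, ?_, ?_, ?_⟩
  · unfold XX
    rw [integral_sub (hXi t) (integrable_const _), hmeanp]
    simp
  · -- covariance
    have hcov : ∀ s t : ℝ≥0, s ≤ t → ∫ ω, XX R s ω * XX R t ω ∂P = s := by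
      intro s t hst
      rcases eq_or_lt_of_le (zero_le (a := s)) with h0 | h0
      · simp [← h0, XX_zero]
      · have ht0 : 0 < t := h0.trans_le hst
        have h1 : ∀ ω, XX R s ω * XX R t ω = (s : ℝ) * t *
            (R ⟨s, NNReal.coe_pos.mpr h0⟩ ω * R ⟨t, NNReal.coe_pos.mpr ht0⟩ ω) -
            (s : ℝ) * (Xp R t ω) - t * (Xp R s ω) + (s : ℝ) * t := by
          intro ω
          unfold XX Xp
          rw [dif_pos (NNReal.coe_pos.mpr h0), dif_pos (NNReal.coe_pos.mpr ht0)]
          ring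
        have hRR : Integrable (fun ω => R ⟨s, NNReal.coe_pos.mpr h0⟩ ω *
            R ⟨t, NNReal.coe_pos.mpr ht0⟩ ω) P :=
          integrable_mul_of_sq (hR.meas _) (hR.meas _) (hR.sq _) (hR.sq _)
        have i1 : Integrable (fun ω => (s : ℝ) * t *
            (R ⟨s, NNReal.coe_pos.mpr h0⟩ ω * R ⟨t, NNReal.coe_pos.mpr ht0⟩ ω)) P :=
          hRR.const_mul _
        have i2 : Integrable (fun ω => (s : ℝ) * Xp R t ω) P := (hXi _).const_mul _
        have i3 : Integrable (fun ω => (t : ℝ) * Xp R s ω) P := (hXi _).const_mul _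
        have i4 : Integrable (fun ω => (s : ℝ) * t *
            (R ⟨s, NNReal.coe_pos.mpr h0⟩ ω * R ⟨t, NNReal.coe_pos.mpr ht0⟩ ω) -
            (s : ℝ) * Xp R t ω) P := i1.sub i2
        have i5 : Integrable (fun ω => (s : ℝ) * t *
            (R ⟨s, NNReal.coe_pos.mpr h0⟩ ω * R ⟨t, NNReal.coe_pos.mpr ht0⟩ ω) -
            (s : ℝ) * Xp R t ω - t * Xp R s ω) P := i4.sub i3
        simp_rw [h1]
        rw [integral_add i5 (integrable_const _), integral_sub i4 i3, integral_sub i1 i2,
          integral_const_mul, integral_const_mul, integral_const_mul, hmeanp, hmeanp,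
          hR.cov ⟨s, NNReal.coe_pos.mpr h0⟩ ⟨t, NNReal.coe_pos.mpr ht0⟩ hst]
        have ht' : (t : ℝ) ≠ 0 := (NNReal.coe_pos.mpr ht0).ne'
        simp only [integral_const, probReal_univ, smul_eq_mul, one_mul]
        field_simp
        ring
    intro s t
    rcases le_total s t with hst | hst
    · rw [hcov s t hst, min_eq_left (by exact_mod_cast hst)]
    · have h1 : ∀ ω, XX R s ω * XX R t ω = XX R t ω * XX R s ω := fun ω => mul_comm _ _
      simp_rw [h1]
      rw [hcov t s hst, min_eq_right (by exact_mod_cast hst)]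
  · -- harness
    intro s t u hst htu
    have hst' : (s : ℝ) < t := hst
    have htu' : (t : ℝ) < u := htu
    have hus : (u : ℝ) - s ≠ 0 := by
      have : (0 : ℝ) < u - s := by linarith
      exact this.ne'
    have hs0 : (0 : ℝ) ≤ s := s.2
    symm
    have hgi : Integrable (fun ω => ((u : ℝ) - t) / (u - s) * XX R s ω +
        ((t : ℝ) - s) / (u - s) * XX R u ω) P := ((hi s).const_mul _).add ((hi u).const_mul _)
    refine ae_eq_condExp_of_forall_setIntegral_eq (sigmaOf_le hR.meas _) (hi t)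
      (fun A _ _ => hgi.integrableOn) ?_ ?_
    · intro A hA _
      have h1 : ∫ ω in A, (Xp R t ω - (((u : ℝ) - t) / (u - s) * Xp R s ω +
          ((t : ℝ) - s) / (u - s) * Xp R u ω)) ∂P = 0 := by
        refine outer_integral hR ?_ ?_ ?_ hA
        · exact (hXpm _).sub (((hXpm _).const_mul _).add ((hXpm _).const_mul _))
        · exact (hXi _).sub (((hXi _).const_mul _).add ((hXi _).const_mul _))
        · intro ι _ τ y e hτ
          exact hR.lin τ y e s t u hs0 hst' htu' hτ
      have h2 : ∀ ω, (Xp R t ω - (((u : ℝ) - t) / (u - s) * Xp R s ω +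
          ((t : ℝ) - s) / (u - s) * Xp R u ω)) = XX R t ω -
          (((u : ℝ) - t) / (u - s) * XX R s ω + ((t : ℝ) - s) / (u - s) * XX R u ω) := by
        intro ω
        unfold XX
        field_simp
        ring
      simp_rw [h2] at h1
      rw [integral_sub (hi t).integrableOn hgi.integrableOn, sub_eq_zero] at h1
      exact h1.symm
    · refine (Measurable.stronglyMeasurable ?_).aestronglyMeasurable
      exact ((measurable_sigmaOf (Or.inl (Set.mem_Iic.mpr le_rfl))).const_mul _).add
        ((measurable_sigmaOf (Or.inr (Set.mem_Ici.mpr le_rfl))).const_mul _)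
  · -- quadratic condition
    intro s t u hst htu
    have hst' : (s : ℝ) < t := hst
    have htu' : (t : ℝ) < u := htu
    have hs0 : (0 : ℝ) ≤ s := s.2
    have hus : (u : ℝ) - s ≠ 0 := by
      have : (0 : ℝ) < u - s := by linarith
      exact this.ne'
    have hN : (u : ℝ) * (1 + 3 * s) + 1 + 2 * s ≠ 0 := by
      have : (0 : ℝ) < (u : ℝ) * (1 + 3 * s) + 1 + 2 * s := by
        have : (0 : ℝ) < u := by linarith
        positivity
      exact this.ne'
    have hN' : (u : ℝ) * (1 + 3 * s) + 1 - (-2) * s ≠ 0 := by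
      have : (u : ℝ) * (1 + 3 * s) + 1 - (-2) * s = (u : ℝ) * (1 + 3 * s) + 1 + 2 * s := by ring
      rw [this]; exact hN
    symm
    have hXsu : Integrable (fun ω => XX R s ω * XX R u ω) P :=
      integrable_mul_of_sq (hm s) (hm u) (hsqi s) (hsqi u)
    have hgi : Integrable (fun ω => coefA 3 1 (-2) s t u * XX R s ω ^ 2 +
        coefB 3 1 (-2) s t u * (XX R s ω * XX R u ω) +
        coefC 3 1 (-2) s t u * XX R u ω ^ 2 + coefD 3 1 2 (-3) (-2) s t u * XX R s ω +
        coefE 3 1 2 (-3) (-2) s t u * XX R u ω + coefF 3 1 (-2) s t u) P :=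
      ((((((hsqi s).const_mul _).add (hXsu.const_mul _)).add ((hsqi u).const_mul _)).add
        ((hi s).const_mul _)).add ((hi u).const_mul _)).add (integrable_const _)
    refine ae_eq_condExp_of_forall_setIntegral_eq (sigmaOf_le hR.meas _) (hsqi t)
      (fun A _ _ => hgi.integrableOn) ?_ ?_
    · intro A hA _
      set H1 : Ω → ℝ := fun ω => Xp R t ω - (((u : ℝ) - t) / (u - s) * Xp R s ω +
          ((t : ℝ) - s) / (u - s) * Xp R u ω) with hH1
      set H2 : Ω → ℝ := fun ω => Xp R t ω ^ 2 - (((u : ℝ) - t) * (u * (1 + 3 * t) + 1 + 2 * t) /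
          (((u : ℝ) - s) * dN s u) *
          Xp R s ω ^ 2 + -(((u : ℝ) - t) * (t - s)) / (((u : ℝ) - s) * dN s u) *
            (Xp R s ω * Xp R u ω) +
          ((t : ℝ) - s) * (t * (1 + 3 * s) + 1 + 2 * s) / (((u : ℝ) - s) * dN s u) *
            Xp R u ω ^ 2) with hH2
      have hH1i : Integrable H1 P := (hXi _).sub (((hXi _).const_mul _).add ((hXi _).const_mul _))
      have hH2i : Integrable H2 P := (hXsq _).sub
        ((((hXsq _).const_mul _).add ((hXX _ _).const_mul _)).add ((hXsq _).const_mul _))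
      have hH1m : Measurable H1 := (hXpm _).sub (((hXpm _).const_mul _).add ((hXpm _).const_mul _))
      have hH2m : Measurable H2 := ((hXpm _).pow_const 2).sub
        (((((hXpm _).pow_const 2).const_mul _).add (((hXpm _).mul (hXpm _)).const_mul _)).add
          (((hXpm _).pow_const 2).const_mul _))
      have h1 : ∫ ω in A, H1 ω ∂P = 0 :=
        outer_integral hR hH1m hH1i
          (fun τ y e hτ => hR.lin τ y e s t u hs0 hst' htu' hτ) hA
      have h1' : ∫ ω in A, H2 ω ∂P = 0 :=
        outer_integral hR hH2m hH2i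
          (fun τ y e hτ => hR.quad τ y e s t u hs0 hst' htu' hτ) hA
      have h2 : ∀ ω, XX R t ω ^ 2 - (coefA 3 1 (-2) s t u * XX R s ω ^ 2 +
        coefB 3 1 (-2) s t u * (XX R s ω * XX R u ω) +
        coefC 3 1 (-2) s t u * XX R u ω ^ 2 + coefD 3 1 2 (-3) (-2) s t u * XX R s ω +
        coefE 3 1 2 (-3) (-2) s t u * XX R u ω + coefF 3 1 (-2) s t u) =
        H2 ω - 2 * t * H1 ω := by
        intro ω
        simp only [hH1, hH2]
        unfold XX coefA coefB coefC coefD coefE coefF coefN dN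
        generalize Xp R s ω = a
        generalize Xp R t ω = b
        generalize Xp R u ω = c
        have hN3 : (u : ℝ) * (1 + 3 * s) + 1 - (-2) * s = (u : ℝ) * (1 + 3 * s) + 1 + 2 * s := by
          ring
        rw [hN3]
        field_simp
        ring
      have h3 : ∫ ω in A, (XX R t ω ^ 2 - (coefA 3 1 (-2) s t u * XX R s ω ^ 2 +
        coefB 3 1 (-2) s t u * (XX R s ω * XX R u ω) +
        coefC 3 1 (-2) s t u * XX R u ω ^ 2 + coefD 3 1 2 (-3) (-2) s t u * XX R s ω +
        coefE 3 1 2 (-3) (-2) s t u * XX R u ω + coefF 3 1 (-2) s t u)) ∂P = 0 := by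
        simp_rw [h2]
        rw [integral_sub hH2i.integrableOn (hH1i.const_mul _).integrableOn, integral_const_mul,
          h1, h1']
        ring
      rw [integral_sub (hsqi t).integrableOn hgi.integrableOn, sub_eq_zero] at h3
      exact h3.symm
    · refine (Measurable.stronglyMeasurable ?_).aestronglyMeasurable
      have m1 : Measurable[outer (XX R) s u] (XX R s) :=
        measurable_sigmaOf (Or.inl (Set.mem_Iic.mpr le_rfl))
      have m2 : Measurable[outer (XX R) s u] (XX R u) :=
        measurable_sigmaOf (Or.inr (Set.mem_Ici.mpr le_rfl))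
      exact ((((((m1.pow_const 2).const_mul _).add ((m1.mul m2).const_mul _)).add
        ((m2.pow_const 2).const_mul _)).add (m1.const_mul _)).add (m2.const_mul _)).add_const _

end Pool.Agent.Lib_helper33.QH
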