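import Mathlib
import Pool.Agent.Lib_helper33.QH.Harness

/-!
# Mixtures of two laws
-/

set_option autoImplicit false

open MeasureTheory Filter Topology ProbabilityTheory
open scoped ENNReal NNReal

namespace Pool.Agent.Lib_helper33.QH

variable {Ω₁ Ω₂ : Type*} [MeasurableSpace Ω₁] [MeasurableSpace Ω₂]

theorem emb_inl : MeasurableEmbedding (Sum.inl : Ω₁ → Ω₁ ⊕ Ω₂) :=
  ⟨Sum.inl_injective, measurable_inl, fun _ hs => MeasurableSet.inl_image hs⟩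

theorem emb_inr : MeasurableEmbedding (Sum.inr : Ω₂ → Ω₁ ⊕ Ω₂) :=
  ⟨Sum.inr_injective, measurable_inr, fun _ hs => MeasurableSet.inr_image hs⟩

/-- the fair mixture of two probabilities, on the disjoint union -/
noncomputable def mix (P₁ : Measure Ω₁) (P₂ : Measure Ω₂) : Measure (Ω₁ ⊕ Ω₂) :=
  (2⁻¹ : ℝ≥0∞) • P₁.map Sum.inl + (2⁻¹ : ℝ≥0∞) • P₂.map Sum.inr

variable {P₁ : Measure Ω₁} {P₂ : Measure Ω₂}

instance mix_prob [IsProbabilityMeasure P₁] [IsProbabilityMeasure P₂] :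
    IsProbabilityMeasure (mix P₁ P₂) := by
  constructor
  unfold mix
  rw [Measure.add_apply, Measure.smul_apply, Measure.smul_apply,
    Measure.map_apply measurable_inl MeasurableSet.univ,
    Measure.map_apply measurable_inr MeasurableSet.univ]
  simp only [Set.preimage_univ, measure_univ, smul_eq_mul, mul_one]
  exact ENNReal.inv_two_add_inv_two

theorem mix_ae {p : Ω₁ ⊕ Ω₂ → Prop} :
    (∀ᵐ ω ∂(mix P₁ P₂), p ω) ↔ (∀ᵐ ω ∂P₁, p (Sum.inl ω)) ∧ (∀ᵐ ω ∂P₂, p (Sum.inr ω)) := by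
  unfold mix
  rw [ae_add_measure_iff, Measure.ae_ennreal_smul_measure_iff (by simp),
    Measure.ae_ennreal_smul_measure_iff (by simp), emb_inl.ae_map_iff, emb_inr.ae_map_iff]

theorem mix_integrable {F : Type*} [NormedAddCommGroup F] {f : Ω₁ ⊕ Ω₂ → F} :
    Integrable f (mix P₁ P₂) ↔
      Integrable (fun ω => f (Sum.inl ω)) P₁ ∧ Integrable (fun ω => f (Sum.inr ω)) P₂ := by
  unfold mix
  rw [integrable_add_measure, integrable_smul_measure (by simp) (by simp),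
    integrable_smul_measure (by simp) (by simp),
    emb_inl.integrable_map_iff, emb_inr.integrable_map_iff]
  rfl

theorem mix_integral {F : Type*} [NormedAddCommGroup F] [NormedSpace ℝ F] {f : Ω₁ ⊕ Ω₂ → F}
    (h₁ : Integrable (fun ω => f (Sum.inl ω)) P₁) (h₂ : Integrable (fun ω => f (Sum.inr ω)) P₂) :
    ∫ ω, f ω ∂(mix P₁ P₂) = (2⁻¹ : ℝ) • ∫ ω, f (Sum.inl ω) ∂P₁ +
      (2⁻¹ : ℝ) • ∫ ω, f (Sum.inr ω) ∂P₂ := by
  have h := (mix_integrable (P₁ := P₁) (P₂ := P₂) (f := f)).mpr ⟨h₁, h₂⟩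
  unfold mix at h ⊢
  rw [integrable_add_measure] at h
  rw [integral_add_measure h.1 h.2, integral_smul_measure, integral_smul_measure,
    emb_inl.integral_map, emb_inr.integral_map]
  simp

/-- the mixed process -/
def mixR (R₁ : Tm → Ω₁ → ℝ) (R₂ : Tm → Ω₂ → ℝ) (t : Tm) : Ω₁ ⊕ Ω₂ → ℝ :=
  Sum.elim (R₁ t) (R₂ t)

variable {R₁ : Tm → Ω₁ → ℝ} {R₂ : Tm → Ω₂ → ℝ}

omit [MeasurableSpace Ω₁] [MeasurableSpace Ω₂] in
theorem mixR_inl (t : Tm) (ω : Ω₁) : mixR R₁ R₂ t (Sum.inl ω) = R₁ t ω := rfl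

omit [MeasurableSpace Ω₁] [MeasurableSpace Ω₂] in
theorem mixR_inr (t : Tm) (ω : Ω₂) : mixR R₁ R₂ t (Sum.inr ω) = R₂ t ω := rfl

omit [MeasurableSpace Ω₁] [MeasurableSpace Ω₂] in
theorem Xp_inl (t : ℝ) (ω : Ω₁) : Xp (mixR R₁ R₂) t (Sum.inl ω) = Xp R₁ t ω := rfl

omit [MeasurableSpace Ω₁] [MeasurableSpace Ω₂] in
theorem Xp_inr (t : ℝ) (ω : Ω₂) : Xp (mixR R₁ R₂) t (Sum.inr ω) = Xp R₂ t ω := rfl

theorem tq_mix [IsProbabilityMeasure P₁] [IsProbabilityMeasure P₂] (h₁ : TQ P₁ R₁)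
    (h₂ : TQ P₂ R₂) : TQ (mix P₁ P₂) (mixR R₁ R₂) := by
  have hi : ∀ t, Integrable (R₁ t) P₁ := fun t => integrable_of_sq (h₁.meas t) (h₁.sq t)
  have hi' : ∀ t, Integrable (R₂ t) P₂ := fun t => integrable_of_sq (h₂.meas t) (h₂.sq t)
  have hX : ∀ t, Integrable (Xp R₁ t) P₁ := fun t =>
    integrable_of_sq (measurable_Xp h₁.meas t) (Xp_sq h₁.sq t)
  have hX' : ∀ t, Integrable (Xp R₂ t) P₂ := fun t =>
    integrable_of_sq (measurable_Xp h₂.meas t) (Xp_sq h₂.sq t)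
  have hXX : ∀ s t, Integrable (fun ω => Xp R₁ s ω * Xp R₁ t ω) P₁ := fun s t =>
    integrable_mul_of_sq (measurable_Xp h₁.meas s) (measurable_Xp h₁.meas t)
      (Xp_sq h₁.sq s) (Xp_sq h₁.sq t)
  have hXX' : ∀ s t, Integrable (fun ω => Xp R₂ s ω * Xp R₂ t ω) P₂ := fun s t =>
    integrable_mul_of_sq (measurable_Xp h₂.meas s) (measurable_Xp h₂.meas t)
      (Xp_sq h₂.sq s) (Xp_sq h₂.sq t)
  refine ⟨fun t => (h₁.meas t).sumElim (h₂.meas t), fun t => mix_ae.mpr ⟨h₁.ne t, h₂.ne t⟩,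
    fun t => mix_integrable.mpr ⟨h₁.sq t, h₂.sq t⟩, fun t => ?_, fun s t hst => ?_, ?_, ?_⟩
  · rw [mix_integral (hi t) (hi' t)]
    simp only [mixR_inl, mixR_inr]
    rw [h₁.mean, h₂.mean]
    norm_num
  · have i1 : Integrable (fun ω => R₁ s ω * R₁ t ω) P₁ :=
      integrable_mul_of_sq (h₁.meas s) (h₁.meas t) (h₁.sq s) (h₁.sq t)
    have i2 : Integrable (fun ω => R₂ s ω * R₂ t ω) P₂ :=
      integrable_mul_of_sq (h₂.meas s) (h₂.meas t) (h₂.sq s) (h₂.sq t)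
    rw [mix_integral (f := fun ω => mixR R₁ R₂ s ω * mixR R₁ R₂ t ω) i1 i2]
    simp only [mixR_inl, mixR_inr]
    rw [h₁.cov s t hst, h₂.cov s t hst, smul_eq_mul]
    ring
  · intro ι _ τ y e s t u hs hst htu hτ
    have i1 := integrable_chi_mul h₁.meas τ y e ((hX t).sub
      (((hX s).const_mul ((u - t) / (u - s))).add ((hX u).const_mul ((t - s) / (u - s)))))
    have i2 := integrable_chi_mul h₂.meas τ y e ((hX' t).sub
      (((hX' s).const_mul ((u - t) / (u - s))).add ((hX' u).const_mul ((t - s) / (u - s)))))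
    rw [mix_integral (f := fun ω => (∏ j, chi (y j) (e j) (mixR R₁ R₂ (τ j) ω)) *
      ((Xp (mixR R₁ R₂) t ω - ((u - t) / (u - s) * Xp (mixR R₁ R₂) s ω +
        (t - s) / (u - s) * Xp (mixR R₁ R₂) u ω) : ℝ) : ℂ)) i1 i2]
    have e1 := h₁.lin τ y e s t u hs hst htu hτ
    have e2 := h₂.lin τ y e s t u hs hst htu hτ
    simp only [mixR_inl, mixR_inr, Xp_inl, Xp_inr]
    rw [e1, e2]
    simp
  · intro ι _ τ y e s t u hs hst htu hτ
    have e1 := h₁.quad τ y e s t u hs hst htu hτ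
    have e2 := h₂.quad τ y e s t u hs hst htu hτ
    have hgen : ∀ (c c' c'' : ℝ),
        Integrable (fun ω => (∏ j, chi (y j) (e j) (mixR R₁ R₂ (τ j) (Sum.inl ω))) *
          ((Xp (mixR R₁ R₂) t (Sum.inl ω) ^ 2 - (c * Xp (mixR R₁ R₂) s (Sum.inl ω) ^ 2 +
            c' * (Xp (mixR R₁ R₂) s (Sum.inl ω) * Xp (mixR R₁ R₂) u (Sum.inl ω)) +
            c'' * Xp (mixR R₁ R₂) u (Sum.inl ω) ^ 2) : ℝ) : ℂ)) P₁ ∧
        Integrable (fun ω => (∏ j, chi (y j) (e j) (mixR R₁ R₂ (τ j) (Sum.inr ω))) *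
          ((Xp (mixR R₁ R₂) t (Sum.inr ω) ^ 2 - (c * Xp (mixR R₁ R₂) s (Sum.inr ω) ^ 2 +
            c' * (Xp (mixR R₁ R₂) s (Sum.inr ω) * Xp (mixR R₁ R₂) u (Sum.inr ω)) +
            c'' * Xp (mixR R₁ R₂) u (Sum.inr ω) ^ 2) : ℝ) : ℂ)) P₂ := by
      intro c c' c''
      refine ⟨integrable_chi_mul h₁.meas τ y e ((Xp_sq h₁.sq t).sub
        ((((Xp_sq h₁.sq s).const_mul c).add ((hXX s u).const_mul c')).add
          ((Xp_sq h₁.sq u).const_mul c''))),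
        integrable_chi_mul h₂.meas τ y e ((Xp_sq h₂.sq t).sub
        ((((Xp_sq h₂.sq s).const_mul c).add ((hXX' s u).const_mul c')).add
          ((Xp_sq h₂.sq u).const_mul c'')))⟩
    rw [mix_integral (hgen _ _ _).1 (hgen _ _ _).2]
    simp only [mixR_inl, mixR_inr, Xp_inl, Xp_inr]
    rw [e1, e2]
    simp

end Pool.Agent.Lib_helper33.QH
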