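import Mathlib
import Pool.Agent.Lib_helper33.QH.Mix

/-!
# Signs of the multiplicative process
-/

set_option autoImplicit false

open MeasureTheory Filter Topology ProbabilityTheory
open scoped ENNReal NNReal

namespace Pool.Agent.Lib_helper33.QH

variable {n : ℝ → ℝ → ℝ} {Λ' : Measure (ℝ × ℝ)}

/-- points with negative mark and time in `(r, s]` -/
def Neg (r s : ℝ) : Set (ℝ × ℝ) := {p | r < p.1 ∧ p.1 ≤ s ∧ p.2 < 0}

/-- points with negative mark and time after `t` -/
def NegT (t : ℝ) : Set (ℝ × ℝ) := {p | t < p.1 ∧ p.2 < 0}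

theorem measurableSet_Neg (r s : ℝ) : MeasurableSet (Neg r s) :=
  (measurableSet_lt measurable_const measurable_fst).inter
    ((measurableSet_le measurable_fst measurable_const).inter
      (measurableSet_lt measurable_snd measurable_const))

theorem measurableSet_NegT (t : ℝ) : MeasurableSet (NegT t) :=
  (measurableSet_lt measurable_const measurable_fst).inter
      (measurableSet_lt measurable_snd measurable_const)

theorem negT_fin (hn : GoodDensity n) (hle : Λ' ≤ Lam n) {t : ℝ} (ht : 0 < t) :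
    Λ' (NegT t) ≠ ∞ := by
  have h1 : (Lam n) (NegT t) ≤
      ∫⁻ p in Prod.fst ⁻¹' (Set.Ioi t), ENNReal.ofReal ((p.2 - 1) ^ 2) ∂(Lam n) := by
    rw [← setLIntegral_one]
    have h2 : NegT t ⊆ Prod.fst ⁻¹' (Set.Ioi t) := fun p hp => hp.1
    calc ∫⁻ p in NegT t, 1 ∂(Lam n)
        ≤ ∫⁻ p in NegT t, ENNReal.ofReal ((p.2 - 1) ^ 2) ∂(Lam n) := by
          refine setLIntegral_mono' (measurableSet_NegT t) fun p hp => ?_
          rw [← ENNReal.ofReal_one]
          apply ENNReal.ofReal_le_ofReal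
          have : p.2 < 0 := hp.2
          nlinarith
      _ ≤ _ := lintegral_mono_set h2
  refine ne_top_of_le_ne_top ?_ ((hle _).trans h1)
  rw [lintegral_tail hn ht]
  exact ENNReal.ofReal_ne_top

theorem neg_fin (hn : GoodDensity n) (hle : Λ' ≤ Lam n) {r : ℝ} (hr : 0 < r) (s : ℝ) :
    Λ' (Neg r s) ≠ ∞ :=
  ne_top_of_le_ne_top (negT_fin hn hle hr) (measure_mono fun _ hp => ⟨hp.1, hp.2.2⟩)

theorem sg_wt (t : Tm) (p : ℝ × ℝ) :
    sg (wt t p) = 1 - 2 * (NegT t).indicator (fun _ => (1 : ℝ)) p := by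
  unfold wt
  by_cases h : (t : ℝ) < p.1 ∧ p.2 < 0
  · rw [if_pos ⟨h.1, h.2.ne⟩, sg_of_neg h.2, Set.indicator_of_mem (by exact h)]
    norm_num
  · rw [Set.indicator_of_notMem (by exact h)]
    split_ifs with h2
    · have h3 : 0 < p.2 := by
        rcases lt_or_gt_of_ne h2.2 with h4 | h4
        · exact absurd ⟨h2.1, h4⟩ h
        · exact h4
      rw [sg_of_pos h3]; norm_num
    · rw [sg_of_pos one_pos]; norm_num

variable {Ω : Type*} [MeasurableSpace Ω] {P : Measure Ω} {R : Tm → Ω → ℝ}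

theorem integrable_sg [IsProbabilityMeasure P] {f : Ω → ℝ} (hf : Measurable f) :
    Integrable (fun ω => sg (f ω)) P := by
  refine Integrable.mono' (integrable_const (1 : ℝ)) (measurable_sg.comp hf).aestronglyMeasurable ?_
  exact ae_of_all _ fun ω => by rw [Real.norm_eq_abs, abs_sg]

/-- the mean of the sign -/
theorem mean_sg [IsProbabilityMeasure P] (hR : MultProc Λ' wt P R) (t : Tm) :
    ∫ ω, sg (R t ω) ∂P = Real.exp (-2 * Λ'.real (NegT t)) := by
  have h1 := hR.mf (ι := Unit) (fun _ => t) (fun _ => 0) (fun _ => 1) t 0 zero_le_one t 0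
    zero_le_one
  simp only [tf, cp, Finset.univ_unique, Finset.prod_singleton, Finset.sum_singleton,
    chi_zero_one, pow_zero, mul_one, Complex.ofReal_zero, zero_mul, Nat.cast_zero, add_zero,
    sub_zero] at h1
  have h2 : ∀ x, ((sg (wt t x) : ℝ) : ℂ) - 1 =
      (((NegT t).indicator (fun _ => (-2 : ℝ)) x : ℝ) : ℂ) := by
    intro x
    rw [sg_wt]
    by_cases h : x ∈ NegT t
    · rw [Set.indicator_of_mem h, Set.indicator_of_mem h]; push_cast; ring
    · rw [Set.indicator_of_notMem h, Set.indicator_of_notMem h]; push_cast; ring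
  simp_rw [h2] at h1
  rw [integral_complex_ofReal, integral_complex_ofReal,
    integral_indicator_const _ (measurableSet_NegT t), ← Complex.ofReal_exp] at h1
  rw [Complex.ofReal_inj.mp h1, smul_eq_mul, mul_comm]

theorem pos_ae [IsProbabilityMeasure P] (hR : MultProc Λ' wt P R) (t : Tm)
    (h0 : Λ' (NegT t) = 0) : ∀ᵐ ω ∂P, 0 < R t ω := by
  have h1 := mean_sg hR t
  have h2 : Λ'.real (NegT t) = 0 := by rw [Measure.real, h0]; rfl
  rw [h2, mul_zero, Real.exp_zero] at h1
  have h3 : ∫ ω, (1 - sg (R t ω)) ∂P = 0 := by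
    rw [integral_sub (integrable_const _) (integrable_sg (hR.meas t)), h1]
    simp
  have h3n : 0 ≤ fun ω => 1 - sg (R t ω) := by
    intro ω
    have := abs_sg (R t ω)
    have h4 := le_abs_self (sg (R t ω))
    simp only [Pi.zero_apply]; linarith
  have h3i : Integrable (fun ω => 1 - sg (R t ω)) P :=
    (integrable_const _).sub (integrable_sg (hR.meas t))
  have h3' := (integral_eq_zero_iff_of_nonneg h3n h3i).mp h3
  filter_upwards [h3', hR.ne t] with ω h5 h6
  rcases lt_or_gt_of_ne h6 with h7 | h7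
  · simp only [Pi.zero_apply, sg_of_neg h7] at h5
    norm_num at h5
  · exact h7

/-- a sign increment is independent of the later values -/
theorem sg_indep (hn : GoodDensity n) (hle : Λ' ≤ Lam n)
    (hR : MultProc Λ' wt P R) {r s : Tm} (hrs : r ≤ s) {ι : Type} [Fintype ι] (τ : ι → Tm)
    (y : ι → ℝ) (e : ι → ℕ) (hτ : ∀ j, s ≤ τ j) :
    ∫ ω, (∏ j, chi (y j) (e j) (R (τ j) ω)) * ((sg (R r ω) * sg (R s ω) : ℝ) : ℂ) ∂P =
      (Real.exp (-2 * Λ'.real (Neg r s)) : ℂ) * ∫ ω, (∏ j, chi (y j) (e j) (R (τ j) ω)) ∂P := by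
  have h1 := hR.mf (ι := ι ⊕ Fin 2) (Sum.elim τ ![r, s]) (Sum.elim y ![0, 0])
    (Sum.elim e ![1, 1]) s 0 zero_le_one s 0 zero_le_one
  have h2 := hR.mf τ y e s 0 zero_le_one s 0 zero_le_one
  have hK := hR.wts.integrable_K τ y e s zero_le_one s zero_le_one
  simp only [tf, cp, Fintype.prod_sum_type, Fintype.sum_sum_type, Fin.prod_univ_two,
    Fin.sum_univ_two, Sum.elim_inl, Sum.elim_inr, Matrix.cons_val_zero, Matrix.cons_val_one,
    chi_zero_one, pow_zero, mul_one, Complex.ofReal_zero, zero_mul, Nat.cast_zero, add_zero]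
    at h1 h2 hK
  have hind : Integrable (fun p => (((Neg r s).indicator (fun _ => (-2 : ℝ)) p : ℝ) : ℂ)) Λ' := by
    have hreal : Integrable ((Neg (r : ℝ) s).indicator (fun _ => (-2 : ℝ))) Λ' :=
      (integrable_indicator_iff (measurableSet_Neg _ _)).mpr
        (integrableOn_const (neg_fin hn hle r.2 s))
    exact hreal.ofReal
  have h3 : ∀ x : ℝ × ℝ, (∏ j, chi (y j) (e j) (wt (τ j) x)) *
      (((sg (wt r x) : ℝ) : ℂ) * ((sg (wt s x) : ℝ) : ℂ)) - 1 -
      ∑ j, (y j : ℂ) * Complex.I * ((wt (τ j) x - 1 : ℝ) : ℂ) =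
      ((∏ j, chi (y j) (e j) (wt (τ j) x)) - 1 -
      ∑ j, (y j : ℂ) * Complex.I * ((wt (τ j) x - 1 : ℝ) : ℂ)) +
      (((Neg r s).indicator (fun _ => (-2 : ℝ)) x : ℝ) : ℂ) := by
    intro x
    have hrs' : (r : ℝ) ≤ s := hrs
    rw [sg_wt, sg_wt]
    by_cases hs : x ∈ NegT s
    · have hr : x ∈ NegT r := ⟨lt_of_le_of_lt hrs' hs.1, hs.2⟩
      have hN : x ∉ Neg r s := fun hh => absurd hs.1 (not_lt.mpr hh.2.1)
      rw [Set.indicator_of_mem hs, Set.indicator_of_mem hr, Set.indicator_of_notMem hN]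
      push_cast; ring
    · by_cases hr : x ∈ NegT r
      · have hxs : x.1 ≤ s := by
          by_contra hcon
          exact hs ⟨not_le.mp hcon, hr.2⟩
        have hN : x ∈ Neg r s := ⟨hr.1, hxs, hr.2⟩
        rw [Set.indicator_of_notMem hs, Set.indicator_of_mem hr, Set.indicator_of_mem hN]
        have hG : ∏ j, chi (y j) (e j) (wt (τ j) x) = 1 := by
          refine Finset.prod_eq_one fun j _ => ?_
          have : (s : ℝ) ≤ τ j := hτ j
          rw [wt_of_le (hxs.trans this), chi_one]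
        rw [hG]
        push_cast; ring
      · have hN : x ∉ Neg r s := fun hh => hr ⟨hh.1, hh.2.2⟩
        rw [Set.indicator_of_notMem hs, Set.indicator_of_notMem hr, Set.indicator_of_notMem hN]
        push_cast; ring
  simp_rw [h3] at h1
  rw [integral_add hK hind, Complex.exp_add, ← h2, integral_complex_ofReal,
    integral_indicator_const _ (measurableSet_Neg _ _)] at h1
  have h4 : ∀ ω, (∏ j, chi (y j) (e j) (R (τ j) ω)) * ((sg (R r ω) * sg (R s ω) : ℝ) : ℂ) =
      (∏ j, chi (y j) (e j) (R (τ j) ω)) * (((sg (R r ω) : ℝ) : ℂ) * ((sg (R s ω) : ℝ) : ℂ)) := by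
    intro ω; push_cast; ring
  simp_rw [h4]
  rw [h1, mul_comm]
  congr 1
  push_cast
  rw [smul_eq_mul, mul_comm (Λ'.real (Neg r s)) (-2)]
  push_cast
  rfl

end Pool.Agent.Lib_helper33.QH
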