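import Mathlib
import Pool.Agent.Lib_helper33.QH.Sign

/-!
# A cell of large jumps and the overlap of the laws
-/

set_option autoImplicit false

open MeasureTheory Filter Topology ProbabilityTheory
open scoped ENNReal NNReal

namespace Pool.Agent.Lib_helper33.QH

theorem cell_ae_one {E : Type*} [MeasurableSpace E] {A : Measure E} [IsFiniteMeasure A]
    {Q : Conf E → Prop} (h : ∀ᵐ c ∂(cellMeasure A), Q c) : ∀ᵐ p ∂A, Q (mkC 1 fun _ => p) := by
  unfold cellMeasure at h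
  rw [Measure.ae_ennreal_smul_measure_iff (by simp [Real.exp_pos]), Measure.ae_sum_iff] at h
  have h1 := h 1
  rw [Measure.ae_ennreal_smul_measure_iff (by simp)] at h1
  have h2 := ae_of_ae_map (measurable_mkC 1).aemeasurable h1
  have h3 := (measurePreserving_funUnique A (Fin 1)).symm
  exact h3.quasiMeasurePreserving.ae h2

/-- times -/
def T₁ : Tm := ⟨1, one_pos⟩
def T₂ : Tm := ⟨2, two_pos⟩
def T₃ : Tm := ⟨3, three_pos⟩

/-- the cell of large jumps -/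
def JJ : Set (ℝ × ℝ) := Set.Ioc 2 3 ×ˢ Set.Ioi 2

theorem measurableSet_JJ : MeasurableSet JJ := measurableSet_Ioc.prod measurableSet_Ioi

variable {n : ℝ → ℝ → ℝ}

theorem JJ_fin (hn : GoodDensity n) : (Lam n) JJ ≠ ∞ := by
  have h1 : (Lam n) JJ ≤
      ∫⁻ p in Prod.fst ⁻¹' (Set.Ioi 2), ENNReal.ofReal ((p.2 - 1) ^ 2) ∂(Lam n) := by
    rw [← setLIntegral_one]
    have h2 : JJ ⊆ Prod.fst ⁻¹' (Set.Ioi 2) := fun p hp => hp.1.1
    calc ∫⁻ p in JJ, 1 ∂(Lam n)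
        ≤ ∫⁻ p in JJ, ENNReal.ofReal ((p.2 - 1) ^ 2) ∂(Lam n) := by
          refine setLIntegral_mono' measurableSet_JJ fun p hp => ?_
          rw [← ENNReal.ofReal_one]
          apply ENNReal.ofReal_le_ofReal
          have : 2 < p.2 := hp.2
          nlinarith
      _ ≤ _ := lintegral_mono_set h2
  refine ne_top_of_le_ne_top ?_ h1
  rw [lintegral_tail hn two_pos]
  exact ENNReal.ofReal_ne_top

/-- from the one-jump configurations to Lebesgue measure -/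
theorem JJ_leb (hn : GoodDensity n) (hpos : ∀ t v, 0 < t → 2 < v → 0 < n t v)
    {G : Set ℝ} {κ : ℝ} (hκ : 0 < κ)
    (h : ∀ᵐ p ∂((Lam n).restrict JJ), κ * p.2 ∉ G) : ∀ᵐ x : ℝ, 2 * κ < x → x ∉ G := by
  rw [ae_restrict_iff' measurableSet_JJ, ae_iff] at h
  have h1 : {p : ℝ × ℝ | ¬(p ∈ JJ → κ * p.2 ∉ G)} = Set.Ioc 2 3 ×ˢ {v | 2 < v ∧ κ * v ∈ G} := by
    ext p
    simp only [JJ, Set.mem_ofPred_eq, Classical.not_imp, not_not, Set.mem_prod, Set.mem_Ioi]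
    tauto
  rw [h1] at h
  unfold Lam at h
  rw [withDensity_apply_eq_zero (measurable_dens hn)] at h
  have h2 : ({p : ℝ × ℝ | ENNReal.ofReal (n p.1 p.2) ≠ 0} ∩
      Set.Ioc 2 3 ×ˢ {v | 2 < v ∧ κ * v ∈ G}) = Set.Ioc 2 3 ×ˢ {v | 2 < v ∧ κ * v ∈ G} := by
    refine Set.inter_eq_right.mpr fun p hp => ?_
    have := hpos p.1 p.2 (two_pos.trans hp.1.1) hp.2.1
    simp [this]
  rw [h2] at h
  have h3 : (volume : Measure (ℝ × ℝ)) (Set.Ioc 2 3 ×ˢ {v | 2 < v ∧ κ * v ∈ G}) = 0 := by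
    have h4 : Set.Ioc (2 : ℝ) 3 ×ˢ {v : ℝ | 2 < v ∧ κ * v ∈ G} =
        (Set.Ioc (2 : ℝ) 3 ×ˢ {v : ℝ | 2 < v ∧ κ * v ∈ G}) ∩ {p : ℝ × ℝ | 0 < p.1} := by
      ext p
      exact ⟨fun hp => ⟨hp, two_pos.trans hp.1.1⟩, fun hp => hp.1⟩
    rw [h4, ← Measure.restrict_apply' measurableSet_pos]
    exact h
  rw [Measure.volume_eq_prod, Measure.prod_prod, Real.volume_Ioc] at h3
  have h5 : volume {v : ℝ | 2 < v ∧ κ * v ∈ G} = 0 := by
    rcases mul_eq_zero.mp h3 with h6 | h6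
    · norm_num at h6
    · exact h6
  have h7 := Real.volume_preimage_mul_left (a := κ⁻¹) (inv_ne_zero hκ.ne')
    {v : ℝ | 2 < v ∧ κ * v ∈ G}
  rw [h5, mul_zero] at h7
  rw [ae_iff]
  refine measure_mono_null (fun x hx => ?_) h7
  simp only [Set.mem_ofPred_eq, Classical.not_imp, not_not] at hx
  refine ⟨?_, ?_⟩
  · change 2 < κ⁻¹ * x
    rw [lt_inv_mul_iff₀ hκ]
    linarith [hx.1]
  · change κ * (κ⁻¹ * x) ∈ G
    rw [← mul_assoc, mul_inv_cancel₀ hκ.ne', one_mul]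
    exact hx.2

variable {Ω' : Type*} [MeasurableSpace Ω'] {P' : Measure Ω'} {R' : Tm → Ω' → ℝ}

/-- the process with the cell of large jumps split off -/
noncomputable def RJ (n : ℝ → ℝ → ℝ) (R' : Tm → Ω' → ℝ) (t : Tm)
    (ω : Ω' × Conf (ℝ × ℝ)) : ℝ :=
  R' t ω.1 * rho ((Lam n).restrict JJ) (wt t) ω.2

/-- the law -/
noncomputable def PJ (n : ℝ → ℝ → ℝ) (P' : Measure Ω') : Measure (Ω' × Conf (ℝ × ℝ)) :=
  P'.prod (cellMeasure ((Lam n).restrict JJ))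

theorem finJ (hn : GoodDensity n) : IsFiniteMeasure ((Lam n).restrict JJ) :=
  ⟨by rw [Measure.restrict_apply_univ]; exact lt_top_iff_ne_top.mpr (JJ_fin hn)⟩

theorem multProc_J (hn : GoodDensity n) [IsProbabilityMeasure P']
    (h : MultProc ((Lam n).restrict JJᶜ) wt P' R') : MultProc (Lam n) wt (PJ n P') (RJ n R') := by
  have := finJ hn
  have h1 : Wts ((Lam n).restrict JJ) wt := (wts_lam hn).mono Measure.restrict_le_self
  have h2 := h.prod (cell_multProc h1)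
  rw [add_comm, Measure.restrict_add_restrict_compl measurableSet_JJ] at h2
  exact h2

theorem rho_one (c : ℝ × ℝ) (t : Tm) (A : Measure (ℝ × ℝ)) :
    rho A (wt t) (mkC 1 fun _ => c) = Real.exp (-∫ x, (wt t x - 1) ∂A) * wt t c := by
  unfold rho mkC
  simp

/-- consequences of an almost sure property for the one-jump configurations -/
theorem one_jump (hn : GoodDensity n) [IsProbabilityMeasure P'] {Q : ℝ → ℝ → Prop}
    (h : ∀ᵐ ω ∂(PJ n P'), Q (RJ n R' T₂ ω) (RJ n R' T₃ ω)) :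
    ∃ a₂ a₃ : ℝ, 0 < a₂ ∧ 0 < a₃ ∧ ∀ᵐ ω' ∂P', ∀ᵐ p ∂((Lam n).restrict JJ),
      Q (R' T₂ ω' * a₂ * p.2) (R' T₃ ω' * a₃) := by
  have := finJ hn
  refine ⟨Real.exp (-∫ x, (wt T₂ x - 1) ∂((Lam n).restrict JJ)),
    Real.exp (-∫ x, (wt T₃ x - 1) ∂((Lam n).restrict JJ)), Real.exp_pos _, Real.exp_pos _, ?_⟩
  have h1 := Measure.ae_ae_of_ae_prod h
  filter_upwards [h1] with ω' h2
  have h3 := cell_ae_one h2
  filter_upwards [h3, ae_restrict_mem measurableSet_JJ] with p h4 h5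
  unfold RJ at h4
  simp only [rho_one] at h4
  have h6 : wt T₂ p = p.2 := wt_of_lt h5.1.1 (ne_of_gt (two_pos.trans h5.2))
  have h7 : wt T₃ p = 1 := wt_of_le h5.1.2
  rw [h6, h7, mul_one, ← mul_assoc] at h4
  exact h4

end Pool.Agent.Lib_helper33.QH
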