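import Mathlib
import Pool.Agent.Lib_helper33.QH.Jump

/-!
# The mixture is not Markov
-/

set_option autoImplicit false

open MeasureTheory Filter Topology ProbabilityTheory
open scoped ENNReal NNReal

namespace Pool.Agent.Lib_helper33.QH

section values

variable {Ω : Type*} (R : Tm → Ω → ℝ) (ω : Ω)

theorem XX_one : XX R 1 ω = R T₁ ω - 1 := by
  have h : ((1 : ℝ≥0) : ℝ) = 1 := by norm_num
  unfold XX
  rw [h]
  unfold Xp
  rw [dif_pos one_pos, one_mul]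
  rfl

theorem XX_two : XX R 2 ω = 2 * R T₂ ω - 2 := by
  have h : ((2 : ℝ≥0) : ℝ) = 2 := by norm_num
  unfold XX
  rw [h]
  unfold Xp
  rw [dif_pos two_pos]
  rfl

theorem XX_three : XX R 3 ω = 3 * R T₃ ω - 3 := by
  have h : ((3 : ℝ≥0) : ℝ) = 3 := by norm_num
  unfold XX
  rw [h]
  unfold Xp
  rw [dif_pos three_pos]
  rfl

end values

variable {Ω₁ Ω₂ : Type*} [m₁ : MeasurableSpace Ω₁] [m₂ : MeasurableSpace Ω₂]
variable {P₁ : Measure Ω₁} {P₂ : Measure Ω₂}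

theorem mix_setIntegral {f : Ω₁ ⊕ Ω₂ → ℝ} (hf : Integrable f (mix P₁ P₂)) {S : Set (Ω₁ ⊕ Ω₂)}
    (hS : MeasurableSet S) : ∫ ω in S, f ω ∂(mix P₁ P₂) =
      2⁻¹ * ∫ ω in Sum.inl ⁻¹' S, f (Sum.inl ω) ∂P₁ +
      2⁻¹ * ∫ ω in Sum.inr ⁻¹' S, f (Sum.inr ω) ∂P₂ := by
  rw [← integral_indicator hS, ← integral_indicator (measurable_inl hS),
    ← integral_indicator (measurable_inr hS)]
  have h1 := (mix_integrable (P₁ := P₁) (P₂ := P₂) (f := S.indicator f)).mp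
    (hf.indicator hS)
  rw [mix_integral h1.1 h1.2]
  rfl

/-- if `H` has vanishing integrals over the sets of `m`, it is orthogonal to the integrable
`m`-measurable functions (for bounded `H`) -/
theorem integral_mul_zero {Ω : Type*} {m mΩ : MeasurableSpace Ω} {P : Measure Ω}
    [IsProbabilityMeasure P] (hm : m ≤ mΩ) {H k : Ω → ℝ} (hH : Integrable H P)
    (h0 : ∀ A, MeasurableSet[m] A → ∫ ω in A, H ω ∂P = 0) (hk : StronglyMeasurable[m] k)
    (hkH : Integrable (fun ω => k ω * H ω) P) : ∫ ω, k ω * H ω ∂P = 0 := by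
  have h1 : (fun _ => (0 : ℝ)) =ᵐ[P] P[H | m] := by
    refine ae_eq_condExp_of_forall_setIntegral_eq hm hH (fun A _ _ => integrableOn_zero) ?_ ?_
    · intro A hA _
      rw [h0 A hA]
      simp
    · exact stronglyMeasurable_const.aestronglyMeasurable
  have h2 := condExp_mul_of_stronglyMeasurable_left hk hkH hH
  rw [← integral_condExp hm]
  have h3 : P[fun ω => k ω * H ω | m] =ᵐ[P] fun _ => (0 : ℝ) := by
    refine h2.trans ?_
    filter_upwards [h1] with ω h4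
    simp only [Pi.mul_apply]
    rw [← h4, mul_zero]
  rw [integral_congr_ae h3]
  simp

theorem sigmaOf_singleton {Ω : Type*} (X : ℝ≥0 → Ω → ℝ) (t : ℝ≥0) :
    sigmaOf X {t} = MeasurableSpace.comap (X t) (inferInstance : MeasurableSpace ℝ) := by
  unfold sigmaOf
  simp

/-- the σ-algebra generated by the values at the times `2` and `3` -/
@[reducible] def mm {Ω : Type*} (R : Tm → Ω → ℝ) : MeasurableSpace Ω :=
  ⨆ j ∈ ({T₂, T₃} : Set Tm), MeasurableSpace.comap (R j) inferInstance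

/-- what the Markov property would imply -/
theorem markov_imp [IsProbabilityMeasure P₁] [IsProbabilityMeasure P₂]
    {R₁ : Tm → Ω₁ → ℝ} {R₂ : Tm → Ω₂ → ℝ}
    (h₁m : ∀ t, Measurable (R₁ t)) (h₂m : ∀ t, Measurable (R₂ t))
    (hpos : ∀ t, ∀ᵐ ω ∂P₁, 0 < R₁ t ω) (hne : ∀ t, ∀ᵐ ω ∂P₂, R₂ t ω ≠ 0)
    {r : ℝ} (hr : r < 1)
    (hind : ∀ A, MeasurableSet[mm R₂] A →
      ∫ ω in A, (sg (R₂ T₁ ω) * sg (R₂ T₂ ω) - r) ∂P₂ = 0)
    (hM : IsMarkov (mix P₁ P₂) (XX (mixR R₁ R₂))) :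
    ∃ G : Set ℝ, (∀ᵐ ω ∂P₁, R₁ T₂ ω ∉ G) ∧
      (∀ᵐ ω ∂P₂, 0 < R₂ T₂ ω → R₂ T₃ ω < 0 → R₂ T₂ ω ∈ G) := by
  set X := XX (mixR R₁ R₂) with hX
  have hmix : ∀ t, Measurable (mixR R₁ R₂ t) := fun t => (h₁m t).sumElim (h₂m t)
  have hXm : ∀ t, Measurable (X t) := measurable_XX hmix
  have hle : ∀ S, sigmaOf X S ≤ (inferInstance : MeasurableSpace (Ω₁ ⊕ Ω₂)) := sigmaOf_le hmix
  set D : Set (Ω₁ ⊕ Ω₂) := X 3 ⁻¹' Set.Iio (-3) with hD
  set U : Set (Ω₁ ⊕ Ω₂) := X 2 ⁻¹' Set.Ioi (-2) with hU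
  set V : Set (Ω₁ ⊕ Ω₂) := X 1 ⁻¹' Set.Iio (-1) with hV
  have hDm : MeasurableSet D := hXm 3 measurableSet_Iio
  have hUm : MeasurableSet U := hXm 2 measurableSet_Ioi
  have hVm : MeasurableSet V := hXm 1 measurableSet_Iio
  have hDval : ∀ ω, ω ∈ D ↔ mixR R₁ R₂ T₃ ω < 0 := by
    intro ω
    simp only [hD, hX, Set.mem_preimage, Set.mem_Iio, XX_three]
    constructor <;> intro h <;> linarith
  have hUval : ∀ ω, ω ∈ U ↔ 0 < mixR R₁ R₂ T₂ ω := by
    intro ω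
    simp only [hU, hX, Set.mem_preimage, Set.mem_Ioi, XX_two]
    constructor <;> intro h <;> linarith
  have hVval : ∀ ω, ω ∈ V ↔ mixR R₁ R₂ T₁ ω < 0 := by
    intro ω
    simp only [hV, hX, Set.mem_preimage, Set.mem_Iio, XX_one]
    constructor <;> intro h <;> linarith
  set f : Ω₁ ⊕ Ω₂ → ℝ := D.indicator (fun _ => (1 : ℝ)) with hf
  have hfi : Integrable f (mix P₁ P₂) := (integrable_const _).indicator hDm
  have hf0 : ∀ ω, 0 ≤ f ω := fun ω => Set.indicator_nonneg (fun _ _ => zero_le_one) ω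
  set h : Ω₁ ⊕ Ω₂ → ℝ := (mix P₁ P₂)[f | sigmaOf X {2}] with hh
  have hhi : Integrable h (mix P₁ P₂) := integrable_condExp
  have hhs : StronglyMeasurable[sigmaOf X {2}] h := stronglyMeasurable_condExp
  have hh0 : ∀ᵐ ω ∂(mix P₁ P₂), 0 ≤ h ω := condExp_nonneg (ae_of_all _ hf0)
  have hα : ∀ S, MeasurableSet[sigmaOf X {2}] S →
      ∫ ω in S, h ω ∂(mix P₁ P₂) = ∫ ω in S, f ω ∂(mix P₁ P₂) := fun S hS =>
    setIntegral_condExp (hle _) hfi hS
  have hβ : ∀ S, MeasurableSet[sigmaOf X (Set.Iic 2)] S →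
      ∫ ω in S, h ω ∂(mix P₁ P₂) = ∫ ω in S, f ω ∂(mix P₁ P₂) := by
    intro S hS
    have h1 := hM 2 3 (by norm_num) (Set.Iio (-3)) measurableSet_Iio
    rw [← setIntegral_condExp (hle _) hfi hS]
    exact setIntegral_congr_ae (hle _ _ hS) (h1.symm.mono fun ω hω _ => hω)
  have hhi' := mix_integrable.mp hhi
  have hfi' := mix_integrable.mp hfi
  have hh0' := mix_ae.mp hh0
  -- membership of the sets
  have hU2 : MeasurableSet[sigmaOf X {2}] U := by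
    rw [sigmaOf_singleton]
    exact ⟨_, measurableSet_Ioi, rfl⟩
  have hUV : MeasurableSet[sigmaOf X (Set.Iic 2)] (U ∩ V) := by
    refine MeasurableSet.inter ?_ ?_
    · exact measurable_sigmaOf (R := mixR R₁ R₂) (Set.mem_Iic.mpr le_rfl) measurableSet_Ioi
    · exact measurable_sigmaOf (R := mixR R₁ R₂) (S := Set.Iic 2) (r := 1)
        (Set.mem_Iic.mpr (by norm_num)) measurableSet_Iio
  -- integrals under the first law
  have hV1 : P₁ (Sum.inl ⁻¹' V) = 0 := by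
    rw [measure_eq_zero_iff_ae_notMem]
    filter_upwards [hpos T₁] with ω h1 h2
    have h3 : R₁ T₁ ω < 0 := (hVval _).mp h2
    linarith
  have hD1 : P₁ (Sum.inl ⁻¹' D) = 0 := by
    rw [measure_eq_zero_iff_ae_notMem]
    filter_upwards [hpos T₃] with ω h1 h2
    have h3 : R₁ T₃ ω < 0 := (hDval _).mp h2
    linarith
  have hfz : ∀ᵐ ω ∂P₁, f (Sum.inl ω) = 0 := by
    filter_upwards [measure_eq_zero_iff_ae_notMem.mp hD1] with ω h1
    have h2 : (Sum.inl ω : Ω₁ ⊕ Ω₂) ∉ D := h1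
    simp only [hf]
    exact Set.indicator_of_notMem h2 _
  -- the set {R₂ T₂ > 0}, and the sign product
  set H : Ω₂ → ℝ := fun ω => sg (R₂ T₁ ω) * sg (R₂ T₂ ω) - r with hHdef
  have hsgm : Measurable (fun ω => sg (R₂ T₁ ω) * sg (R₂ T₂ ω)) :=
    (measurable_sg.comp (h₂m _)).mul (measurable_sg.comp (h₂m _))
  have hsgb : ∀ ω, |sg (R₂ T₁ ω) * sg (R₂ T₂ ω)| ≤ 1 := by
    intro ω; rw [abs_mul, abs_sg, abs_sg, mul_one]
  have hsgi : Integrable (fun ω => sg (R₂ T₁ ω) * sg (R₂ T₂ ω)) P₂ :=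
    Integrable.mono' (integrable_const (1 : ℝ)) hsgm.aestronglyMeasurable
      (ae_of_all _ fun ω => by rw [Real.norm_eq_abs]; exact hsgb ω)
  have hHi : Integrable H P₂ := hsgi.sub (integrable_const _)
  have hkHi : ∀ k : Ω₂ → ℝ, Integrable k P₂ →
      Integrable (fun ω => k ω * (sg (R₂ T₁ ω) * sg (R₂ T₂ ω))) P₂ := by
    intro k hk
    refine Integrable.mono' hk.norm (hk.aestronglyMeasurable.mul hsgm.aestronglyMeasurable) ?_
    refine ae_of_all _ fun ω => ?_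
    rw [norm_mul, Real.norm_eq_abs (sg _ * sg _)]
    exact mul_le_of_le_one_right (norm_nonneg _) (hsgb ω)
  have hmle : mm R₂ ≤ m₂ := iSup₂_le fun j _ => (h₂m j).comap_le
  have hmT2 : Measurable[mm R₂] (R₂ T₂) := by
    refine Measurable.mono (comap_measurable (R₂ T₂)) ?_ le_rfl
    exact le_iSup₂_of_le T₂ (by simp) le_rfl
  have hmT3 : Measurable[mm R₂] (R₂ T₃) := by
    refine Measurable.mono (comap_measurable (R₂ T₃)) ?_ le_rfl
    exact le_iSup₂_of_le T₃ (by simp) le_rfl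
  have hinr : @Measurable Ω₂ (Ω₁ ⊕ Ω₂) (mm R₂) (sigmaOf X {2}) Sum.inr := by
    rw [sigmaOf_singleton, measurable_comap_iff]
    have h1 : X 2 ∘ Sum.inr = fun ω => 2 * R₂ T₂ ω - 2 := by
      funext ω
      simp only [Function.comp_apply, hX, XX_two, mixR_inr]
    rw [h1]
    exact (hmT2.const_mul 2).sub_const 2
  have hU2m : MeasurableSet[mm R₂] (Sum.inr ⁻¹' U) := hinr hU2
  have hD2m : MeasurableSet[mm R₂] (Sum.inr ⁻¹' D) := by
    have h1 : (Sum.inr ⁻¹' D : Set Ω₂) = R₂ T₃ ⁻¹' Set.Iio 0 := by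
      ext ω
      exact hDval _
    rw [h1]
    exact hmT3 measurableSet_Iio
  -- the two independence identities
  have hgen : ∀ k : Ω₂ → ℝ, StronglyMeasurable[mm R₂] k → Integrable k P₂ →
      ∫ ω, k ω * (sg (R₂ T₁ ω) * sg (R₂ T₂ ω)) ∂P₂ = r * ∫ ω, k ω ∂P₂ := by
    intro k hk hki
    have h1 : Integrable (fun ω => k ω * H ω) P₂ := by
      refine ((hkHi k hki).sub (hki.mul_const r)).congr (ae_of_all _ fun ω => ?_)
      simp only [Pi.sub_apply, hHdef]; ring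
    have h2 := integral_mul_zero hmle hHi hind hk h1
    have h3 : ∀ ω, k ω * H ω = k ω * (sg (R₂ T₁ ω) * sg (R₂ T₂ ω)) - r * k ω := by
      intro ω; simp only [hHdef]; ring
    simp_rw [h3] at h2
    rw [integral_sub (hkHi k hki) (hki.const_mul r), integral_const_mul] at h2
    linarith
  have hhalf : ∀ k : Ω₁ ⊕ Ω₂ → ℝ, Integrable (fun ω => k (Sum.inr ω)) P₂ →
      StronglyMeasurable[mm R₂] ((Sum.inr ⁻¹' U).indicator (fun ω => k (Sum.inr ω))) →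
      ∫ ω in Sum.inr ⁻¹' (U ∩ V), k (Sum.inr ω) ∂P₂ =
        (1 - r) / 2 * ∫ ω in Sum.inr ⁻¹' U, k (Sum.inr ω) ∂P₂ := by
    intro k hki hks
    set k' : Ω₂ → ℝ := (Sum.inr ⁻¹' U).indicator (fun ω => k (Sum.inr ω)) with hk'
    have hk'i : Integrable k' P₂ := hki.indicator (measurable_inr hUm)
    rw [← integral_indicator (measurable_inr (hUm.inter hVm)),
      ← integral_indicator (measurable_inr hUm)]
    have h1 : (Sum.inr ⁻¹' (U ∩ V)).indicator (fun ω => k (Sum.inr ω)) =ᵐ[P₂]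
        fun ω => (1 / 2) * k' ω - (1 / 2) * (k' ω * (sg (R₂ T₁ ω) * sg (R₂ T₂ ω))) := by
      filter_upwards [hne T₁] with ω hω
      by_cases hu : Sum.inr ω ∈ U
      · have hpos2 : 0 < R₂ T₂ ω := (hUval _).mp hu
        have hk1 : k' ω = k (Sum.inr ω) := Set.indicator_of_mem (by exact hu) _
        rw [hk1, sg_of_pos hpos2]
        rcases lt_or_gt_of_ne hω with h2 | h2
        · have hv : (Sum.inr ω : Ω₁ ⊕ Ω₂) ∈ V := (hVval _).mpr h2
          rw [Set.indicator_of_mem (by exact ⟨hu, hv⟩), sg_of_neg h2]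
          ring
        · have hv : (Sum.inr ω : Ω₁ ⊕ Ω₂) ∉ V := fun hh => by
            have h3 : R₂ T₁ ω < 0 := (hVval _).mp hh
            linarith
          rw [Set.indicator_of_notMem (by exact fun hh => hv hh.2), sg_of_pos h2]
          ring
      · have hk1 : k' ω = 0 := Set.indicator_of_notMem (by exact hu) _
        rw [hk1, Set.indicator_of_notMem (by exact fun hh => hu hh.1)]
        ring
    rw [integral_congr_ae h1, integral_sub (hk'i.const_mul _) ((hkHi k' hk'i).const_mul _),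
      integral_const_mul, integral_const_mul, hgen k' hks hk'i]
    ring
  have hhsm : StronglyMeasurable[mm R₂] ((Sum.inr ⁻¹' U).indicator (fun ω => h (Sum.inr ω))) :=
    (hhs.comp_measurable hinr).indicator hU2m
  have hfsm : StronglyMeasurable[mm R₂] ((Sum.inr ⁻¹' U).indicator (fun ω => f (Sum.inr ω))) := by
    refine StronglyMeasurable.indicator ?_ hU2m
    have h1 : (fun ω : Ω₂ => f (Sum.inr ω)) = (Sum.inr ⁻¹' D).indicator (fun _ => (1 : ℝ)) := rfl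
    rw [h1]
    exact stronglyMeasurable_const.indicator hD2m
  have E1 : ∫ ω in Sum.inr ⁻¹' U, h (Sum.inr ω) ∂P₂ =
      ∫ ω in Sum.inr ⁻¹' U, f (Sum.inr ω) ∂P₂ := by
    have h1 := hβ (U ∩ V) hUV
    rw [mix_setIntegral hhi (hUm.inter hVm), mix_setIntegral hfi (hUm.inter hVm)] at h1
    have hz : P₁ (Sum.inl ⁻¹' (U ∩ V)) = 0 :=
      measure_mono_null (fun ω hω => hω.2) hV1
    rw [setIntegral_measure_zero _ hz, setIntegral_measure_zero _ hz,
      hhalf h hhi'.2 hhsm, hhalf f hfi'.2 hfsm] at h1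
    have h2 : (1 - r) ≠ 0 := by
      have : 0 < 1 - r := by linarith
      exact this.ne'
    have h3 : (1 - r) * (∫ ω in Sum.inr ⁻¹' U, h (Sum.inr ω) ∂P₂) =
        (1 - r) * ∫ ω in Sum.inr ⁻¹' U, f (Sum.inr ω) ∂P₂ := by linarith
    exact mul_left_cancel₀ h2 h3
  have E2 : ∫ ω in Sum.inl ⁻¹' U, h (Sum.inl ω) ∂P₁ = 0 := by
    have h1 := hα U hU2
    rw [mix_setIntegral hhi hUm, mix_setIntegral hfi hUm, E1] at h1
    have h2 : ∫ ω in Sum.inl ⁻¹' U, f (Sum.inl ω) ∂P₁ = 0 := by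
      refine integral_eq_zero_of_ae (ae_restrict_of_ae ?_)
      filter_upwards [hfz] with ω h3
      exact h3
    rw [h2] at h1
    linarith
  have hU1 : ∀ᵐ ω ∂P₁, ω ∈ (Sum.inl ⁻¹' U : Set Ω₁) := by
    filter_upwards [hpos T₂] with ω h1
    exact (hUval _).mpr h1
  have hz1 : ∀ᵐ ω ∂P₁, h (Sum.inl ω) = 0 := by
    rw [Measure.restrict_eq_self_of_ae_mem hU1] at E2
    have := (integral_eq_zero_iff_of_nonneg_ae hh0'.1 hhi'.1).mp E2
    filter_upwards [this] with ω h1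
    exact h1
  -- the set where `h` vanishes
  have hh00 : MeasurableSet[sigmaOf X {2}] (h ⁻¹' {0}) := hhs.measurable (measurableSet_singleton 0)
  have hz2 : ∀ᵐ ω ∂P₂, ¬ (h (Sum.inr ω) = 0 ∧ 0 < R₂ T₂ ω ∧ R₂ T₃ ω < 0) := by
    have hS : MeasurableSet[sigmaOf X {2}] (h ⁻¹' {0} ∩ U) := hh00.inter hU2
    have hSm : MeasurableSet (h ⁻¹' {0} ∩ U) := hle _ _ hS
    have h1 := hα _ hS
    have h2 : ∫ ω in h ⁻¹' {0} ∩ U, h ω ∂(mix P₁ P₂) = 0 :=
      setIntegral_eq_zero_of_forall_eq_zero fun ω hω => hω.1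
    rw [h2, mix_setIntegral hfi hSm] at h1
    have h3 : 0 ≤ ∫ ω in Sum.inl ⁻¹' (h ⁻¹' {0} ∩ U), f (Sum.inl ω) ∂P₁ :=
      integral_nonneg fun ω => hf0 _
    have h4 : 0 ≤ ∫ ω in Sum.inr ⁻¹' (h ⁻¹' {0} ∩ U), f (Sum.inr ω) ∂P₂ :=
      integral_nonneg fun ω => hf0 _
    have h5 : ∫ ω in Sum.inr ⁻¹' (h ⁻¹' {0} ∩ U), f (Sum.inr ω) ∂P₂ = 0 := by linarith
    rw [setIntegral_eq_zero_iff_of_nonneg_ae (ae_of_all _ fun ω => hf0 _)
      hfi'.2.integrableOn] at h5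
    rw [EventuallyEq, ae_restrict_iff' (measurable_inr hSm)] at h5
    filter_upwards [h5] with ω h6 h7
    have h8 : (Sum.inr ω : Ω₁ ⊕ Ω₂) ∈ D := (hDval _).mpr h7.2.2
    have h9 := h6 ⟨h7.1, (hUval _).mpr h7.2.1⟩
    simp only [hf, Set.indicator_of_mem h8, Pi.zero_apply] at h9
    exact one_ne_zero h9
  obtain ⟨G₀, -, hG₀⟩ : ∃ G₀ : Set ℝ, MeasurableSet G₀ ∧ X 2 ⁻¹' G₀ = h ⁻¹' {0} := by
    have h1 := hh00
    rw [sigmaOf_singleton] at h1
    obtain ⟨G₀, h2, h3⟩ := h1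
    exact ⟨G₀, h2, h3⟩
  have hG₀' : ∀ ω, (2 * mixR R₁ R₂ T₂ ω - 2 ∈ G₀ ↔ h ω = 0) := by
    intro ω
    have h1 : ω ∈ X 2 ⁻¹' G₀ ↔ ω ∈ h ⁻¹' {0} := by rw [hG₀]
    simp only [Set.mem_preimage, hX, XX_two, Set.mem_singleton_iff] at h1
    exact h1
  refine ⟨{x | 2 * x - 2 ∉ G₀}, ?_, ?_⟩
  · filter_upwards [hz1] with ω h1 h2
    exact h2 ((hG₀' (Sum.inl ω)).mpr h1)
  · filter_upwards [hz2] with ω h1 h2 h3 h4
    exact h1 ⟨(hG₀' (Sum.inr ω)).mp h4, h2, h3⟩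

end Pool.Agent.Lib_helper33.QH
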