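import Mathlib
import Pool.Agent.Lib_helper33.QH.NonMarkov

/-!
# Assembly
-/

set_option autoImplicit false

open MeasureTheory Filter Topology ProbabilityTheory
open scoped ENNReal NNReal

namespace Pool.Agent.Lib_helper33.QH

variable {n : ℝ → ℝ → ℝ}

/-- the intensity charges the boxes on which the density is positive -/
theorem lam_box_pos (hn : GoodDensity n) {a b c d : ℝ} (ha : 0 < a) (hab : a < b) (hcd : c < d)
    (hpos : ∀ t v, 0 < t → c < v → v < d → 0 < n t v) :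
    (Lam n) (Set.Ioc a b ×ˢ Set.Ioo c d) ≠ 0 := by
  intro h
  unfold Lam at h
  rw [withDensity_apply_eq_zero (measurable_dens hn)] at h
  have h2 : ({p : ℝ × ℝ | ENNReal.ofReal (n p.1 p.2) ≠ 0} ∩
      Set.Ioc a b ×ˢ Set.Ioo c d) = Set.Ioc a b ×ˢ Set.Ioo c d := by
    refine Set.inter_eq_right.mpr fun p hp => ?_
    have := hpos p.1 p.2 (ha.trans hp.1.1) hp.2.1 hp.2.2
    simp [this]
  have h4 : Set.Ioc a b ×ˢ Set.Ioo c d =
      (Set.Ioc a b ×ˢ Set.Ioo c d) ∩ {p : ℝ × ℝ | 0 < p.1} := by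
    ext p
    exact ⟨fun hp => ⟨hp, ha.trans hp.1.1⟩, fun hp => hp.1⟩
  rw [h2, Measure.restrict_apply' measurableSet_pos, ← h4, Measure.volume_eq_prod,
    Measure.prod_prod, Real.volume_Ioc, Real.volume_Ioo] at h
  rcases mul_eq_zero.mp h with h5 | h5
  · rw [ENNReal.ofReal_eq_zero] at h5; linarith
  · rw [ENNReal.ofReal_eq_zero] at h5; linarith

theorem lam_negT_zero (hn : GoodDensity n) (h0 : ∀ t v, v ≤ 0 → n t v = 0) (t : ℝ) :
    (Lam n) (NegT t) = 0 := by
  unfold Lam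
  rw [withDensity_apply_eq_zero (measurable_dens hn)]
  have h2 : ({p : ℝ × ℝ | ENNReal.ofReal (n p.1 p.2) ≠ 0} ∩ NegT t) = ∅ := by
    ext p
    simp only [Set.mem_inter_iff, Set.mem_ofPred_eq, Set.mem_empty_iff_false, iff_false, not_and]
    intro h1 h3
    apply h1
    rw [h0 p.1 p.2 h3.2.le, ENNReal.ofReal_zero]
  rw [h2, measure_empty]

theorem exp_lt_one {Λ' : Measure (ℝ × ℝ)} {S : Set (ℝ × ℝ)} (h0 : Λ' S ≠ 0) (h1 : Λ' S ≠ ∞) :
    Real.exp (-2 * Λ'.real S) < 1 := by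
  rw [Real.exp_lt_one_iff]
  have : 0 < Λ'.real S := ENNReal.toReal_pos h0 h1
  linarith

/-- opposite signs at the times `2` and `3` have positive probability -/
theorem exists_signs {Λ' : Measure (ℝ × ℝ)} (hn : GoodDensity n) (hle : Λ' ≤ Lam n)
    {Ω : Type*} [MeasurableSpace Ω] {P : Measure Ω} [IsProbabilityMeasure P] {R : Tm → Ω → ℝ}
    (hR : MultProc Λ' wt P R) (h1 : Λ' (NegT T₃) ≠ 0) (h2 : Λ' (Neg T₂ T₃) ≠ 0)
    {Q : Ω → Prop} (hQ : ∀ᵐ ω ∂P, Q ω) : ∃ ω, Q ω ∧ 0 < R T₂ ω ∧ R T₃ ω < 0 := by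
  by_contra hcon
  push Not at hcon
  have h23 : T₂ ≤ T₃ := by
    change (2 : ℝ) ≤ 3
    norm_num
  set a : Ω → ℝ := fun ω => sg (R T₂ ω) with ha
  set b : Ω → ℝ := fun ω => sg (R T₃ ω) with hb
  have hai : Integrable a P := integrable_sg (hR.meas _)
  have hbi : Integrable b P := integrable_sg (hR.meas _)
  have ham : Measurable a := measurable_sg.comp (hR.meas _)
  have hbm : Measurable b := measurable_sg.comp (hR.meas _)
  have habi : Integrable (fun ω => a ω * b ω) P := by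
    refine Integrable.mono' (integrable_const (1 : ℝ)) (ham.mul hbm).aestronglyMeasurable ?_
    refine ae_of_all _ fun ω => ?_
    rw [Real.norm_eq_abs, abs_mul, ha, hb]
    simp [abs_sg]
  set m : ℝ := Real.exp (-2 * Λ'.real (NegT T₃)) with hm
  set ρ : ℝ := Real.exp (-2 * Λ'.real (Neg T₂ T₃)) with hρ
  have hm1 : m < 1 := exp_lt_one h1 (negT_fin hn hle T₃.2)
  have hρ1 : ρ < 1 := exp_lt_one h2 (neg_fin hn hle T₂.2 _)
  have e1 : ∫ ω, b ω ∂P = m := mean_sg hR T₃
  have e2 : ∫ ω, a ω * b ω ∂P = ρ := by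
    have h3 := sg_indep hn hle hR h23 (ι := Empty) (fun j => j.elim) (fun j => j.elim)
      (fun j => j.elim) (fun j => j.elim)
    simp only [Finset.univ_eq_empty, Finset.prod_empty, one_mul] at h3
    rw [integral_complex_ofReal] at h3
    simp only [integral_const, probReal_univ, one_smul, mul_one] at h3
    exact Complex.ofReal_inj.mp h3
  have e3 : ∫ ω, a ω ∂P = ρ * m := by
    have h3 := sg_indep hn hle hR h23 (ι := Unit) (fun _ => T₃) (fun _ => 0) (fun _ => 1)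
      (fun _ => le_rfl)
    simp only [Finset.univ_unique, Finset.prod_singleton, chi_zero_one] at h3
    have h4 : ∀ ω, ((sg (R T₃ ω) : ℝ) : ℂ) * ((sg (R T₂ ω) * sg (R T₃ ω) : ℝ) : ℂ) =
        ((a ω : ℝ) : ℂ) := by
      intro ω
      have h5 : sg (R T₃ ω) * sg (R T₃ ω) = 1 := by
        rw [← abs_mul_abs_self, abs_sg, mul_one]
      have h6 : sg (R T₃ ω) * (sg (R T₂ ω) * sg (R T₃ ω)) = sg (R T₂ ω) := by
        calc sg (R T₃ ω) * (sg (R T₂ ω) * sg (R T₃ ω))
            = sg (R T₂ ω) * (sg (R T₃ ω) * sg (R T₃ ω)) := by ring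
          _ = sg (R T₂ ω) := by rw [h5, mul_one]
      rw [← Complex.ofReal_mul, h6]
    simp_rw [h4] at h3
    rw [integral_complex_ofReal, integral_complex_ofReal] at h3
    have h7 : ∫ ω, sg (R T₃ ω) ∂P = m := e1
    rw [h7, ← Complex.ofReal_mul] at h3
    exact Complex.ofReal_inj.mp h3
  have e4 : ∫ ω, (1 + a ω) * (1 - b ω) ∂P = 0 := by
    refine integral_eq_zero_of_ae ?_
    filter_upwards [hQ, hR.ne T₂, hR.ne T₃] with ω g1 g2 g3
    rcases lt_or_gt_of_ne g2 with g4 | g4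
    · simp only [ha, sg_of_neg g4, Pi.zero_apply]; ring
    · have g5 := hcon ω g1 g4
      have g6 : 0 < R T₃ ω := lt_of_le_of_ne g5 (Ne.symm g3)
      simp only [hb, sg_of_pos g6, Pi.zero_apply]; ring
  have e5 : ∀ ω, (1 + a ω) * (1 - b ω) = 1 + a ω - b ω - a ω * b ω := fun ω => by ring
  simp_rw [e5] at e4
  have i1 : Integrable (fun ω => 1 + a ω) P := (integrable_const _).add hai
  have i2 : Integrable (fun ω => 1 + a ω - b ω) P := i1.sub hbi
  rw [integral_sub i2 habi, integral_sub i1 hbi, integral_add (integrable_const _) hai, e1, e2,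
    e3] at e4
  simp only [integral_const, probReal_univ, one_smul] at e4
  have : (1 - m) * (1 - ρ) > 0 := mul_pos (by linarith) (by linarith)
  nlinarith

/-- the main theorem, with the analytic input as hypotheses -/
theorem main {nA nB : ℝ → ℝ → ℝ} (hA : GoodDensity nA) (hB : GoodDensity nB)
    (hApos : ∀ t v, 0 < t → 2 < v → 0 < nA t v) (hAneg : ∀ t v, v ≤ 0 → nA t v = 0)
    (hBpos : ∀ t v, 0 < t → 2 < v → 0 < nB t v) (hBneg : ∀ t v, 0 < t → v < 0 → 0 < nB t v) :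
    ∃ (Ω : Type) (_ : MeasurableSpace Ω) (P : Measure Ω) (_ : IsProbabilityMeasure P)
      (X : ℝ≥0 → Ω → ℝ), IsQuadraticHarness P X 3 1 2 (-3) (-2) ∧ ¬ IsMarkov P X := by
  have hleA : (Lam nA).restrict JJᶜ ≤ Lam nA := Measure.restrict_le_self
  have hleB : (Lam nB).restrict JJᶜ ≤ Lam nB := Measure.restrict_le_self
  obtain ⟨PA, iA, RA, hRA⟩ := exists_multProc hA hleA
  obtain ⟨PB, iB, RB, hRB⟩ := exists_multProc hB hleB
  have fA := finJ hA
  have fB := finJ hB
  have hJA := multProc_J hA hRA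
  have hJB := multProc_J hB hRB
  have pA : IsProbabilityMeasure (PJ nA PA) := by unfold PJ; infer_instance
  have pB : IsProbabilityMeasure (PJ nB PB) := by unfold PJ; infer_instance
  refine ⟨_, inferInstance, mix (PJ nA PA) (PJ nB PB), inferInstance,
    XX (mixR (RJ nA RA) (RJ nB RB)),
    qh_of_tq (tq_mix (tq_of_multProc hA hJA) (tq_of_multProc hB hJB)), ?_⟩
  intro hM
  have h12 : T₁ ≤ T₂ := by
    change (1 : ℝ) ≤ 2
    norm_num
  -- positivity for the first law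
  have hposA : ∀ t, ∀ᵐ ω ∂(PJ nA PA), 0 < RJ nA RA t ω := fun t =>
    pos_ae hJA t (lam_negT_zero hA hAneg t)
  have hposA' : ∀ᵐ ω ∂PA, 0 < RA T₂ ω := by
    refine pos_ae hRA T₂ ?_
    exact le_antisymm ((hleA _).trans (lam_negT_zero hA hAneg _).le) (zero_le)
  -- the negative points of the second law
  have hneg12 : (Lam nB) (Neg T₁ T₂) ≠ 0 := by
    intro h0
    refine lam_box_pos hB (a := 1) (b := 2) (c := -1) (d := 0) one_pos (by norm_num)
      (by norm_num) (fun t v ht _ hv => hBneg t v ht hv) (measure_mono_null ?_ h0)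
    intro p hp
    exact ⟨hp.1.1, hp.1.2, hp.2.2⟩
  have hneg23 : ((Lam nB).restrict JJᶜ) (Neg T₂ T₃) ≠ 0 := by
    intro h0
    refine lam_box_pos hB (a := 2) (b := 3) (c := -1) (d := 0) two_pos (by norm_num)
      (by norm_num) (fun t v ht _ hv => hBneg t v ht hv) ?_
    rw [Measure.restrict_apply (measurableSet_Neg _ _)] at h0
    refine measure_mono_null ?_ h0
    intro p hp
    refine ⟨⟨hp.1.1, hp.1.2, hp.2.2⟩, fun hJ => ?_⟩
    have h1 : 2 < p.2 := hJ.2
    have h2 : p.2 < 0 := hp.2.2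
    linarith
  have hneg3 : ((Lam nB).restrict JJᶜ) (NegT T₃) ≠ 0 := by
    intro h0
    refine lam_box_pos hB (a := 3) (b := 4) (c := -1) (d := 0) three_pos (by norm_num)
      (by norm_num) (fun t v ht _ hv => hBneg t v ht hv) ?_
    rw [Measure.restrict_apply (measurableSet_NegT _)] at h0
    refine measure_mono_null ?_ h0
    intro p hp
    refine ⟨⟨hp.1.1, hp.2.2⟩, fun hJ => ?_⟩
    have h1 : 2 < p.2 := hJ.2
    have h2 : p.2 < 0 := hp.2.2
    linarith
  have hr : Real.exp (-2 * (Lam nB).real (Neg T₁ T₂)) < 1 :=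
    exp_lt_one hneg12 (neg_fin hB le_rfl T₁.2 _)
  have hRm := hJB.meas
  have hsgm : Measurable (fun ω => sg (RJ nB RB T₁ ω) * sg (RJ nB RB T₂ ω)) :=
    (measurable_sg.comp (hRm _)).mul (measurable_sg.comp (hRm _))
  have hsgi : Integrable (fun ω => sg (RJ nB RB T₁ ω) * sg (RJ nB RB T₂ ω)) (PJ nB PB) := by
    refine Integrable.mono' (integrable_const (1 : ℝ)) hsgm.aestronglyMeasurable
      (ae_of_all _ fun ω => ?_)
    rw [Real.norm_eq_abs, abs_mul, abs_sg, abs_sg, mul_one]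
  have hind : ∀ A, MeasurableSet[mm (RJ nB RB)] A →
      ∫ ω in A, (sg (RJ nB RB T₁ ω) * sg (RJ nB RB T₂ ω) -
        Real.exp (-2 * (Lam nB).real (Neg T₁ T₂))) ∂(PJ nB PB) = 0 := by
    intro A hA'
    refine det_family (S := {T₂, T₃}) hRm (fun j _ => hJB.ne j)
      (hsgm.sub_const _) (hsgi.sub (integrable_const _)) ?_ hA'
    intro J hJ y e
    have h1 := sg_indep hB le_rfl hJB h12 (fun j : J => (j : Tm)) y e (fun j => by
      rcases hJ j.2 with h | h
      · exact le_of_eq h.symm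
      · rw [Set.mem_singleton_iff.mp h]
        change (2 : ℝ) ≤ 3
        norm_num)
    have hc : Integrable (fun ω => ∏ j : J, chi (y j) (e j) (RJ nB RB j ω)) (PJ nB PB) := by
      have := integrable_chi_mul hRm (fun j : J => (j : Tm)) y e
        (integrable_const (1 : ℝ) : Integrable _ (PJ nB PB))
      simpa using this
    have i1 := integrable_chi_mul hRm (fun j : J => (j : Tm)) y e hsgi
    have h2 : ∀ ω, (∏ j : J, chi (y j) (e j) (RJ nB RB j ω)) *
        ((sg (RJ nB RB T₁ ω) * sg (RJ nB RB T₂ ω) -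
          Real.exp (-2 * (Lam nB).real (Neg T₁ T₂)) : ℝ) : ℂ) =
        (∏ j : J, chi (y j) (e j) (RJ nB RB j ω)) *
          ((sg (RJ nB RB T₁ ω) * sg (RJ nB RB T₂ ω) : ℝ) : ℂ) -
        (Real.exp (-2 * (Lam nB).real (Neg T₁ T₂)) : ℂ) *
          (∏ j : J, chi (y j) (e j) (RJ nB RB j ω)) := by
      intro ω
      push_cast
      ring
    simp_rw [h2]
    rw [integral_sub i1 (hc.const_mul _), integral_const_mul, h1, sub_self]
  obtain ⟨G, hG1, hG2⟩ := markov_imp hJA.meas hJB.meas hposA hJB.ne hr hind hM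
  obtain ⟨a₂, a₃, ha₂, ha₃, hone⟩ := one_jump hA (R' := RA) (Q := fun x _ => x ∉ G) hG1
  obtain ⟨b₂, b₃, hb₂, hb₃, hone'⟩ := one_jump hB (R' := RB)
    (Q := fun x z => 0 < x → z < 0 → x ∈ G) hG2
  obtain ⟨ωA, hωA1, hωA2⟩ := (hone.and hposA').exists
  obtain ⟨ωB, hωB1, hωB2, hωB3⟩ := exists_signs hB hleB hRB hneg3 hneg23 hone'
  have k1 := JJ_leb hA hApos (mul_pos hωA2 ha₂) hωA1
  have hωB1' : ∀ᵐ p ∂((Lam nB).restrict JJ), RB T₂ ωB * b₂ * p.2 ∉ Gᶜ := by
    filter_upwards [hωB1, ae_restrict_mem measurableSet_JJ] with p g1 g2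
    have g3 : 0 < p.2 := two_pos.trans g2.2
    have g4 := g1 (mul_pos (mul_pos hωB2 hb₂) g3) (mul_neg_of_neg_of_pos hωB3 hb₃)
    exact fun g5 => g5 g4
  have k2 := JJ_leb hB hBpos (mul_pos hωB2 hb₂) hωB1'
  have k3 : ∀ᵐ x : ℝ, x ∉ Set.Ioi (max (2 * (RA T₂ ωA * a₂)) (2 * (RB T₂ ωB * b₂))) := by
    filter_upwards [k1, k2] with x g1 g2 g3
    have g4 := g1 (lt_of_le_of_lt (le_max_left _ _) g3)
    have g5 := g2 (lt_of_le_of_lt (le_max_right _ _) g3)
    exact g5 g4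
  have k4 := measure_eq_zero_iff_ae_notMem.mpr k3
  rw [Real.volume_Ioi] at k4
  exact ENNReal.top_ne_zero k4

end Pool.Agent.Lib_helper33.QH
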