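import Mathlib
import Pool.Agent.Lib_helper33.QH.Defs

/-!
# Trigonometric identities
-/

set_option autoImplicit false

open MeasureTheory Filter Topology Set

namespace Pool.Agent.Lib_helper33.QH

/-- `a(ϑ) = (2/√3) sin ϑ` -/
noncomputable def ta (ϑ : ℂ) : ℂ := 2 / ((√3 : ℝ) : ℂ) * Complex.sin ϑ

/-- `b(ϑ) = cos ϑ + √3 sin ϑ` -/
noncomputable def tb (ϑ : ℂ) : ℂ := Complex.cos ϑ + ((√3 : ℝ) : ℂ) * Complex.sin ϑ

theorem s3_sq : ((√3 : ℝ) : ℂ) * ((√3 : ℝ) : ℂ) = 3 := by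
  rw [← Complex.ofReal_mul, Real.mul_self_sqrt (by norm_num)]
  norm_num

theorem s3_ne : ((√3 : ℝ) : ℂ) ≠ 0 := by
  have : (√3 : ℝ) ≠ 0 := (Real.sqrt_pos.mpr (by norm_num)).ne'
  exact_mod_cast this

theorem al_pos {t : ℝ} (ht : 0 < t) : 0 < al t := by
  unfold al
  have h1 : 0 < √3 * t / (3 * t + 2) := by positivity
  have h2 := Real.arctan_pos.mpr h1
  exact div_pos h2 Real.pi_pos

theorem al_lt {t : ℝ} (ht : 0 < t) : al t < 1 / 6 := by
  unfold al
  rw [div_lt_iff₀ Real.pi_pos]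
  have h1 : √3 * t / (3 * t + 2) < 1 / √3 := by
    have h3 : (0 : ℝ) < √3 := Real.sqrt_pos.mpr (by norm_num)
    have h4 : √3 * √3 = (3 : ℝ) := Real.mul_self_sqrt (by norm_num)
    rw [div_lt_div_iff₀ (by positivity) h3]
    nlinarith
  have h2 : Real.arctan (1 / √3) = Real.pi / 6 := by
    rw [← Real.tan_pi_div_six, Real.arctan_tan] <;> linarith [Real.pi_pos]
  calc Real.arctan (√3 * t / (3 * t + 2)) < Real.arctan (1 / √3) := Real.arctan_strictMono h1
    _ = 1 / 6 * Real.pi := by rw [h2]; ring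

/-- the relation between the sine and the cosine of `π α(t)` -/
theorem cos_al {t : ℝ} (ht : 0 < t) :
    Real.cos (Real.pi * al t) * (√3 * t) = Real.sin (Real.pi * al t) * (3 * t + 2) := by
  have h0 : Real.pi * al t = Real.arctan (√3 * t / (3 * t + 2)) := by
    unfold al
    field_simp
  rw [h0]
  set x := √3 * t / (3 * t + 2) with hx
  have h1 := Real.tan_arctan x
  rw [Real.tan_eq_sin_div_cos, div_eq_iff (Real.cos_arctan_pos x).ne'] at h1
  rw [h1, hx]
  field_simp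

theorem sin_al_pos {t : ℝ} (ht : 0 < t) : 0 < Real.sin (Real.pi * al t) := by
  have h1 := al_pos ht
  have h2 := al_lt ht
  refine Real.sin_pos_of_pos_of_lt_pi (by positivity) ?_
  nlinarith [Real.pi_pos]

/-- the complex sine does not vanish on the open strip `0 < Re z < π` -/
theorem sin_ne_zero {z : ℂ} (h0 : 0 < z.re) (h1 : z.re < Real.pi) : Complex.sin z ≠ 0 := by
  intro h
  obtain ⟨k, hk⟩ := Complex.sin_eq_zero_iff.mp h
  have h2 : z.re = k * Real.pi := by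
    rw [hk]
    simp
  rw [h2] at h0 h1
  have h3 : (0 : ℝ) < k := by
    by_contra hc
    push Not at hc
    nlinarith [Real.pi_pos]
  have h4 : (k : ℝ) < 1 := by
    by_contra hc
    push Not at hc
    nlinarith [Real.pi_pos]
  have h5 : (0 : ℤ) < k := by exact_mod_cast h3
  have h6 : k < (1 : ℤ) := by exact_mod_cast h4
  omega

/-- `a + b t = t sin (ψ + ϑ) / sin ψ` -/
theorem ta_add {t : ℝ} (ht : 0 < t) (ϑ : ℂ) :
    ta ϑ + tb ϑ * t = t * Complex.sin (Real.pi * al t + ϑ) /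
      Complex.sin (Real.pi * al t) := by
  have hS : Complex.sin (Real.pi * al t) = ((Real.sin (Real.pi * al t) : ℝ) : ℂ) := by
    push_cast; rfl
  have hC : Complex.cos (Real.pi * al t) = ((Real.cos (Real.pi * al t) : ℝ) : ℂ) := by
    push_cast; rfl
  have hS0 : Complex.sin (Real.pi * al t) ≠ 0 := by
    rw [hS]; exact_mod_cast (sin_al_pos ht).ne'
  have hrel : Complex.cos (Real.pi * al t) * (((√3 : ℝ) : ℂ) * t) =
      Complex.sin (Real.pi * al t) * (3 * t + 2) := by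
    rw [hS, hC]
    exact_mod_cast cos_al ht
  have h3 := s3_ne
  rw [Complex.sin_add, eq_div_iff hS0]
  unfold ta tb
  have h4 : (2 : ℂ) / ((√3 : ℝ) : ℂ) = 2 * ((√3 : ℝ) : ℂ) / 3 := by
    rw [← s3_sq]
    field_simp
  rw [h4]
  have h5 : Complex.cos (Real.pi * al t) * t =
      Complex.sin (Real.pi * al t) * (3 * t + 2) * ((√3 : ℝ) : ℂ) / 3 := by
    rw [← hrel]
    linear_combination (-(Complex.cos (Real.pi * al t) * t) / 3) * s3_sq
  linear_combination (-Complex.sin ϑ) * h5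

theorem ta_add_ne {t : ℝ} (ht : 0 < t) {ϑ : ℂ} (h : Complex.sin (Real.pi * al t + ϑ) ≠ 0) :
    ta ϑ + tb ϑ * t ≠ 0 := by
  rw [ta_add ht]
  have hS : Complex.sin (Real.pi * al t) = ((Real.sin (Real.pi * al t) : ℝ) : ℂ) := by
    push_cast; rfl
  have hS0 : Complex.sin (Real.pi * al t) ≠ 0 := by
    rw [hS]; exact_mod_cast (sin_al_pos ht).ne'
  have ht0 : (t : ℂ) ≠ 0 := by exact_mod_cast ht.ne'
  exact div_ne_zero (mul_ne_zero ht0 h) hS0

/-- the main identity -/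
theorem cot_identity {t : ℝ} (ht : 0 < t) {ϑ : ℂ}
    (h : Complex.sin (Real.pi * al t + ϑ) ≠ 0) :
    ((((√3 / 2) / (3 * t ^ 2 + 3 * t + 1) : ℝ)) : ℂ) *
      (Complex.cot (Real.pi * al t) - Complex.cot (Real.pi * al t + ϑ)) =
      ta ϑ / (t * (ta ϑ + tb ϑ * t)) := by
  have hS : Complex.sin (Real.pi * al t) = ((Real.sin (Real.pi * al t) : ℝ) : ℂ) := by
    push_cast; rfl
  have hC : Complex.cos (Real.pi * al t) = ((Real.cos (Real.pi * al t) : ℝ) : ℂ) := by
    push_cast; rfl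
  have hS0 : Complex.sin (Real.pi * al t) ≠ 0 := by
    rw [hS]; exact_mod_cast (sin_al_pos ht).ne'
  have hrel : Complex.cos (Real.pi * al t) * (((√3 : ℝ) : ℂ) * t) =
      Complex.sin (Real.pi * al t) * (3 * t + 2) := by
    rw [hS, hC]
    exact_mod_cast cos_al ht
  have ht0 : (t : ℂ) ≠ 0 := by exact_mod_cast ht.ne'
  have h3 := s3_ne
  have hD : (3 * (t : ℂ) ^ 2 + 3 * t + 1) ≠ 0 := by
    have : (3 * t ^ 2 + 3 * t + 1 : ℝ) ≠ 0 := by positivity
    exact_mod_cast this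
  rw [ta_add ht]
  have h1 : Complex.cot (Real.pi * al t) - Complex.cot (Real.pi * al t + ϑ) =
      Complex.sin ϑ / (Complex.sin (Real.pi * al t) * Complex.sin (Real.pi * al t + ϑ)) := by
    rw [Complex.cot_eq_cos_div_sin, Complex.cot_eq_cos_div_sin, div_sub_div _ _ hS0 h]
    congr 1
    rw [Complex.sin_add, Complex.cos_add]
    have h5 := Complex.sin_sq_add_cos_sq (Real.pi * al t)
    linear_combination (Complex.sin ϑ) * h5
  rw [h1]
  -- `w (1 + c²) = 2 / (√3 t²)`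
  have h6 : (Complex.sin (Real.pi * al t)) ^ 2 * (4 * (3 * (t : ℂ) ^ 2 + 3 * t + 1)) =
      3 * t ^ 2 := by
    have h5 := Complex.sin_sq_add_cos_sq (Real.pi * al t)
    have h7 : (Complex.cos (Real.pi * al t) * (((√3 : ℝ) : ℂ) * t)) ^ 2 =
      (Complex.sin (Real.pi * al t) * (3 * t + 2)) ^ 2 := by rw [hrel]
    have h8 : (Complex.cos (Real.pi * al t)) ^ 2 * (3 * t ^ 2) =
      (Complex.sin (Real.pi * al t)) ^ 2 * (3 * t + 2) ^ 2 := by
      rw [← mul_pow, ← h7]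
      linear_combination (-(Complex.cos (Real.pi * al t)) ^ 2 * t ^ 2) * s3_sq
    linear_combination (3 * (t : ℂ) ^ 2) * h5 - h8
  unfold ta
  push_cast
  have hD2 : (Complex.sin (Real.pi * al t)) ^ 2 * (4 * (3 * (t : ℂ) ^ 2 + 3 * t + 1)) ≠ 0 :=
    mul_ne_zero (pow_ne_zero 2 hS0) (mul_ne_zero (by norm_num) hD)
  generalize hSS : Complex.sin (Real.pi * al t) = S at *
  generalize hS' : Complex.sin (Real.pi * al t + ϑ) = S' at *
  generalize hDD : (3 * (t : ℂ) ^ 2 + 3 * t + 1) = D at *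
  generalize hs3 : ((√3 : ℝ) : ℂ) = r at *
  have h9 : r * r = 3 := by rw [← hs3]; exact s3_sq
  rw [← h9] at h6
  field_simp
  linear_combination (-Complex.sin ϑ) * h6

theorem ta_shift (ϑ : ℂ) :
    ta (ϑ + 2 * Real.pi / 3) = tb ϑ - 2 * ta ϑ ∧ tb (ϑ + 2 * Real.pi / 3) = tb ϑ - 3 * ta ϑ := by
  have h1 : Complex.cos (2 * Real.pi / 3) = -1 / 2 := by
    have : Real.cos (2 * Real.pi / 3) = -1 / 2 := by
      rw [show 2 * Real.pi / 3 = Real.pi - Real.pi / 3 by ring, Real.cos_pi_sub,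
        Real.cos_pi_div_three]
      norm_num
    have h2 : Complex.cos (2 * Real.pi / 3) = ((Real.cos (2 * Real.pi / 3) : ℝ) : ℂ) := by
      push_cast; rfl
    rw [h2, this]
    norm_num
  have h2 : Complex.sin (2 * Real.pi / 3) = ((√3 : ℝ) : ℂ) / 2 := by
    have : Real.sin (2 * Real.pi / 3) = √3 / 2 := by
      rw [show 2 * Real.pi / 3 = Real.pi - Real.pi / 3 by ring, Real.sin_pi_sub,
        Real.sin_pi_div_three]
    have h2 : Complex.sin (2 * Real.pi / 3) = ((Real.sin (2 * Real.pi / 3) : ℝ) : ℂ) := by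
      push_cast; rfl
    rw [h2, this]
    push_cast
    rfl
  have h3 := s3_ne
  have h9 := s3_sq
  unfold ta tb
  rw [Complex.sin_add, Complex.cos_add, h1, h2]
  have h4 : (2 : ℂ) / ((√3 : ℝ) : ℂ) = 2 * ((√3 : ℝ) : ℂ) / 3 := by
    rw [← s3_sq]
    field_simp
  rw [h4]
  constructor
  · linear_combination (Complex.cos ϑ / 3) * h9
  · linear_combination (Complex.cos ϑ / 2) * h9

theorem ta_sub_pi (ϑ : ℂ) : ta (ϑ - Real.pi) = -ta ϑ ∧ tb (ϑ - Real.pi) = -tb ϑ := by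
  unfold ta tb
  rw [Complex.sin_sub_pi, Complex.cos_sub_pi]
  constructor <;> ring

theorem ta_zero : ta 0 = 0 := by simp [ta]

theorem tb_zero : tb 0 = 1 := by simp [tb]

end Pool.Agent.Lib_helper33.QH
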