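import Mathlib
import Pool.Agent.Lib_helper33.QH.Defs
import Pool.Agent.Lib_helper33.QH.Cot
import Pool.Agent.Lib_helper33.QH.Trig

/-!
# The densities `nA` and `nB` are good
-/

set_option autoImplicit false

open MeasureTheory Filter Topology Set

namespace Pool.Agent.Lib_helper33.QH

/-- splitting an integral over the line -/
theorem integrable_split {F : ℝ → ℂ} (h1 : IntegrableOn F (Ioi 0))
    (h2 : IntegrableOn (fun x => F (-x)) (Ioi 0)) :
    Integrable F ∧ ∫ x, F x = ∫ x in Ioi 0, (F x + F (-x)) := by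
  have h3 : IntegrableOn F (Iic 0) := by
    rw [← Measure.map_neg_eq_self (volume : Measure ℝ)]
    let m : MeasurableEmbedding fun x : ℝ => -x := (Homeomorph.neg ℝ).measurableEmbedding
    rw [m.integrableOn_map_iff]
    simp_rw [Function.comp_def, neg_preimage, neg_Iic, neg_zero]
    exact Iff.mpr integrableOn_Ici_iff_integrableOn_Ioi h2
  have h4 : Integrable F := by
    rw [← integrableOn_univ, ← Iic_union_Ioi (a := (0 : ℝ))]
    exact h3.union h1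
  refine ⟨h4, ?_⟩
  rw [integral_add h1 h2, integral_comp_neg_Ioi, neg_zero, add_comm]
  exact (intervalIntegral.integral_Iic_add_Ioi h3 h1).symm

theorem ker_real {p : ℝ} (hp : 0 < p) {α : ℝ} {z : ℂ} (h0 : 0 < α) (h0' : α < 1)
    (h1 : 0 < α + z.re / p) (h1' : α + z.re / p < 1) :
    IntegrableOn (fun x : ℝ => ((x ^ (p * α - 1) : ℝ) : ℂ) * ((x : ℂ) ^ z - 1) /
        (((x ^ p : ℝ) : ℂ) - 1)) (Ioi 0) ∧
      ∫ x : ℝ in Ioi 0, ((x ^ (p * α - 1) : ℝ) : ℂ) * ((x : ℂ) ^ z - 1) /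
        (((x ^ p : ℝ) : ℂ) - 1) = Real.pi / p * (Complex.cot (Real.pi * α) -
        Complex.cot (Real.pi * α + Real.pi * (z / p))) := by
  have hpc : (p : ℂ) ≠ 0 := by exact_mod_cast hp.ne'
  have hre : ((α : ℂ) + z / p).re = α + z.re / p := by
    simp [Complex.add_re, Complex.div_ofReal_re]
  have hk := ker_pow hp (s₁ := (α : ℂ) + z / p) (s₀ := (α : ℂ)) (by rwa [hre]) (by rwa [hre])
    (by simpa using h0) (by simpa using h0')
  have h2 : ∀ x ∈ Ioi (0 : ℝ), ((x ^ (p * α - 1) : ℝ) : ℂ) * ((x : ℂ) ^ z - 1) /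
        (((x ^ p : ℝ) : ℂ) - 1) = ((x : ℂ) ^ (p * ((α : ℂ) + z / p) - 1) -
        (x : ℂ) ^ (p * (α : ℂ) - 1)) / ((x : ℂ) ^ (p : ℂ) - 1) := by
    intro x hx
    have hx' : (0 : ℝ) < x := hx
    have hx0 : (x : ℂ) ≠ 0 := by exact_mod_cast hx'.ne'
    rw [Complex.ofReal_cpow hx'.le, Complex.ofReal_cpow hx'.le]
    congr 1
    have e1 : (p : ℂ) * ((α : ℂ) + z / p) - 1 = (p * α - 1) + z := by
      field_simp
      ring
    rw [e1, Complex.cpow_add _ _ hx0]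
    push_cast
    ring
  constructor
  · exact hk.1.congr_fun (fun x hx => (h2 x hx).symm) measurableSet_Ioi
  · rw [setIntegral_congr_fun measurableSet_Ioi h2, hk.2, mul_add]

theorem chi_pos (y : ℝ) (e : ℕ) {x : ℝ} (hx : 0 < x) :
    chi y e x = (x : ℂ) ^ ((y : ℂ) * Complex.I) := by
  have hx0 : (x : ℂ) ≠ 0 := by exact_mod_cast hx.ne'
  unfold chi sg
  rw [if_neg (by linarith), Complex.cpow_def_of_ne_zero hx0, ← Complex.ofReal_log hx.le]
  simp only [Complex.ofReal_one, one_pow, mul_one]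
  congr 1
  push_cast
  ring

theorem chi_neg (y : ℝ) (e : ℕ) {x : ℝ} (hx : 0 < x) :
    chi y e (-x) = (-1) ^ e * (x : ℂ) ^ ((y : ℂ) * Complex.I) := by
  have hx0 : (x : ℂ) ≠ 0 := by exact_mod_cast hx.ne'
  unfold chi sg
  rw [if_pos (by linarith), Complex.cpow_def_of_ne_zero hx0, ← Complex.ofReal_log hx.le,
    Real.log_neg_eq_log]
  simp only [Complex.ofReal_neg, Complex.ofReal_one]
  rw [mul_comm]
  congr 2
  push_cast
  ring

/-- the exponent -/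
noncomputable def zz (y : ℝ) (j : ℕ) : ℂ := (j : ℂ) + (y : ℂ) * Complex.I

theorem zz_re (y : ℝ) (j : ℕ) : (zz y j).re = j := by
  simp [zz]

theorem chi_pow_pos (y : ℝ) (e j : ℕ) {x : ℝ} (hx : 0 < x) :
    chi y e x * (x : ℂ) ^ j = (x : ℂ) ^ (zz y j) := by
  have hx0 : (x : ℂ) ≠ 0 := by exact_mod_cast hx.ne'
  rw [chi_pos y e hx, zz, Complex.cpow_add _ _ hx0, Complex.cpow_natCast, mul_comm]

theorem chi_pow_neg (y : ℝ) (e j : ℕ) {x : ℝ} (hx : 0 < x) :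
    chi y e (-x) * (((-x : ℝ)) : ℂ) ^ j = (-1) ^ (e + j) * (x : ℂ) ^ (zz y j) := by
  have hx0 : (x : ℂ) ≠ 0 := by exact_mod_cast hx.ne'
  rw [chi_neg y e hx, zz, Complex.cpow_add _ _ hx0, Complex.cpow_natCast, pow_add,
    Complex.ofReal_neg, neg_pow (x : ℂ)]
  ring

/-- the weight -/
noncomputable def ww (t : ℝ) : ℝ := (√3 / 2) / (3 * t ^ 2 + 3 * t + 1)

/-- the integrand -/
noncomputable def FF (n : ℝ → ℝ → ℝ) (t y : ℝ) (e j : ℕ) (v : ℝ) : ℂ :=
  ((v - 1 : ℝ) : ℂ) * (chi y e v * (v : ℂ) ^ j - 1) * ((n t v : ℝ) : ℂ)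

theorem FF_A {t : ℝ} (ht : 0 < t) (y : ℝ) (e j : ℕ) (hj : j ≤ 1) :
    Integrable (FF nA t y e j) ∧ ∫ v, FF nA t y e j v = (ww t : ℂ) *
      (Complex.cot (Real.pi * al t) -
        Complex.cot (Real.pi * al t + Real.pi * (zz y j / ((3 / 2 : ℝ) : ℂ)))) := by
  have hj' : (j : ℝ) ≤ 1 := by exact_mod_cast hj
  have hj0 : (0 : ℝ) ≤ j := Nat.cast_nonneg j
  have ha := al_pos ht
  have ha' := al_lt ht
  have hk := ker_real (p := 3 / 2) (by norm_num) (α := al t) (z := zz y j) ha (by linarith)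
    (by rw [zz_re]; positivity) (by rw [zz_re]; linarith)
  have h2 : ∀ x ∈ Ioi (0 : ℝ), FF nA t y e j x = ((ww t * (3 / (2 * Real.pi)) : ℝ) : ℂ) *
      (((x ^ (3 / 2 * al t - 1) : ℝ) : ℂ) * ((x : ℂ) ^ (zz y j) - 1) /
        (((x ^ (3 / 2 : ℝ) : ℝ) : ℂ) - 1)) := by
    intro x hx
    have hx' : (0 : ℝ) < x := hx
    unfold FF
    rw [chi_pow_pos y e j hx']
    unfold nA ww
    rw [if_pos hx']
    rcases eq_or_ne x 1 with h1 | h1
    · subst h1
      simp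
    · have h3 : (x - 1 : ℝ) ≠ 0 := sub_ne_zero.mpr h1
      have h4 : (x ^ (3 / 2 : ℝ) - 1 : ℝ) ≠ 0 := by
        rw [sub_ne_zero]
        intro h5
        rcases lt_or_gt_of_ne h1 with h6 | h6
        · exact absurd h5 (Real.rpow_lt_one hx'.le h6 (by norm_num)).ne
        · exact absurd h5 (Real.one_lt_rpow h6 (by norm_num)).ne'
      have h3' : ((x - 1 : ℝ) : ℂ) ≠ 0 := by exact_mod_cast h3
      have h4' : ((x ^ (3 / 2 : ℝ) - 1 : ℝ) : ℂ) ≠ 0 := by exact_mod_cast h4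
      have e1 : (((√3 / 2) / (3 * t ^ 2 + 3 * t + 1) * (3 / (2 * Real.pi)) *
          (x ^ (3 / 2 * al t - 1) / ((x - 1) * (x ^ (3 / 2 : ℝ) - 1))) : ℝ) : ℂ) =
          (((√3 / 2) / (3 * t ^ 2 + 3 * t + 1) * (3 / (2 * Real.pi)) : ℝ) : ℂ) *
          (((x ^ (3 / 2 * al t - 1) : ℝ) : ℂ) /
            (((x - 1 : ℝ) : ℂ) * ((x ^ (3 / 2 : ℝ) - 1 : ℝ) : ℂ))) := by
        push_cast
        ring
      rw [e1, show (((x ^ (3 / 2 : ℝ) : ℝ) : ℂ) - 1) = ((x ^ (3 / 2 : ℝ) - 1 : ℝ) : ℂ) by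
        push_cast; ring]
      field_simp
  have hz : ∀ x, x ∉ Ioi (0 : ℝ) → FF nA t y e j x = 0 := by
    intro x hx
    unfold FF nA
    rw [if_neg (by simpa using hx)]
    simp
  have hI : IntegrableOn (FF nA t y e j) (Ioi 0) :=
    IntegrableOn.congr_fun (hk.1.const_mul _) (fun x hx => (h2 x hx).symm) measurableSet_Ioi
  constructor
  · rw [← integrableOn_iff_integrable_of_support_subset (s := Ioi (0 : ℝ))]
    · exact hI
    · intro x hx
      by_contra hc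
      exact hx (hz x hc)
  · rw [← setIntegral_eq_integral_of_forall_compl_eq_zero hz,
      setIntegral_congr_fun measurableSet_Ioi h2, integral_const_mul, hk.2]
    have hpi : (Real.pi : ℂ) ≠ 0 := by exact_mod_cast Real.pi_pos.ne'
    push_cast
    field_simp

theorem FF_B {t : ℝ} (ht : 0 < t) (y : ℝ) (e j e' : ℕ) (hj : j ≤ 1) (he : e' ≤ 1)
    (hpar : ((-1 : ℂ)) ^ (e + j) = (-1) ^ e') :
    Integrable (FF nB t y e j) ∧ ∫ v, FF nB t y e j v = (ww t : ℂ) *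
      (Complex.cot (Real.pi * al t) -
        Complex.cot (Real.pi * al t + Real.pi * ((zz y j + 3 * e') / ((6 : ℝ) : ℂ)))) := by
  have hj' : (j : ℝ) ≤ 1 := by exact_mod_cast hj
  have hj0 : (0 : ℝ) ≤ j := Nat.cast_nonneg j
  have he' : (e' : ℝ) ≤ 1 := by exact_mod_cast he
  have he0 : (0 : ℝ) ≤ e' := Nat.cast_nonneg e'
  have ha := al_pos ht
  have ha' := al_lt ht
  have hre : (zz y j + 3 * (e' : ℂ)).re = j + 3 * e' := by
    simp [zz_re]
  have hk3 := ker_real (p := 3) (by norm_num) (α := 2 * al t) (z := zz y j) (by linarith)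
    (by linarith) (by rw [zz_re]; positivity) (by rw [zz_re]; linarith)
  have hk6 := ker_real (p := 6) (by norm_num) (α := al t) (z := zz y j + 3 * e') ha
    (by linarith) (by rw [hre]; positivity) (by rw [hre]; linarith)
  have h2 : ∀ x : ℝ, 0 < x → x ≠ 1 →
      FF nB t y e j x = ((ww t * (3 / Real.pi) : ℝ) : ℂ) *
        (((x ^ (3 * (2 * al t) - 1) : ℝ) : ℂ) * ((x : ℂ) ^ (zz y j) - 1) /
        (((x ^ (3 : ℝ) : ℝ) : ℂ) - 1)) ∧
      FF nB t y e j x + FF nB t y e j (-x) = ((ww t * (6 / Real.pi) : ℝ) : ℂ) *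
        (((x ^ (6 * al t - 1) : ℝ) : ℂ) * ((x : ℂ) ^ (zz y j + 3 * e') - 1) /
        (((x ^ (6 : ℝ) : ℝ) : ℂ) - 1)) := by
    intro x hx hx1
    have hx0 : (x : ℂ) ≠ 0 := by exact_mod_cast hx.ne'
    have h3 : (x - 1 : ℝ) ≠ 0 := sub_ne_zero.mpr hx1
    have h4 : (x ^ 3 - 1 : ℝ) ≠ 0 := by
      have h5 : x ^ 3 - 1 = (x - 1) * (x ^ 2 + x + 1) := by ring
      rw [h5]
      exact mul_ne_zero h3 (by positivity)
    have h6 : (x ^ 3 + 1 : ℝ) ≠ 0 := by positivity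
    have h7 : (x + 1 : ℝ) ≠ 0 := by positivity
    have h3' : (x : ℂ) - 1 ≠ 0 := by exact_mod_cast h3
    have h4' : (x : ℂ) ^ 3 - 1 ≠ 0 := by exact_mod_cast h4
    have h6' : (x : ℂ) ^ 3 + 1 ≠ 0 := by exact_mod_cast h6
    have h7' : (x : ℂ) + 1 ≠ 0 := by exact_mod_cast h7
    have hpi : (Real.pi : ℂ) ≠ 0 := by exact_mod_cast Real.pi_pos.ne'
    have r3 : x ^ (3 : ℝ) = x ^ 3 := by exact_mod_cast Real.rpow_natCast x 3
    have r6 : x ^ (6 : ℝ) = x ^ 6 := by exact_mod_cast Real.rpow_natCast x 6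
    have e3 : 3 * (2 * al t) - 1 = 6 * al t - 1 := by ring
    have hpos : FF nB t y e j x = ((ww t * (3 / Real.pi) : ℝ) : ℂ) *
        (((x ^ (6 * al t - 1) : ℝ) : ℂ) * ((x : ℂ) ^ (zz y j) - 1) / ((x : ℂ) ^ 3 - 1)) := by
      unfold FF
      rw [chi_pow_pos y e j hx]
      unfold nB ww
      rw [abs_of_pos hx]
      push_cast
      field_simp
    have hneg : FF nB t y e j (-x) = ((ww t * (3 / Real.pi) : ℝ) : ℂ) *
        (((x ^ (6 * al t - 1) : ℝ) : ℂ) * ((-1) ^ e' * (x : ℂ) ^ (zz y j) - 1) /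
          (-((x : ℂ) ^ 3 + 1))) := by
      unfold FF
      rw [chi_pow_neg y e j hx, hpar]
      unfold nB ww
      rw [abs_neg, abs_of_pos hx]
      have q1 : ((((√3 / 2) / (3 * t ^ 2 + 3 * t + 1) * (3 / Real.pi) *
          (x ^ (6 * al t - 1) / ((-x - 1) * ((-x) ^ 3 - 1))) : ℝ)) : ℂ) =
          (((√3 / 2) / (3 * t ^ 2 + 3 * t + 1) * (3 / Real.pi) : ℝ) : ℂ) *
          (((x ^ (6 * al t - 1) : ℝ) : ℂ) / (((x : ℂ) + 1) * ((x : ℂ) ^ 3 + 1))) := by
        have q2 : (-x - 1) * ((-x) ^ 3 - 1) = (x + 1) * (x ^ 3 + 1) := by ring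
        rw [q2]
        push_cast
        ring
      rw [q1]
      push_cast
      field_simp
      ring
    refine ⟨by rw [hpos, e3, r3]; push_cast; rfl, ?_⟩
    rw [hpos, hneg, r6]
    have h8 : (x : ℂ) ^ 6 - 1 = ((x : ℂ) ^ 3 - 1) * ((x : ℂ) ^ 3 + 1) := by ring
    have h9 : (((x ^ 6 : ℝ)) : ℂ) - 1 = ((x : ℂ) ^ 3 - 1) * ((x : ℂ) ^ 3 + 1) := by
      push_cast
      ring
    rw [h9, Complex.cpow_add _ _ hx0]
    interval_cases e'
    · simp only [pow_zero, Nat.cast_zero, mul_zero, Complex.cpow_zero, mul_one, one_mul]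
      push_cast
      field_simp
      ring
    · have h10 : (x : ℂ) ^ (3 * ((1 : ℕ) : ℂ)) = (x : ℂ) ^ 3 := by
        rw [Nat.cast_one, mul_one]
        exact_mod_cast Complex.cpow_natCast (x : ℂ) 3
      rw [h10]
      simp only [pow_one]
      push_cast
      field_simp
      ring
  have hae : ∀ᵐ x ∂(volume.restrict (Ioi (0 : ℝ))), 0 < x ∧ x ≠ 1 := by
    refine Filter.Eventually.and (ae_restrict_mem measurableSet_Ioi) ?_
    refine ae_restrict_of_ae ?_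
    have : (volume : Measure ℝ) {x | ¬ x ≠ 1} = 0 := by
      have : {x : ℝ | ¬ x ≠ 1} = {1} := by ext; simp
      rw [this]
      exact Real.volume_singleton
    exact this
  have hI3 := hk3.1.const_mul ((ww t * (3 / Real.pi) : ℝ) : ℂ)
  have hI6 := hk6.1.const_mul ((ww t * (6 / Real.pi) : ℝ) : ℂ)
  have i1 : IntegrableOn (FF nB t y e j) (Ioi 0) := by
    refine Integrable.congr hI3 ?_
    filter_upwards [hae] with x hx
    exact (h2 x hx.1 hx.2).1.symm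
  have i2 : IntegrableOn (fun x => FF nB t y e j (-x)) (Ioi 0) := by
    refine Integrable.congr (hI6.sub hI3) ?_
    filter_upwards [hae] with x hx
    have q1 := (h2 x hx.1 hx.2).1
    have q2 := (h2 x hx.1 hx.2).2
    simp only [Pi.sub_apply]
    rw [← q1, ← q2]
    ring
  obtain ⟨i3, i4⟩ := integrable_split i1 i2
  refine ⟨i3, ?_⟩
  rw [i4]
  have i5 : ∫ x in Ioi 0, (FF nB t y e j x + FF nB t y e j (-x)) =
      ∫ x in Ioi 0, ((ww t * (6 / Real.pi) : ℝ) : ℂ) *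
        (((x ^ (6 * al t - 1) : ℝ) : ℂ) * ((x : ℂ) ^ (zz y j + 3 * e') - 1) /
        (((x ^ (6 : ℝ) : ℝ) : ℂ) - 1)) := by
    refine integral_congr_ae ?_
    filter_upwards [hae] with x hx
    exact (h2 x hx.1 hx.2).2
  rw [i5, integral_const_mul, hk6.2]
  have hpi : (Real.pi : ℂ) ≠ 0 := by exact_mod_cast Real.pi_pos.ne'
  push_cast
  field_simp

theorem al_measurable : Measurable al := by
  unfold al
  have h1 : Measurable (fun t : ℝ => √3 * t / (3 * t + 2)) := by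
    fun_prop
  exact (Real.measurable_arctan.comp h1).div_const _

theorem measurable_nA : Measurable (Function.uncurry nA) := by
  unfold nA Function.uncurry
  refine Measurable.ite (measurableSet_lt measurable_const measurable_snd) ?_ measurable_const
  have h1 := al_measurable
  refine Measurable.mul ?_ ?_
  · fun_prop
  · refine Measurable.div ?_ ?_
    · refine Measurable.pow measurable_snd ?_
      exact ((h1.comp measurable_fst).const_mul _).sub_const _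
    · fun_prop

theorem measurable_nB : Measurable (Function.uncurry nB) := by
  unfold nB Function.uncurry
  have h1 := al_measurable
  refine Measurable.mul ?_ ?_
  · fun_prop
  · refine Measurable.div ?_ ?_
    · refine Measurable.pow (measurable_snd.abs) ?_
      exact ((h1.comp measurable_fst).const_mul _).sub_const _
    · fun_prop

theorem ww_nonneg (t : ℝ) : 0 ≤ (√3 / 2) / (3 * t ^ 2 + 3 * t + 1) := by
  have : 0 < 3 * t ^ 2 + 3 * t + 1 := by nlinarith [sq_nonneg (2 * t + 1)]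
  positivity

theorem ww_pos (t : ℝ) : 0 < (√3 / 2) / (3 * t ^ 2 + 3 * t + 1) := by
  have : 0 < 3 * t ^ 2 + 3 * t + 1 := by nlinarith [sq_nonneg (2 * t + 1)]
  positivity

theorem denA_nonneg {v : ℝ} (hv : 0 < v) : 0 ≤ (v - 1) * (v ^ (3 / 2 : ℝ) - 1) := by
  rcases le_total v 1 with h | h
  · have := Real.rpow_le_one hv.le h (by norm_num : (0 : ℝ) ≤ 3 / 2)
    nlinarith
  · have := Real.one_le_rpow h (by norm_num : (0 : ℝ) ≤ 3 / 2)
    nlinarith

theorem denB_nonneg (v : ℝ) : 0 ≤ (v - 1) * (v ^ 3 - 1) := by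
  have h : (v - 1) * (v ^ 3 - 1) = (v - 1) ^ 2 * (v ^ 2 + v + 1) := by ring
  rw [h]
  have : 0 < v ^ 2 + v + 1 := by nlinarith [sq_nonneg (2 * v + 1)]
  positivity

theorem nA_nonneg (t v : ℝ) : 0 ≤ nA t v := by
  unfold nA
  split_ifs with h
  · have h1 := ww_nonneg t
    have h2 := denA_nonneg h
    have h3 := Real.rpow_nonneg h.le (3 / 2 * al t - 1)
    have h4 := Real.pi_pos
    positivity
  · exact le_rfl

theorem nB_nonneg (t v : ℝ) : 0 ≤ nB t v := by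
  unfold nB
  have h1 := ww_nonneg t
  have h2 := denB_nonneg v
  have h3 := Real.rpow_nonneg (abs_nonneg v) (6 * al t - 1)
  have h4 := Real.pi_pos
  positivity

theorem nA_pos {t v : ℝ} (hv : 1 < v) : 0 < nA t v := by
  unfold nA
  rw [if_pos (by linarith)]
  have h1 := ww_pos t
  have h2 : 0 < v ^ (3 / 2 : ℝ) - 1 := by
    have := Real.one_lt_rpow hv (by norm_num : (0 : ℝ) < 3 / 2)
    linarith
  have h3 : 0 < v - 1 := by linarith
  have h5 := Real.rpow_pos_of_pos (by linarith : (0 : ℝ) < v) (3 / 2 * al t - 1)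
  have h4 := Real.pi_pos
  positivity

theorem nB_pos {t v : ℝ} (hv : v ≠ 0) (hv1 : v ≠ 1) : 0 < nB t v := by
  unfold nB
  have h1 := ww_pos t
  have h2 : 0 < (v - 1) * (v ^ 3 - 1) := by
    have h : (v - 1) * (v ^ 3 - 1) = (v - 1) ^ 2 * (v ^ 2 + v + 1) := by ring
    rw [h]
    have h6 : 0 < v ^ 2 + v + 1 := by nlinarith [sq_nonneg (2 * v + 1)]
    have h7 : v - 1 ≠ 0 := sub_ne_zero.mpr hv1
    positivity
  have h5 := Real.rpow_pos_of_pos (abs_pos.mpr hv) (6 * al t - 1)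
  have h4 := Real.pi_pos
  positivity

/-- the two integrals in terms of `ta`, `tb` -/
theorem value {t : ℝ} (ht : 0 < t) {ϑ : ℂ} (h0 : 0 ≤ ϑ.re) (h1 : ϑ.re ≤ 5 / 6 * Real.pi) :
    ta ϑ + tb ϑ * t ≠ 0 ∧ (ww t : ℂ) * (Complex.cot (Real.pi * al t) -
        Complex.cot (Real.pi * al t + ϑ)) = ta ϑ / (t * (ta ϑ + tb ϑ * t)) := by
  have ha := al_pos ht
  have ha' := al_lt ht
  have hpi := Real.pi_pos
  have hre : ((Real.pi : ℂ) * al t + ϑ).re = Real.pi * al t + ϑ.re := by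
    rw [← Complex.ofReal_mul, Complex.add_re, Complex.ofReal_re]
  have hs : Complex.sin (Real.pi * al t + ϑ) ≠ 0 := by
    refine sin_ne_zero ?_ ?_
    · rw [hre]; positivity
    · rw [hre]; nlinarith
  exact ⟨ta_add_ne ht hs, cot_identity ht hs⟩

theorem key_of {n : ℝ → ℝ → ℝ} (y : ℝ) (e : ℕ) {ϑ ϑ' : ℂ} {s : ℂ} (hs : s ≠ 0)
    (hr : 0 ≤ ϑ.re ∧ ϑ.re ≤ 5 / 6 * Real.pi) (hr' : 0 ≤ ϑ'.re ∧ ϑ'.re ≤ 5 / 6 * Real.pi)
    (hta : ta ϑ' = s * (tb ϑ - 2 * ta ϑ)) (htb : tb ϑ' = s * (tb ϑ - 3 * ta ϑ))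
    (h0 : ∀ t : ℝ, 0 < t → ∫ v, FF n t y e 0 v = (ww t : ℂ) * (Complex.cot (Real.pi * al t) -
        Complex.cot (Real.pi * al t + ϑ)))
    (h1 : ∀ t : ℝ, 0 < t → ∫ v, FF n t y e 1 v = (ww t : ℂ) * (Complex.cot (Real.pi * al t) -
        Complex.cot (Real.pi * al t + ϑ'))) (t : ℝ) (ht : 0 < t) :
    ta ϑ + tb ϑ * t ≠ 0 ∧ (tb ϑ - 2 * ta ϑ) + (tb ϑ - 3 * ta ϑ) * t ≠ 0 ∧
    ∫ v : ℝ, ((v - 1 : ℝ) : ℂ) * (chi y e v - 1) * ((n t v : ℝ) : ℂ) =
      ta ϑ / (t * (ta ϑ + tb ϑ * t)) ∧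
    ∫ v : ℝ, ((v - 1 : ℝ) : ℂ) * (chi y e v * (v : ℂ) - 1) * ((n t v : ℝ) : ℂ)
      = (tb ϑ - 2 * ta ϑ) / (t * ((tb ϑ - 2 * ta ϑ) + (tb ϑ - 3 * ta ϑ) * t)) := by
  obtain ⟨v1, v2⟩ := value ht hr.1 hr.2
  obtain ⟨v3, v4⟩ := value ht hr'.1 hr'.2
  rw [hta, htb, show s * (tb ϑ - 2 * ta ϑ) + s * (tb ϑ - 3 * ta ϑ) * (t : ℂ) =
    s * ((tb ϑ - 2 * ta ϑ) + (tb ϑ - 3 * ta ϑ) * t) by ring] at v3 v4
  have v5 := right_ne_zero_of_mul v3
  refine ⟨v1, v5, ?_, ?_⟩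
  · rw [← v2, ← h0 t ht]
    unfold FF
    simp only [pow_zero, mul_one]
  · have v6 : s * (tb ϑ - 2 * ta ϑ) / ((t : ℂ) * (s * ((tb ϑ - 2 * ta ϑ) +
        (tb ϑ - 3 * ta ϑ) * t))) =
        (tb ϑ - 2 * ta ϑ) / (t * ((tb ϑ - 2 * ta ϑ) + (tb ϑ - 3 * ta ϑ) * t)) := by
      rw [show (t : ℂ) * (s * ((tb ϑ - 2 * ta ϑ) + (tb ϑ - 3 * ta ϑ) * t)) =
        s * (t * ((tb ϑ - 2 * ta ϑ) + (tb ϑ - 3 * ta ϑ) * t)) by ring,
        mul_div_mul_left _ _ hs]
    rw [← v6, ← v4, ← h1 t ht]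
    unfold FF
    simp only [pow_one]

/-- the square integrals, from the second identity at the trivial character -/
theorem sq_of {n : ℝ → ℝ → ℝ} {t : ℝ} (hi : Integrable (FF n t 0 0 1))
    (h1 : ∫ v, FF n t 0 0 1 v = ((1 / (t * (t + 1)) : ℝ) : ℂ)) :
    Integrable (fun v : ℝ => (v - 1) ^ 2 * n t v) ∧
      ∫ v : ℝ, (v - 1) ^ 2 * n t v = 1 / (t * (t + 1)) := by
  have h2 : FF n t 0 0 1 = fun v : ℝ => (((v - 1) ^ 2 * n t v : ℝ) : ℂ) := by
    funext v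
    unfold FF chi
    simp only [zero_mul, Complex.ofReal_zero, Complex.exp_zero, pow_zero, mul_one, one_mul,
      pow_one]
    push_cast
    ring
  rw [h2] at hi h1
  constructor
  · exact hi.re
  · have h3 : ((∫ v : ℝ, (v - 1) ^ 2 * n t v : ℝ) : ℂ) = ((1 / (t * (t + 1)) : ℝ) : ℂ) := by
      rw [← h1]
      exact (integral_ofReal).symm
    exact_mod_cast h3

theorem value_zero {t : ℝ} (ht : 0 < t) (ϑ : ℂ) (h0 : 0 ≤ ϑ.re) (h1 : ϑ.re ≤ 5 / 6 * Real.pi)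
    (hta : ta ϑ = 1) (htb : tb ϑ = 1) :
    (ww t : ℂ) * (Complex.cot (Real.pi * al t) - Complex.cot (Real.pi * al t + ϑ)) =
      ((1 / (t * (t + 1)) : ℝ) : ℂ) := by
  rw [(value ht h0 h1).2, hta, htb]
  push_cast
  congr 2
  ring

theorem ta_two_thirds : ta (2 * Real.pi / 3) = 1 ∧ tb (2 * Real.pi / 3) = 1 := by
  have h := ta_shift 0
  rw [ta_zero, tb_zero, zero_add] at h
  constructor
  · rw [h.1]; ring
  · rw [h.2]; ring

theorem goodA : GoodDensity nA where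
  meas := measurable_nA
  nonneg := nA_nonneg
  sq_int := by
    intro t ht
    refine (sq_of (FF_A ht 0 0 1 le_rfl).1 ?_).1
    rw [(FF_A ht 0 0 1 le_rfl).2]
    have e1 : (Real.pi : ℂ) * (zz 0 1 / ((3 / 2 : ℝ) : ℂ)) = 2 * Real.pi / 3 := by
      unfold zz; push_cast; ring
    rw [e1]
    have hre : ((2 : ℂ) * Real.pi / 3).re = 2 * Real.pi / 3 := by
      rw [show (2 : ℂ) * Real.pi / 3 = ((2 * Real.pi / 3 : ℝ) : ℂ) by push_cast; ring,
        Complex.ofReal_re]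
    exact value_zero ht _ (by rw [hre]; positivity) (by rw [hre]; linarith [Real.pi_pos])
      ta_two_thirds.1 ta_two_thirds.2
  sq_eq := by
    intro t ht
    refine (sq_of (FF_A ht 0 0 1 le_rfl).1 ?_).2
    rw [(FF_A ht 0 0 1 le_rfl).2]
    have e1 : (Real.pi : ℂ) * (zz 0 1 / ((3 / 2 : ℝ) : ℂ)) = 2 * Real.pi / 3 := by
      unfold zz; push_cast; ring
    rw [e1]
    have hre : ((2 : ℂ) * Real.pi / 3).re = 2 * Real.pi / 3 := by
      rw [show (2 : ℂ) * Real.pi / 3 = ((2 * Real.pi / 3 : ℝ) : ℂ) by push_cast; ring,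
        Complex.ofReal_re]
    exact value_zero ht _ (by rw [hre]; positivity) (by rw [hre]; linarith [Real.pi_pos])
      ta_two_thirds.1 ta_two_thirds.2
  key := by
    intro y e
    set ϑ : ℂ := Real.pi * (zz y 0 / ((3 / 2 : ℝ) : ℂ)) with hϑ
    set ϑ' : ℂ := Real.pi * (zz y 1 / ((3 / 2 : ℝ) : ℂ)) with hϑ'
    have e1 : ϑ' = ϑ + 2 * Real.pi / 3 := by
      rw [hϑ, hϑ']; unfold zz; push_cast; ring
    have hr : ϑ.re = 0 := by
      rw [hϑ, Complex.re_ofReal_mul, Complex.div_ofReal_re, zz_re]; simp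
    have hr' : ϑ'.re = 2 * Real.pi / 3 := by
      rw [hϑ', Complex.re_ofReal_mul, Complex.div_ofReal_re, zz_re]; push_cast; ring
    refine ⟨ta ϑ, tb ϑ, key_of y e (ϑ' := ϑ') (s := 1) one_ne_zero ?_ ?_ ?_ ?_ ?_ ?_⟩
    · rw [hr]; exact ⟨le_rfl, by linarith [Real.pi_pos]⟩
    · rw [hr']; exact ⟨by linarith [Real.pi_pos], by linarith [Real.pi_pos]⟩
    · rw [e1, (ta_shift ϑ).1, one_mul]
    · rw [e1, (ta_shift ϑ).2, one_mul]
    · intro t ht
      exact (FF_A ht y e 0 (by norm_num)).2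
    · intro t ht
      exact (FF_A ht y e 1 le_rfl).2

theorem goodB : GoodDensity nB where
  meas := measurable_nB
  nonneg := nB_nonneg
  sq_int := by
    intro t ht
    have hF := FF_B ht 0 0 1 1 le_rfl le_rfl (by norm_num)
    refine (sq_of hF.1 ?_).1
    rw [hF.2]
    have e1 : (Real.pi : ℂ) * ((zz 0 1 + 3 * ((1 : ℕ) : ℂ)) / ((6 : ℝ) : ℂ)) =
        2 * Real.pi / 3 := by
      unfold zz; push_cast; ring
    rw [e1]
    have hre : ((2 : ℂ) * Real.pi / 3).re = 2 * Real.pi / 3 := by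
      rw [show (2 : ℂ) * Real.pi / 3 = ((2 * Real.pi / 3 : ℝ) : ℂ) by push_cast; ring,
        Complex.ofReal_re]
    exact value_zero ht _ (by rw [hre]; positivity) (by rw [hre]; linarith [Real.pi_pos])
      ta_two_thirds.1 ta_two_thirds.2
  sq_eq := by
    intro t ht
    have hF := FF_B ht 0 0 1 1 le_rfl le_rfl (by norm_num)
    refine (sq_of hF.1 ?_).2
    rw [hF.2]
    have e1 : (Real.pi : ℂ) * ((zz 0 1 + 3 * ((1 : ℕ) : ℂ)) / ((6 : ℝ) : ℂ)) =
        2 * Real.pi / 3 := by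
      unfold zz; push_cast; ring
    rw [e1]
    have hre : ((2 : ℂ) * Real.pi / 3).re = 2 * Real.pi / 3 := by
      rw [show (2 : ℂ) * Real.pi / 3 = ((2 * Real.pi / 3 : ℝ) : ℂ) by push_cast; ring,
        Complex.ofReal_re]
    exact value_zero ht _ (by rw [hre]; positivity) (by rw [hre]; linarith [Real.pi_pos])
      ta_two_thirds.1 ta_two_thirds.2
  key := by
    intro y e
    rcases Nat.even_or_odd e with he | he
    · have p0 : ((-1 : ℂ)) ^ (e + 0) = (-1) ^ 0 := by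
        rw [add_zero, he.neg_one_pow, pow_zero]
      have p1 : ((-1 : ℂ)) ^ (e + 1) = (-1) ^ 1 := by
        rw [he.add_one.neg_one_pow, pow_one]
      set ϑ : ℂ := Real.pi * ((zz y 0 + 3 * ((0 : ℕ) : ℂ)) / ((6 : ℝ) : ℂ)) with hϑ
      set ϑ' : ℂ := Real.pi * ((zz y 1 + 3 * ((1 : ℕ) : ℂ)) / ((6 : ℝ) : ℂ)) with hϑ'
      have e1 : ϑ' = ϑ + 2 * Real.pi / 3 := by
        rw [hϑ, hϑ']; unfold zz; push_cast; ring
      have hr : ϑ.re = 0 := by
        rw [hϑ, Complex.re_ofReal_mul, Complex.div_ofReal_re, Complex.add_re, zz_re]; simp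
      have hr' : ϑ'.re = 2 * Real.pi / 3 := by
        rw [e1, Complex.add_re, hr,
          show (2 : ℂ) * Real.pi / 3 = ((2 * Real.pi / 3 : ℝ) : ℂ) by push_cast; ring,
          Complex.ofReal_re, zero_add]
      refine ⟨ta ϑ, tb ϑ, key_of y e (ϑ' := ϑ') (s := 1) one_ne_zero ?_ ?_ ?_ ?_ ?_ ?_⟩
      · rw [hr]; exact ⟨le_rfl, by linarith [Real.pi_pos]⟩
      · rw [hr']; exact ⟨by linarith [Real.pi_pos], by linarith [Real.pi_pos]⟩
      · rw [e1, (ta_shift ϑ).1, one_mul]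
      · rw [e1, (ta_shift ϑ).2, one_mul]
      · intro t ht
        exact (FF_B ht y e 0 0 (by norm_num) (by norm_num) p0).2
      · intro t ht
        exact (FF_B ht y e 1 1 le_rfl le_rfl p1).2
    · have p0 : ((-1 : ℂ)) ^ (e + 0) = (-1) ^ 1 := by
        rw [add_zero, he.neg_one_pow, pow_one]
      have p1 : ((-1 : ℂ)) ^ (e + 1) = (-1) ^ 0 := by
        rw [he.add_one.neg_one_pow, pow_zero]
      set ϑ : ℂ := Real.pi * ((zz y 0 + 3 * ((1 : ℕ) : ℂ)) / ((6 : ℝ) : ℂ)) with hϑ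
      set ϑ' : ℂ := Real.pi * ((zz y 1 + 3 * ((0 : ℕ) : ℂ)) / ((6 : ℝ) : ℂ)) with hϑ'
      have e1 : ϑ' = (ϑ + 2 * Real.pi / 3) - Real.pi := by
        rw [hϑ, hϑ']; unfold zz; push_cast; ring
      have hr : ϑ.re = Real.pi / 2 := by
        rw [show ϑ = ((Real.pi / 2 : ℝ) : ℂ) + ((Real.pi * y / 6 : ℝ) : ℂ) * Complex.I by
          rw [hϑ]; unfold zz; push_cast; ring]
        simp
      have hr' : ϑ'.re = Real.pi / 6 := by
        rw [show ϑ' = ((Real.pi / 6 : ℝ) : ℂ) + ((Real.pi * y / 6 : ℝ) : ℂ) * Complex.I by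
          rw [hϑ']; unfold zz; push_cast; ring]
        simp
      refine ⟨ta ϑ, tb ϑ, key_of y e (ϑ' := ϑ') (s := -1) (by norm_num) ?_ ?_ ?_ ?_ ?_ ?_⟩
      · rw [hr]; exact ⟨by linarith [Real.pi_pos], by linarith [Real.pi_pos]⟩
      · rw [hr']; exact ⟨by linarith [Real.pi_pos], by linarith [Real.pi_pos]⟩
      · rw [e1, (ta_sub_pi _).1, (ta_shift ϑ).1]; ring
      · rw [e1, (ta_sub_pi _).2, (ta_shift ϑ).2]; ring
      · intro t ht
        exact (FF_B ht y e 0 1 (by norm_num) le_rfl p0).2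
      · intro t ht
        exact (FF_B ht y e 1 0 le_rfl (by norm_num) p1).2

end Pool.Agent.Lib_helper33.QH
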